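import Mathlib

set_option autoImplicit false

/-!
# Reflexive operators: definitions in the form of the frozen statement S05935
-/

namespace Pool.Agent.RFX

/-- `Lat T ⊆ Lat S`: every closed subspace invariant under `T` is invariant under `S`. -/
def LatLE {E : Type*} [NormedAddCommGroup E] [NormedSpace ℂ E] (T S : E →L[ℂ] E) : Prop :=
  ∀ V : Submodule ℂ E, IsClosed (V : Set E) → (∀ v ∈ V, T v ∈ V) → ∀ v ∈ V, S v ∈ V

/-- `S` is a strong operator limit of elements of the algebra generated by `T` and `1`. -/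
def InW {E : Type*} [NormedAddCommGroup E] [NormedSpace ℂ E] (T S : E →L[ℂ] E) : Prop :=
  ∀ (s : Finset E) (ε : ℝ), 0 < ε →
    ∃ B ∈ Algebra.adjoin ℂ ({T} : Set (E →L[ℂ] E)), ∀ x ∈ s, ‖S x - B x‖ < ε

/-- `T` is reflexive. -/
def ReflexiveOp {E : Type*} [NormedAddCommGroup E] [NormedSpace ℂ E] (T : E →L[ℂ] E) : Prop :=
  ∀ S : E →L[ℂ] E, LatLE T S → InW T S

/-- The `k`-fold direct sum `A ⊕ ⋯ ⊕ A` on `H ⊕ ⋯ ⊕ H`. -/
noncomputable def ampl {H : Type*} [NormedAddCommGroup H] [NormedSpace ℂ H] (k : ℕ)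
    (A : H →L[ℂ] H) : (Fin k → H) →L[ℂ] (Fin k → H) :=
  ContinuousLinearMap.piMap (fun _ => A)

section basics

variable {H : Type*} [NormedAddCommGroup H] [NormedSpace ℂ H]

@[simp] lemma ampl_apply (k : ℕ) (A : H →L[ℂ] H) (v : Fin k → H) (i : Fin k) :
    ampl k A v i = A (v i) := rfl

lemma ampl_mul (k : ℕ) (A B : H →L[ℂ] H) : ampl k (A * B) = ampl k A * ampl k B := by
  ext v i; rfl

lemma ampl_one (k : ℕ) : ampl k (1 : H →L[ℂ] H) = 1 := by
  ext v i; rfl

lemma ampl_add (k : ℕ) (A B : H →L[ℂ] H) : ampl k (A + B) = ampl k A + ampl k B := by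
  ext v i; rfl

lemma ampl_smul (k : ℕ) (c : ℂ) (A : H →L[ℂ] H) : ampl k (c • A) = c • ampl k A := by
  ext v i; rfl

lemma ampl_pow (k : ℕ) (A : H →L[ℂ] H) (n : ℕ) : ampl k (A ^ n) = ampl k A ^ n := by
  induction n with
  | zero => simp [ampl_one]
  | succ n ih => rw [pow_succ, pow_succ, ampl_mul, ih]

/-- Ampliation as an algebra homomorphism. -/
noncomputable def amplHom (k : ℕ) : (H →L[ℂ] H) →ₐ[ℂ] ((Fin k → H) →L[ℂ] (Fin k → H)) :=
  AlgHom.ofLinearMap
    { toFun := ampl k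
      map_add' := ampl_add k
      map_smul' := ampl_smul k }
    (ampl_one k) (ampl_mul k)

lemma aeval_ampl (k : ℕ) (A : H →L[ℂ] H) (p : Polynomial ℂ) :
    Polynomial.aeval (ampl k A) p = ampl k (Polynomial.aeval A p) := by
  have := Polynomial.aeval_algHom_apply (amplHom (H := H) k) A p
  exact this

lemma ampl_norm_le (k : ℕ) (A : H →L[ℂ] H) : ‖ampl k A‖ ≤ ‖A‖ := by
  refine ContinuousLinearMap.opNorm_le_bound _ (norm_nonneg _) (fun v => ?_)
  refine (pi_norm_le_iff_of_nonneg (by positivity)).2 (fun i => ?_)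
  rw [ampl_apply]
  exact (A.le_opNorm _).trans (mul_le_mul_of_nonneg_left (norm_le_pi_norm v i) (norm_nonneg _))

/-- Polynomials in `T` leave the `T`-invariant subspaces invariant. -/
lemma aeval_mem {T : H →L[ℂ] H} {V : Submodule ℂ H} (hV : ∀ v ∈ V, T v ∈ V)
    (p : Polynomial ℂ) {v : H} (hv : v ∈ V) : Polynomial.aeval T p v ∈ V := by
  induction p using Polynomial.induction_on' with
  | add p q hp hq => simpa using V.add_mem hp hq
  | monomial n a =>
    have h : ∀ n : ℕ, (T ^ n) v ∈ V := by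
      intro n
      induction n with
      | zero => simpa using hv
      | succ n ih =>
        rw [pow_succ']
        exact hV _ ih
    rw [Polynomial.aeval_monomial]
    have : (algebraMap ℂ (H →L[ℂ] H) a * T ^ n) v = a • (T ^ n) v := by
      rw [Algebra.algebraMap_eq_smul_one]; simp
    rw [this]
    exact V.smul_mem _ (h n)

lemma mem_adjoin_iff {T B : H →L[ℂ] H} :
    B ∈ Algebra.adjoin ℂ ({T} : Set (H →L[ℂ] H)) ↔ ∃ p : Polynomial ℂ, Polynomial.aeval T p = B := by
  rw [Algebra.adjoin_singleton_eq_range_aeval]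
  exact AlgHom.mem_range _

/-- If the ampliation of `C` is in the weakly closed algebra of the ampliation of `T` then `C` is
in the weakly closed algebra of `T`. -/
lemma inW_of_ampl {k : ℕ} (hk : 1 ≤ k) {T C : H →L[ℂ] H} (h : InW (ampl k T) (ampl k C)) :
    InW T C := by
  classical
  intro s ε hε
  let i0 : Fin k := ⟨0, hk⟩
  obtain ⟨B, hB, hx⟩ := h (s.image (fun x => fun _ : Fin k => x)) ε hε
  obtain ⟨p, rfl⟩ := mem_adjoin_iff.1 hB
  refine ⟨Polynomial.aeval T p, mem_adjoin_iff.2 ⟨p, rfl⟩, fun x hxs => ?_⟩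
  have h1 := hx (fun _ => x) (Finset.mem_image_of_mem _ hxs)
  rw [aeval_ampl] at h1
  exact lt_of_le_of_lt (norm_le_pi_norm
    (ampl k C (fun _ => x) - ampl k (Polynomial.aeval T p) (fun _ => x)) i0) h1

lemma not_reflexiveOp_ampl {k : ℕ} (hk : 1 ≤ k) {T C : H →L[ℂ] H} (h1 : LatLE (ampl k T) (ampl k C))
    (h2 : ¬ InW T C) : ¬ ReflexiveOp (ampl k T) :=
  fun h => h2 (inW_of_ampl hk (h _ h1))

end basics

end Pool.Agent.RFX
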