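import Mathlib
import Pool.Agent.RFX.Def

set_option autoImplicit false

/-!
# The non-reflexivity criterion

If the operators `Xo R Yi`, `R` a trace-zero matrix in one of the blocks, are norm limits of
polynomials in `B`, and all corners `Yo p(B) Xi` are of this kind, then every finite ampliation of
`B` is nonreflexive.
-/

namespace Pool.Agent.RFX

open scoped InnerProductSpace BigOperators

section mats

variable {V : Type*} [NormedAddCommGroup V] [InnerProductSpace ℂ V]

/-- matrix units in block `k` -/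
noncomputable def EE (e : ℕ × ℕ → V) (k a b : ℕ) : V →L[ℂ] V :=
  InnerProductSpace.rankOne ℂ (e (k, a)) (e (k, b))

lemma EE_apply (e : ℕ × ℕ → V) (k a b : ℕ) (z : V) :
    EE e k a b z = (⟪e (k, b), z⟫_ℂ) • e (k, a) := rfl

/-- the basis of the trace-zero matrices of block `k` (of size `k+1`) -/
noncomputable def RR (e : ℕ × ℕ → V) (t : ℕ × ℕ × ℕ) : V →L[ℂ] V :=
  if t.2.1 ≤ t.1 ∧ t.2.2 ≤ t.1 then
    (if t.2.1 = t.2.2 then EE e t.1 t.2.1 t.2.1 - EE e t.1 0 0 else EE e t.1 t.2.1 t.2.2)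
  else 0

/-- the projection on block `k` -/
noncomputable def QQ (e : ℕ × ℕ → V) (k : ℕ) : V →L[ℂ] V :=
  ∑ a ∈ Finset.range (k + 1), EE e k a a

/-- the trace over block `k` -/
noncomputable def trk (e : ℕ × ℕ → V) (k : ℕ) (X : V →L[ℂ] V) : ℂ :=
  ∑ a ∈ Finset.range (k + 1), ⟪e (k, a), X (e (k, a))⟫_ℂ

variable {e : ℕ × ℕ → V}

lemma EE_basis (he : Orthonormal ℂ e) (k a b k' c : ℕ) :
    EE e k a b (e (k', c)) = if k = k' ∧ b = c then e (k, a) else 0 := by
  rw [EE_apply]
  have h := orthonormal_iff_ite.1 he (k, b) (k', c)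
  rw [h]
  by_cases h1 : k = k' ∧ b = c
  · rw [if_pos h1, if_pos (by rw [h1.1, h1.2]), one_smul]
  · rw [if_neg h1, if_neg (by rintro h2; exact h1 ⟨congrArg Prod.fst h2, congrArg Prod.snd h2⟩),
      zero_smul]

lemma norm_EE_le (he : Orthonormal ℂ e) (k a b : ℕ) : ‖EE e k a b‖ ≤ 1 := by
  refine ContinuousLinearMap.opNorm_le_bound _ zero_le_one (fun z => ?_)
  rw [EE_apply, norm_smul, he.1 (k, a), mul_one, one_mul]
  have := norm_inner_le_norm (𝕜 := ℂ) (e (k, b)) z
  rwa [he.1 (k, b), one_mul] at this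

lemma norm_RR_le (he : Orthonormal ℂ e) (t : ℕ × ℕ × ℕ) : ‖RR e t‖ ≤ 2 := by
  unfold RR
  split_ifs
  · refine (norm_sub_le _ _).trans ?_
    have h1 := norm_EE_le he t.1 t.2.1 t.2.1
    have h2 := norm_EE_le he t.1 0 0
    linarith
  · have h1 := norm_EE_le he t.1 t.2.1 t.2.2
    linarith
  · simp

lemma trk_add (k : ℕ) (X Y : V →L[ℂ] V) : trk e k (X + Y) = trk e k X + trk e k Y := by
  unfold trk
  rw [← Finset.sum_add_distrib]
  refine Finset.sum_congr rfl (fun a _ => ?_)
  rw [add_apply, inner_add_right]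

lemma trk_sub (k : ℕ) (X Y : V →L[ℂ] V) : trk e k (X - Y) = trk e k X - trk e k Y := by
  unfold trk
  rw [← Finset.sum_sub_distrib]
  refine Finset.sum_congr rfl (fun a _ => ?_)
  rw [sub_apply, inner_sub_right]

lemma trk_smul (k : ℕ) (c : ℂ) (X : V →L[ℂ] V) : trk e k (c • X) = c * trk e k X := by
  unfold trk
  rw [Finset.mul_sum]
  refine Finset.sum_congr rfl (fun a _ => ?_)
  rw [smul_apply, inner_smul_right]

lemma trk_zero (k : ℕ) : trk e k (0 : V →L[ℂ] V) = 0 := by
  unfold trk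
  simp

lemma trk_EE (he : Orthonormal ℂ e) (k k' a b : ℕ) :
    trk e k (EE e k' a b) = if k = k' ∧ a = b ∧ a ≤ k then 1 else 0 := by
  unfold trk
  have h : ∀ c ∈ Finset.range (k + 1), ⟪e (k, c), EE e k' a b (e (k, c))⟫_ℂ =
      if c = a then (if k = k' ∧ a = b then 1 else 0) else 0 := by
    intro c _
    rw [EE_basis he]
    by_cases h1 : k' = k ∧ b = c
    · rw [if_pos h1, orthonormal_iff_ite.1 he]
      obtain ⟨rfl, rfl⟩ := h1
      by_cases h2 : b = a
      · subst h2; simp
      · simp [h2]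
    · rw [if_neg h1, inner_zero_right]
      by_cases h2 : c = a
      · subst h2
        rw [if_pos rfl, if_neg]
        rintro ⟨rfl, rfl⟩
        exact h1 ⟨rfl, rfl⟩
      · rw [if_neg h2]
  rw [Finset.sum_congr rfl h, Finset.sum_ite_eq']
  by_cases ha : a ≤ k
  · rw [if_pos (Finset.mem_range.2 (by omega))]
    by_cases h2 : k = k' ∧ a = b
    · rw [if_pos h2, if_pos ⟨h2.1, h2.2, ha⟩]
    · rw [if_neg h2, if_neg (fun h3 => h2 ⟨h3.1, h3.2.1⟩)]
  · rw [if_neg (by simpa using (by omega : ¬ a < k + 1)), if_neg (fun h3 => ha h3.2.2)]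

lemma trk_RR (he : Orthonormal ℂ e) (k : ℕ) (t : ℕ × ℕ × ℕ) : trk e k (RR e t) = 0 := by
  unfold RR
  split_ifs with h1 h2
  · rw [trk_sub, trk_EE he, trk_EE he]
    by_cases hk : k = t.1
    · subst hk
      simp [h1.1]
    · simp [hk]
  · rw [trk_EE he, if_neg (fun h3 => h2 h3.2.1)]
  · exact trk_zero k

lemma trk_span (he : Orthonormal ℂ e) (k : ℕ) {X : V →L[ℂ] V}
    (hX : X ∈ Submodule.span ℂ (Set.range (RR e))) : trk e k X = 0 := by
  induction hX using Submodule.span_induction with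
  | mem x h => obtain ⟨t, rfl⟩ := h; exact trk_RR he k t
  | zero => exact trk_zero k
  | add x y _ _ hx hy => rw [trk_add, hx, hy, add_zero]
  | smul a x _ hx => rw [trk_smul, hx, mul_zero]

lemma trk_QQ (he : Orthonormal ℂ e) (k : ℕ) : trk e k (QQ e k) = (k + 1 : ℕ) := by
  have h : ∀ s : Finset ℕ, trk e k (∑ a ∈ s, EE e k a a) = ∑ a ∈ s, trk e k (EE e k a a) := by
    classical
    intro s
    induction s using Finset.induction_on with
    | empty => simp [trk_zero]
    | insert a s ha ih => rw [Finset.sum_insert ha, Finset.sum_insert ha, trk_add, ih]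
  unfold QQ
  rw [h]
  rw [Finset.sum_congr rfl (g := fun _ => (1 : ℂ))]
  · simp
  · intro a ha
    rw [trk_EE he, if_pos ⟨rfl, rfl, by have := Finset.mem_range.1 ha; omega⟩]

/-- a matrix of trace zero in block `k` gives an element of the span -/
lemma matrix_mem_span (k : ℕ) (M : ℕ → ℕ → ℂ)
    (htr : ∑ a ∈ Finset.range (k + 1), M a a = 0) :
    ∑ a ∈ Finset.range (k + 1), ∑ b ∈ Finset.range (k + 1), M a b • EE e k a b
      ∈ Submodule.span ℂ (Set.range (RR e)) := by
  have h1 : ∑ a ∈ Finset.range (k + 1), ∑ b ∈ Finset.range (k + 1), M a b • EE e k a b =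
      ∑ a ∈ Finset.range (k + 1), ∑ b ∈ Finset.range (k + 1), M a b • RR e (k, a, b) := by
    have h2 : ∀ a ∈ Finset.range (k + 1),
        ∑ b ∈ Finset.range (k + 1), M a b • EE e k a b =
          ∑ b ∈ Finset.range (k + 1), M a b • RR e (k, a, b) + M a a • EE e k 0 0 := by
      intro a ha
      have ha' : a ≤ k := by have := Finset.mem_range.1 ha; omega
      have h3 : ∀ b ∈ Finset.range (k + 1), M a b • EE e k a b = M a b • RR e (k, a, b) +
          (if a = b then M a a • EE e k 0 0 else 0) := by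
        intro b hb
        have hb' : b ≤ k := by have := Finset.mem_range.1 hb; omega
        unfold RR
        by_cases hab : a = b
        · subst hab
          simp [ha', smul_sub]
        · simp [ha', hb', hab]
      rw [Finset.sum_congr rfl h3, Finset.sum_add_distrib, Finset.sum_ite_eq, if_pos ha]
    rw [Finset.sum_congr rfl h2, Finset.sum_add_distrib, ← Finset.sum_smul, htr, zero_smul,
      add_zero]
  rw [h1]
  refine Submodule.sum_mem _ (fun a _ => Submodule.sum_mem _ (fun b _ => ?_))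
  exact Submodule.smul_mem _ _ (Submodule.subset_span ⟨_, rfl⟩)

/-- For `k` vectors there is a trace-zero matrix in block `k` (of size `k+1`) acting on the block
components of the vectors as the identity. -/
lemma exists_fix (k : ℕ) (w : Fin k → V) :
    ∃ X ∈ Submodule.span ℂ (Set.range (RR e)), ∀ i, X (w i) = QQ e k (w i) := by
  classical
  -- a nonzero functional vanishing on the coordinate vectors
  let L : (Fin (k + 1) → ℂ) →ₗ[ℂ] (Fin k → ℂ) :=
    LinearMap.pi (fun i => ∑ a : Fin (k + 1), (⟪e (k, (a : ℕ)), w i⟫_ℂ) • LinearMap.proj a)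
  have hker : LinearMap.ker L ≠ ⊥ := LinearMap.ker_ne_bot_of_finrank_lt (by simp)
  obtain ⟨φ, hφ, hφ0⟩ := (Submodule.ne_bot_iff _).1 hker
  obtain ⟨a0, ha0⟩ : ∃ a, φ a ≠ 0 := by
    by_contra h
    push Not at h
    exact hφ0 (funext h)
  have hφ' : ∀ i, ∑ a : Fin (k + 1), (⟪e (k, (a : ℕ)), w i⟫_ℂ) * φ a = 0 := by
    intro i
    have := congrFun (LinearMap.mem_ker.1 hφ) i
    simpa [L] using this
  let ψ : ℕ → ℂ := fun a => if h : a < k + 1 then φ ⟨a, h⟩ else 0
  have hψ : ∀ i, ∑ a ∈ Finset.range (k + 1), (⟪e (k, a), w i⟫_ℂ) * ψ a = 0 := by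
    intro i
    rw [Finset.sum_range]
    rw [← hφ' i]
    refine Finset.sum_congr rfl (fun a _ => ?_)
    simp only [ψ, dif_pos a.2]
  have hψ0 : ψ a0 ≠ 0 := by
    simp only [ψ, dif_pos a0.2]
    exact ha0
  -- the matrix `1 - u ⊗ φ`
  let M : ℕ → ℕ → ℂ := fun a b =>
    (if a = b then 1 else 0) - (if a = (a0 : ℕ) then ((k : ℂ) + 1) / ψ a0 * ψ b else 0)
  refine ⟨∑ a ∈ Finset.range (k + 1), ∑ b ∈ Finset.range (k + 1), M a b • EE e k a b,
    matrix_mem_span k M ?_, fun i => ?_⟩
  · have h1 : ∑ a ∈ Finset.range (k + 1), M a a = ∑ a ∈ Finset.range (k + 1), (1 : ℂ) -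
        ∑ a ∈ Finset.range (k + 1), (if a = (a0 : ℕ) then ((k : ℂ) + 1) / ψ a0 * ψ a else 0) := by
      rw [← Finset.sum_sub_distrib]
      refine Finset.sum_congr rfl (fun a _ => ?_)
      simp [M]
    rw [h1, Finset.sum_ite_eq', if_pos (Finset.mem_range.2 a0.2), div_mul_cancel₀ _ hψ0]
    simp
  · have h2 : ∀ a ∈ Finset.range (k + 1),
        (∑ b ∈ Finset.range (k + 1), M a b • EE e k a b) (w i) = EE e k a a (w i) := by
      intro a ha
      rw [sum_apply]
      have h3 : ∀ b ∈ Finset.range (k + 1), (M a b • EE e k a b) (w i) =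
          (if a = b then (⟪e (k, a), w i⟫_ℂ) • e (k, a) else 0) -
          (if a = (a0 : ℕ) then ((k : ℂ) + 1) / ψ a0 else 0) • (((⟪e (k, b), w i⟫_ℂ) * ψ b) • e (k, a)) := by
        intro b _
        rw [smul_apply, EE_apply]
        by_cases hab : a = b
        · subst hab
          by_cases h4 : a = (a0 : ℕ)
          · simp only [M, if_true, if_pos h4]
            module
          · simp only [M, if_true, if_neg h4, sub_zero, one_smul, zero_smul]
        · by_cases h4 : a = (a0 : ℕ)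
          · simp only [M, if_neg hab, if_pos h4]
            module
          · simp only [M, if_neg hab, if_neg h4, sub_zero, zero_smul]
      rw [Finset.sum_congr rfl h3, Finset.sum_sub_distrib, Finset.sum_ite_eq, if_pos ha,
        ← Finset.smul_sum, ← Finset.sum_smul, hψ i, zero_smul, smul_zero, sub_zero, EE_apply]
    unfold QQ
    rw [sum_apply, sum_apply]
    exact Finset.sum_congr rfl h2

end mats

section crit

variable {H V : Type*} [NormedAddCommGroup H] [InnerProductSpace ℂ H]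
  [NormedAddCommGroup V] [InnerProductSpace ℂ V]

/-- The criterion. -/
theorem criterion {e : ℕ × ℕ → V} (he : Orthonormal ℂ e) (B : H →L[ℂ] H)
    (Xo Xi : V →L[ℂ] H) (Yo Yi : H →L[ℂ] V)
    (h1 : Yo ∘L Xo = ContinuousLinearMap.id ℂ V) (h2 : Yi ∘L Xi = ContinuousLinearMap.id ℂ V)
    (ha : ∀ t : ℕ × ℕ × ℕ, ∀ ε : ℝ, 0 < ε → ∃ p : Polynomial ℂ,
      ‖Polynomial.aeval B p - Xo ∘L (RR e t) ∘L Yi‖ < ε)
    (hb : ∀ p : Polynomial ℂ, Yo ∘L (Polynomial.aeval B p) ∘L Xi ∈
      Submodule.span ℂ (Set.range (RR e))) (k : ℕ) :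
    LatLE (ampl k B) (ampl k (Xo ∘L (QQ e k) ∘L Yi)) ∧ ¬ InW B (Xo ∘L (QQ e k) ∘L Yi) := by
  constructor
  · intro M hMc hM v hv
    have hspan : ∀ X ∈ Submodule.span ℂ (Set.range (RR e)), ampl k (Xo ∘L X ∘L Yi) v ∈ M := by
      intro X hX
      induction hX using Submodule.span_induction with
      | mem x h =>
        obtain ⟨t, rfl⟩ := h
        have hcl : ampl k (Xo ∘L (RR e t) ∘L Yi) v ∈ closure (M : Set (Fin k → H)) := by
          rw [Metric.mem_closure_iff]
          intro ε hε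
          obtain ⟨p, hp⟩ := ha t (ε / (‖v‖ + 1)) (by positivity)
          refine ⟨Polynomial.aeval (ampl k B) p v, aeval_mem hM p hv, ?_⟩
          rw [dist_eq_norm, aeval_ampl, norm_sub_rev, ← sub_apply]
          have h3 : ampl k (Polynomial.aeval B p) - ampl k (Xo ∘L (RR e t) ∘L Yi) =
              ampl k (Polynomial.aeval B p - Xo ∘L (RR e t) ∘L Yi) := by
            ext x i; rfl
          rw [h3]
          calc _ ≤ ‖Polynomial.aeval B p - Xo ∘L (RR e t) ∘L Yi‖ * ‖v‖ :=
                (ContinuousLinearMap.le_opNorm _ _).trans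
                  (mul_le_mul_of_nonneg_right (ampl_norm_le k _) (norm_nonneg _))
            _ ≤ ε / (‖v‖ + 1) * ‖v‖ := mul_le_mul_of_nonneg_right hp.le (norm_nonneg _)
            _ < ε / (‖v‖ + 1) * (‖v‖ + 1) :=
                mul_lt_mul_of_pos_left (by linarith) (by positivity)
            _ = ε := by field_simp
        rwa [hMc.closure_eq] at hcl
      | zero =>
        have : ampl k (Xo ∘L (0 : V →L[ℂ] V) ∘L Yi) v = 0 := by
          ext i; simp
        rw [this]; exact M.zero_mem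
      | add x y _ _ hx hy =>
        have : ampl k (Xo ∘L (x + y) ∘L Yi) v = ampl k (Xo ∘L x ∘L Yi) v +
            ampl k (Xo ∘L y ∘L Yi) v := by
          ext i; simp
        rw [this]; exact M.add_mem hx hy
      | smul a x _ hx =>
        have : ampl k (Xo ∘L (a • x) ∘L Yi) v = a • ampl k (Xo ∘L x ∘L Yi) v := by
          ext i; simp
        rw [this]; exact M.smul_mem _ hx
    obtain ⟨X, hX, hXw⟩ := exists_fix (e := e) k (fun i => Yi (v i))
    have h4 : ampl k (Xo ∘L (QQ e k) ∘L Yi) v = ampl k (Xo ∘L X ∘L Yi) v := by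
      ext i
      simp only [ampl_apply, ContinuousLinearMap.comp_apply]
      rw [hXw i]
    rw [h4]
    exact hspan X hX
  · intro hW
    classical
    obtain ⟨D, hD, hx⟩ := hW ((Finset.range (k + 1)).image (fun a => Xi (e (k, a))))
      (1 / (‖Yo‖ + 1)) (by positivity)
    obtain ⟨p, rfl⟩ := mem_adjoin_iff.1 hD
    have h5 := trk_span he k (hb p)
    have h6 := trk_QQ he k
    have h7 : Yo ∘L (Xo ∘L (QQ e k) ∘L Yi) ∘L Xi = QQ e k := by
      ext x
      have e1 : ∀ y, Yo (Xo y) = y := fun y => by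
        have := congrArg (fun f : V →L[ℂ] V => f y) h1
        simpa using this
      have e2 : ∀ y, Yi (Xi y) = y := fun y => by
        have := congrArg (fun f : V →L[ℂ] V => f y) h2
        simpa using this
      simp [e1, e2]
    have h8 : ‖trk e k (Yo ∘L (Xo ∘L (QQ e k) ∘L Yi) ∘L Xi) -
        trk e k (Yo ∘L (Polynomial.aeval B p) ∘L Xi)‖ < (k + 1 : ℕ) := by
      rw [← trk_sub]
      unfold trk
      refine lt_of_le_of_lt (norm_sum_le _ _) ?_
      have h9 : ∀ a ∈ Finset.range (k + 1),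
          ‖⟪e (k, a), (Yo ∘L (Xo ∘L (QQ e k) ∘L Yi) ∘L Xi - Yo ∘L (Polynomial.aeval B p) ∘L Xi)
            (e (k, a))⟫_ℂ‖ < 1 := by
        intro a ha
        have h10 : (Yo ∘L (Xo ∘L (QQ e k) ∘L Yi) ∘L Xi - Yo ∘L (Polynomial.aeval B p) ∘L Xi)
            (e (k, a)) = Yo ((Xo ∘L (QQ e k) ∘L Yi) (Xi (e (k, a))) -
              Polynomial.aeval B p (Xi (e (k, a)))) := by
          simp
        rw [h10]
        refine lt_of_le_of_lt (norm_inner_le_norm _ _) ?_
        rw [he.1, one_mul]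
        refine lt_of_le_of_lt (Yo.le_opNorm _) ?_
        have h11 := hx _ (Finset.mem_image_of_mem _ ha)
        calc _ ≤ ‖Yo‖ * (1 / (‖Yo‖ + 1)) := mul_le_mul_of_nonneg_left h11.le (norm_nonneg _)
          _ = ‖Yo‖ / (‖Yo‖ + 1) := by ring
          _ < 1 := by rw [div_lt_one (by positivity)]; linarith
      calc _ < ∑ a ∈ Finset.range (k + 1), (1 : ℝ) :=
            Finset.sum_lt_sum_of_nonempty ⟨0, by simp⟩ h9
        _ = (k + 1 : ℕ) := by simp
    rw [h7, h6, h5, sub_zero, Complex.norm_natCast] at h8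
    exact lt_irrefl _ h8

end crit

end Pool.Agent.RFX
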