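import Mathlib
import Pool.Agent.RFX.Crit

set_option autoImplicit false

/-!
# Isometries with orthogonal ranges from an orthonormal sequence
-/

namespace Pool.Agent.RFX

open scoped InnerProductSpace BigOperators
open ContinuousLinearMap

/-- the model space of the corners -/
abbrev VV : Type := lp (fun _ : ℕ × ℕ => ℂ) 2

/-- its orthonormal basis -/
noncomputable def ee (a : ℕ × ℕ) : VV := lp.single 2 a (1 : ℂ)

lemma inner_ee (a : ℕ × ℕ) (z : VV) : ⟪ee a, z⟫_ℂ = z a := by
  classical
  unfold ee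
  rw [lp.inner_single_left]
  simp

lemma ee_orthonormal : Orthonormal ℂ ee := by
  classical
  rw [orthonormal_iff_ite]
  intro a b
  rw [inner_ee]
  unfold ee
  rw [lp.single_apply, Pi.single_apply]

section fam

variable {H : Type*} [NormedAddCommGroup H] [InnerProductSpace ℂ H] [CompleteSpace H]

/-- the isometry with `ee a ↦ v a` -/
theorem exists_isom (v : ℕ × ℕ → H) (hv : Orthonormal ℂ v) :
    ∃ W : VV →L[ℂ] H, (adjoint W) ∘L W = ContinuousLinearMap.id ℂ VV ∧
      (∀ z : VV, HasSum (fun a => z a • v a) (W z)) := by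
  have hf := hv.orthogonalFamily
  refine ⟨hf.linearIsometry.toContinuousLinearMap, ?_, fun z => ?_⟩
  · ext1 z
    refine ext_inner_left ℂ (fun y => ?_)
    rw [ContinuousLinearMap.comp_apply, adjoint_inner_right]
    simp
  · have := hf.hasSum_linearIsometry z
    simpa using this

omit [CompleteSpace H] in
lemma isom_inner_zero {v : ℕ × ℕ → H} {W : VV →L[ℂ] H}
    (hW : ∀ z : VV, HasSum (fun a => z a • v a) (W z)) {y : H} (hy : ∀ a, ⟪y, v a⟫_ℂ = 0)
    (z : VV) : ⟪y, W z⟫_ℂ = 0 := by
  have h1 := (innerSL ℂ y).hasSum (hW z)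
  have h2 : (fun a => (innerSL ℂ y) (z a • v a)) = fun _ => 0 := by
    funext a
    rw [map_smul, innerSL_apply_apply, hy, smul_zero]
  rw [h2] at h1
  exact h1.unique hasSum_zero

theorem exists_fam (x : ℕ → H) (hx : Orthonormal ℂ x) :
    ∃ (U : ℕ → VV →L[ℂ] H) (Uo : VV →L[ℂ] H),
      (∀ i, (adjoint (U i)) ∘L (U i) = ContinuousLinearMap.id ℂ VV) ∧
      (∀ i j, i ≠ j → (adjoint (U i)) ∘L (U j) = 0) ∧
      ((adjoint Uo) ∘L Uo = ContinuousLinearMap.id ℂ VV) ∧
      (∀ i, (adjoint (U i)) ∘L Uo = 0) ∧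
      (∀ P : H →L[ℂ] H, (∀ n, P (x n) = x n) → (∀ i, P ∘L U i = U i) ∧ P ∘L Uo = Uo) := by
  classical
  let σ : Option ℕ × (ℕ × ℕ) ≃ ℕ := Denumerable.eqv _
  let v : Option ℕ → ℕ × ℕ → H := fun i a => x (σ (i, a))
  have hv : ∀ i, Orthonormal ℂ (v i) := by
    intro i
    refine hx.comp _ (fun a b hab => ?_)
    have := σ.injective hab
    exact congrArg Prod.snd this
  have hvv : ∀ i j a b, i ≠ j → ⟪v i a, v j b⟫_ℂ = 0 := by
    intro i j a b hij
    refine hx.2 (fun h => hij ?_)
    exact congrArg Prod.fst (σ.injective h)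
  choose W hW1 hW2 using fun i => exists_isom (v i) (hv i)
  have horth : ∀ i j, i ≠ j → (adjoint (W i)) ∘L (W j) = 0 := by
    intro i j hij
    ext1 z
    refine ext_inner_left ℂ (fun y => ?_)
    rw [ContinuousLinearMap.comp_apply, adjoint_inner_right, zero_apply, inner_zero_right]
    refine isom_inner_zero (hW2 j) (fun b => ?_) z
    rw [← inner_conj_symm, isom_inner_zero (hW2 i) (fun a => hvv j i b a (Ne.symm hij)) y,
      map_zero]
  have hP : ∀ P : H →L[ℂ] H, (∀ n, P (x n) = x n) → ∀ i, P ∘L W i = W i := by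
    intro P hP i
    ext1 z
    have h1 := P.hasSum (hW2 i z)
    have h2 : (fun a => P (z a • v i a)) = fun a => z a • v i a := by
      funext a
      rw [map_smul, hP]
    rw [h2] at h1
    exact h1.unique (hW2 i z)
  exact ⟨fun i => W (some i), W none, fun i => hW1 _, fun i j hij => horth _ _ (by simpa using hij),
    hW1 _, fun i => horth _ _ (by simp), fun P hPx => ⟨fun i => hP P hPx _, hP P hPx _⟩⟩

end fam

/-! ### the enumeration and the operator `D` -/

/-- an enumeration of the triples, each of them infinitely often -/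
def idx (n : ℕ) : ℕ × ℕ × ℕ :=
  (n.unpair.1.unpair.1, n.unpair.1.unpair.2.unpair.1, n.unpair.1.unpair.2.unpair.2)

lemma idx_fst_le (n : ℕ) : (idx n).1 ≤ n :=
  (Nat.unpair_left_le _).trans (Nat.unpair_left_le _)

lemma exists_idx (t : ℕ × ℕ × ℕ) (N : ℕ) : ∃ n, N ≤ n ∧ idx n = t := by
  refine ⟨Nat.pair (Nat.pair t.1 (Nat.pair t.2.1 t.2.2)) N, Nat.right_le_pair _ _, ?_⟩
  unfold idx
  simp

lemma norm_QQ_le (k : ℕ) : ‖QQ ee k‖ ≤ (k : ℝ) + 1 := by
  unfold QQ
  refine (norm_sum_le _ _).trans ?_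
  calc _ ≤ ∑ a ∈ Finset.range (k + 1), (1 : ℝ) :=
        Finset.sum_le_sum (fun a _ => norm_EE_le ee_orthonormal k a a)
    _ = _ := by simp

/-- the eigenvalues of `D` -/
noncomputable def dd (k : ℕ) : ℝ := (1 / 2 : ℝ) ^ (2 * k + 2)

lemma exists_D : ∃ D : VV →L[ℂ] VV, ‖D‖ ≤ 1 ∧ IsCompactOperator D ∧
    ∀ t, RR ee t ∘L D = (dd t.1 : ℂ) • RR ee t := by
  have hb : ∀ k : ℕ, ‖(dd k : ℂ) • QQ ee k‖ ≤ (1 / 4 : ℝ) * (1 / 2 : ℝ) ^ k := by
    intro k
    rw [norm_smul, Complex.norm_real, Real.norm_of_nonneg (by unfold dd; positivity)]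
    have h1 : ((k : ℝ) + 1) ≤ 2 ^ k := by
      have : k + 1 ≤ 2 ^ k := Nat.lt_two_pow_self
      exact_mod_cast this
    have h2 : dd k = (1 / 4 : ℝ) * (1 / 2 : ℝ) ^ k * (1 / 2 : ℝ) ^ k := by
      unfold dd
      rw [pow_add, mul_comm 2 k, pow_mul, mul_assoc, ← mul_pow, ← sq]
      norm_num
      ring
    calc dd k * ‖QQ ee k‖ ≤ dd k * 2 ^ k :=
          mul_le_mul_of_nonneg_left ((norm_QQ_le k).trans h1) (by unfold dd; positivity)
      _ = (1 / 4 : ℝ) * (1 / 2 : ℝ) ^ k * ((1 / 2 : ℝ) ^ k * 2 ^ k) := by rw [h2]; ring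
      _ = _ := by rw [← mul_pow]; norm_num
  have hg : HasSum (fun k : ℕ => (1 / 4 : ℝ) * (1 / 2 : ℝ) ^ k) (1 / 4 * 2) :=
    hasSum_geometric_two.mul_left _
  have hs : Summable (fun k : ℕ => (dd k : ℂ) • QQ ee k) :=
    Summable.of_norm_bounded hg.summable hb
  obtain ⟨D, hD⟩ := hs
  refine ⟨D, ?_, ?_, fun t => ?_⟩
  · rw [← hD.tsum_eq]
    exact (tsum_of_norm_bounded hg hb).trans (by norm_num)
  · have hclosed : IsClosed {f : VV →L[ℂ] VV | IsCompactOperator f} :=
      isClosed_setOfPred_isCompactOperator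
    refine hclosed.mem_of_tendsto hD.tendsto_sum_nat (Filter.Eventually.of_forall (fun N => ?_))
    show IsCompactOperator ((∑ n ∈ Finset.range N, (dd n : ℂ) • QQ ee n : VV →L[ℂ] VV) : VV → VV)
    have h1 : ∀ k a, IsCompactOperator (EE ee k a a) := by
      intro k a
      have h2 : EE ee k a a = (ContinuousLinearMap.toSpanSingleton ℂ (ee (k, a))) ∘L
          (innerSL ℂ (ee (k, a))) := by
        ext1 z; rfl
      rw [h2]
      exact IsCompactOperator.clm_comp (isCompactOperator_of_locallyCompactSpace_dom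
        (innerSL ℂ (ee (k, a)) : VV →L[ℂ] ℂ)) (ContinuousLinearMap.toSpanSingleton ℂ (ee (k, a)))
    have h3 : ∀ k, IsCompactOperator (QQ ee k) := by
      intro k
      unfold QQ
      induction Finset.range (k + 1) using Finset.induction_on with
      | empty => simpa using isCompactOperator_zero
      | insert a s ha ih =>
        rw [Finset.sum_insert ha]
        exact IsCompactOperator.add (h1 k a) ih
    induction N with
    | zero => simpa using isCompactOperator_zero
    | succ N ih =>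
      rw [Finset.sum_range_succ]
      exact IsCompactOperator.add ih (IsCompactOperator.smul (h3 N) _)
  · have hE : ∀ k a b, b ≤ k → EE ee k a b ∘L D = (dd k : ℂ) • EE ee k a b := by
      intro k a b hbk
      ext1 z
      rw [ContinuousLinearMap.comp_apply, smul_apply, EE_apply, EE_apply, smul_smul]
      congr 1
      have h1 : HasSum (fun j => ((innerSL ℂ (ee (k, b))) ∘L
          (ContinuousLinearMap.apply ℂ VV z)) ((dd j : ℂ) • QQ ee j)) (⟪ee (k, b), D z⟫_ℂ) :=
        ((innerSL ℂ (ee (k, b))) ∘L (ContinuousLinearMap.apply ℂ VV z)).hasSum hD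
      have h2 : HasSum (fun j => ((innerSL ℂ (ee (k, b))) ∘L
          (ContinuousLinearMap.apply ℂ VV z)) ((dd j : ℂ) • QQ ee j))
          ((dd k : ℂ) * ⟪ee (k, b), z⟫_ℂ) := by
        have h3 : HasSum (fun j => if j = k then (dd k : ℂ) * ⟪ee (k, b), z⟫_ℂ else 0)
          ((dd k : ℂ) * ⟪ee (k, b), z⟫_ℂ) := hasSum_ite_eq k _
        convert h3 using 2 with j
        rw [ContinuousLinearMap.comp_apply, ContinuousLinearMap.apply_apply, innerSL_apply_apply,
          smul_apply, inner_smul_right]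
        unfold QQ
        rw [sum_apply, inner_sum]
        have h4 : ∀ a ∈ Finset.range (j + 1), ⟪ee (k, b), EE ee j a a z⟫_ℂ =
            if a = b then (if j = k then ⟪ee (k, b), z⟫_ℂ else 0) else 0 := by
          intro a _
          rw [EE_apply, inner_smul_right, orthonormal_iff_ite.1 ee_orthonormal]
          by_cases hab : a = b
          · subst hab
            by_cases hj : j = k
            · subst hj; simp
            · rw [if_neg (fun h => hj (congrArg Prod.fst h).symm)]; simp [hj]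
          · rw [if_neg (fun h => hab (congrArg Prod.snd h).symm)]; simp [hab]
        rw [Finset.sum_congr rfl h4, Finset.sum_ite_eq']
        by_cases hj : j = k
        · subst hj
          simp [hbk]
        · simp [hj]
      exact h1.unique h2
    unfold RR
    split_ifs with h1 h2
    · rw [ContinuousLinearMap.sub_comp, hE _ _ _ h1.1, hE _ _ _ (Nat.zero_le _), smul_sub]
    · exact hE _ _ _ h1.2
    · simp

end Pool.Agent.RFX
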