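import Mathlib

set_option autoImplicit false

/-!
# The universal quasinilpotent operator

Given isometries `U n`, `Uo` with mutually orthogonal ranges and operators `R n`, an operator `T`
such that `T ^ (n+1) / c n` is very close to the corner `Uo (R n) (U 0)†`.
-/

namespace Pool.Agent.RFX

open scoped BigOperators

/-- the products of the weights -/
noncomputable def Om : ℕ → ℝ
  | 0 => 1
  | (n + 1) => ((1 / 2 : ℝ) ^ ((n + 1) * (2 * n + 1)) * Om n) ^ (n + 2)

/-- the weights -/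
noncomputable def om (n : ℕ) : ℝ := ((1 / 2 : ℝ) ^ ((n + 1) * (2 * n + 1))) ^ (n + 2) * Om n ^ (n + 1)

lemma Om_succ (n : ℕ) : Om (n + 1) = om n * Om n := by
  show ((1 / 2 : ℝ) ^ ((n + 1) * (2 * n + 1)) * Om n) ^ (n + 2) = _
  rw [om, mul_pow, pow_succ (Om n) (n + 1)]
  ring

lemma Om_pos (n : ℕ) : 0 < Om n := by
  induction n with
  | zero => exact one_pos
  | succ n ih =>
    show 0 < ((1 / 2 : ℝ) ^ ((n + 1) * (2 * n + 1)) * Om n) ^ (n + 2)
    positivity

lemma half_pow_le_one (n : ℕ) : (1 / 2 : ℝ) ^ n ≤ 1 := pow_le_one₀ (by norm_num) (by norm_num)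

lemma Om_le_one (n : ℕ) : Om n ≤ 1 := by
  induction n with
  | zero => exact le_refl _
  | succ n ih =>
    show ((1 / 2 : ℝ) ^ ((n + 1) * (2 * n + 1)) * Om n) ^ (n + 2) ≤ 1
    have h := Om_pos n
    exact pow_le_one₀ (by positivity) (mul_le_one₀ (half_pow_le_one _) h.le ih)

lemma om_pos (n : ℕ) : 0 < om n := by
  have := Om_pos n
  unfold om
  positivity

lemma om_le (n : ℕ) : om n ≤ (1 / 2 : ℝ) ^ (n + 1) := by
  unfold om
  have h1 : Om n ^ (n + 1) ≤ 1 := pow_le_one₀ (Om_pos n).le (Om_le_one n)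
  have h2 : ((1 / 2 : ℝ) ^ ((n + 1) * (2 * n + 1))) ^ (n + 2) ≤ (1 / 2 : ℝ) ^ (n + 1) := by
    rw [← pow_mul]
    refine pow_le_pow_of_le_one (by norm_num) (by norm_num) ?_
    calc n + 1 = (n + 1) * 1 * 1 := by ring
      _ ≤ (n + 1) * (2 * n + 1) * (n + 2) :=
          Nat.mul_le_mul (Nat.mul_le_mul le_rfl (by omega)) (by omega)
  calc _ ≤ (1 / 2 : ℝ) ^ (n + 1) * 1 :=
        mul_le_mul h2 h1 (pow_nonneg (Om_pos n).le _) (by positivity)
    _ = _ := mul_one _

lemma om_le_one (n : ℕ) : om n ≤ 1 := (om_le n).trans (half_pow_le_one _)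

lemma Om_succ_le (n : ℕ) : Om (n + 1) ≤ Om n := by
  rw [Om_succ]
  exact mul_le_of_le_one_left (Om_pos n).le (om_le_one n)

lemma om_succ_le (n : ℕ) : om (n + 1) ≤ om n := by
  unfold om
  have h1 : ((1 / 2 : ℝ) ^ ((n + 1 + 1) * (2 * (n + 1) + 1))) ^ (n + 1 + 2) ≤
      ((1 / 2 : ℝ) ^ ((n + 1) * (2 * n + 1))) ^ (n + 2) := by
    rw [← pow_mul, ← pow_mul]
    refine pow_le_pow_of_le_one (by norm_num) (by norm_num) ?_
    gcongr <;> omega
  have h2 : Om (n + 1) ^ (n + 1 + 1) ≤ Om n ^ (n + 1) := by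
    calc Om (n + 1) ^ (n + 1 + 1) ≤ Om n ^ (n + 1 + 1) :=
          pow_le_pow_left₀ (Om_pos _).le (Om_succ_le n) _
      _ ≤ Om n ^ (n + 1) := pow_le_pow_of_le_one (Om_pos n).le (Om_le_one n) (by omega)
  exact mul_le_mul h1 h2 (pow_nonneg (Om_pos _).le _) (by positivity)

lemma om_antitone : Antitone om := antitone_nat_of_succ_le om_succ_le

lemma prod_om (m : ℕ) : ∏ i ∈ Finset.range m, om i = Om m := by
  induction m with
  | zero => simp [Om]
  | succ m ih => rw [Finset.prod_range_succ, ih, Om_succ, mul_comm]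

lemma Om_one : Om 1 = 1 / 4 := by
  show ((1 / 2 : ℝ) ^ ((0 + 1) * (2 * 0 + 1)) * Om 0) ^ (0 + 2) = 1 / 4
  have : Om 0 = 1 := rfl
  rw [this]; norm_num

lemma prod_om_one (m : ℕ) : ∏ i ∈ Finset.range m, om (1 + i) = 4 * Om (m + 1) := by
  have h := prod_om (m + 1)
  rw [Finset.prod_range_succ'] at h
  have h0 : om 0 = 1 / 4 := by
    have h1 := Om_succ 0
    have h2 : Om 0 = 1 := rfl
    rw [zero_add, Om_one, h2, mul_one] at h1
    exact h1.symm
  rw [h0] at h
  have h3 : ∏ i ∈ Finset.range m, om (1 + i) = ∏ i ∈ Finset.range m, om (i + 1) :=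
    Finset.prod_congr rfl (fun i _ => by rw [add_comm])
  rw [h3]
  linarith

lemma prod_om_le (n m : ℕ) :
    ∏ i ∈ Finset.range m, om (n + 1 + i) ≤ 4 * Om (m + 1) := by
  rw [← prod_om_one]
  refine Finset.prod_le_prod (fun i _ => (om_pos _).le) (fun i _ => om_antitone (by omega))

section oper

open ContinuousLinearMap

variable {H V : Type*} [NormedAddCommGroup H] [InnerProductSpace ℂ H] [CompleteSpace H]
  [NormedAddCommGroup V] [InnerProductSpace ℂ V] [CompleteSpace V]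

/-- images of the chain isometries -/
noncomputable def Gn (U : ℕ → V →L[ℂ] H) (Uo : V →L[ℂ] H) (R : ℕ → V →L[ℂ] V) (D : V →L[ℂ] V)
    (n : ℕ) : V →L[ℂ] H :=
  (om n : ℂ) • (U (n + 1) ∘L D) + ((1 / 2 : ℝ) ^ (n + 1) : ℂ) • (Uo ∘L R n)

theorem exists_univ (U : ℕ → V →L[ℂ] H) (Uo : V →L[ℂ] H) (R : ℕ → V →L[ℂ] V) (D : V →L[ℂ] V)
    (d : ℕ → ℝ)
    (hU : ∀ i, (adjoint (U i)) ∘L (U i) = ContinuousLinearMap.id ℂ V)
    (hU' : ∀ i j, i ≠ j → (adjoint (U i)) ∘L (U j) = 0)
    (hUo : (adjoint Uo) ∘L Uo = ContinuousLinearMap.id ℂ V)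
    (hUo' : ∀ i, (adjoint (U i)) ∘L Uo = 0)
    (hR : ∀ n, ‖R n‖ ≤ 2) (hD : ‖D‖ ≤ 1)
    (hd : ∀ n, (1 / 2 : ℝ) ^ (2 * n + 2) ≤ d n) (hd1 : ∀ n, d n ≤ 1)
    (hRD : ∀ n, R n ∘L D = (d n : ℂ) • R n) :
    ∃ (T : H →L[ℂ] H) (c : ℕ → ℝ),
      (∀ n, 0 < c n) ∧ (∀ n, c n ≤ (1 / 2 : ℝ) ^ (n + 1)) ∧
      (∀ n, ‖T ^ (n + 1) - (c n : ℂ) • (Uo ∘L (R n) ∘L (adjoint (U 0)))‖ ≤ 9 * c n ^ (n + 2)) ∧
      (∀ n, ‖T ^ (n + 2)‖ ≤ 9 * c n ^ (n + 2)) ∧
      (∀ n, (adjoint Uo) ∘L (T ^ (n + 1)) ∘L (U 0) = (c n : ℂ) • R n) ∧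
      (adjoint (U 0)) ∘L T = 0 ∧ T ∘L Uo = 0 ∧
      (∀ P : H →L[ℂ] H, (∀ n, P ∘L U n = U n) → P ∘L Uo = Uo → P ∘L T = T) ∧
      (∀ P : H →L[ℂ] H, (∀ n, (adjoint (U n)) ∘L P = adjoint (U n)) → T ∘L P = T) ∧
      (IsCompactOperator D → (∀ n, IsCompactOperator (R n)) → IsCompactOperator T) := by
  set G := Gn U Uo R D with hG
  have hnU : ∀ n, ‖U n‖ ≤ 1 := by
    intro n
    have h1 : ‖(adjoint (U n)) ∘L (U n)‖ = ‖U n‖ * ‖U n‖ := ContinuousLinearMap.norm_adjoint_comp_self _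
    rw [hU] at h1
    have h2 : ‖ContinuousLinearMap.id ℂ V‖ ≤ 1 := ContinuousLinearMap.norm_id_le
    nlinarith [norm_nonneg (U n)]
  have hnUo : ‖Uo‖ ≤ 1 := by
    have h1 : ‖(adjoint Uo) ∘L Uo‖ = ‖Uo‖ * ‖Uo‖ := ContinuousLinearMap.norm_adjoint_comp_self _
    rw [hUo] at h1
    have h2 : ‖ContinuousLinearMap.id ℂ V‖ ≤ 1 := ContinuousLinearMap.norm_id_le
    nlinarith [norm_nonneg Uo]
  have hnUa : ∀ n, ‖adjoint (U n)‖ ≤ 1 := by
    intro n
    rw [LinearIsometryEquiv.norm_map]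
    exact hnU n
  have hUoU : ∀ n, (adjoint Uo) ∘L (U n) = 0 := by
    intro n
    have := congrArg adjoint (hUo' n)
    rw [ContinuousLinearMap.adjoint_comp, adjoint_adjoint, map_zero] at this
    exact this
  have hnG : ∀ n, ‖G n‖ ≤ 3 * (1 / 2 : ℝ) ^ (n + 1) := by
    intro n
    rw [hG]
    unfold Gn
    refine (norm_add_le _ _).trans ?_
    rw [norm_smul, norm_smul]
    have h1 : ‖U (n + 1) ∘L D‖ ≤ 1 := (opNorm_comp_le _ _).trans
      (mul_le_one₀ (hnU _) (norm_nonneg _) hD)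
    have h2 : ‖Uo ∘L R n‖ ≤ 2 := (opNorm_comp_le _ _).trans
      ((mul_le_mul hnUo (hR n) (norm_nonneg _) zero_le_one).trans (by norm_num))
    have h3 : ‖(om n : ℂ)‖ ≤ (1 / 2 : ℝ) ^ (n + 1) := by
      rw [Complex.norm_real, Real.norm_of_nonneg (om_pos n).le]
      exact om_le n
    have h4 : ‖(((1 / 2 : ℝ) : ℂ) ^ (n + 1))‖ = (1 / 2 : ℝ) ^ (n + 1) := by
      rw [norm_pow, Complex.norm_real, Real.norm_of_nonneg (by norm_num)]
    rw [h4]
    have h5 : 0 ≤ (1 / 2 : ℝ) ^ (n + 1) := by positivity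
    nlinarith [norm_nonneg (om n : ℂ), norm_nonneg (U (n + 1) ∘L D), norm_nonneg (Uo ∘L R n)]
  have hsum : Summable (fun n => G n ∘L adjoint (U n)) := by
    refine Summable.of_norm_bounded (g := fun n : ℕ => 3 * (1 / 2 : ℝ) ^ (n + 1)) ?_ (fun n => ?_)
    · exact ((summable_geometric_two).comp_injective (add_left_injective 1)).mul_left 3
    · refine (opNorm_comp_le _ _).trans ?_
      calc _ ≤ 3 * (1 / 2 : ℝ) ^ (n + 1) * 1 :=
            mul_le_mul (hnG n) (hnUa n) (norm_nonneg _) (by positivity)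
        _ = _ := mul_one _
  obtain ⟨T, hT⟩ := hsum
  -- composition with `T` on the left/right
  have hTr : ∀ (X : V →L[ℂ] H),
      HasSum (fun n => (G n ∘L adjoint (U n)) ∘L X) (T ∘L X) := by
    intro X
    exact (((ContinuousLinearMap.compL ℂ V H H).flip X).hasSum hT)
  have hTrH : ∀ (X : H →L[ℂ] H),
      HasSum (fun n => (G n ∘L adjoint (U n)) ∘L X) (T ∘L X) := by
    intro X
    exact (((ContinuousLinearMap.compL ℂ H H H).flip X).hasSum hT)
  have hTl : ∀ (X : H →L[ℂ] H),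
      HasSum (fun n => X ∘L (G n ∘L adjoint (U n))) (X ∘L T) := by
    intro X
    exact ((ContinuousLinearMap.compL ℂ H H H X).hasSum hT)
  have hTlV : ∀ (X : H →L[ℂ] V),
      HasSum (fun n => X ∘L (G n ∘L adjoint (U n))) (X ∘L T) := by
    intro X
    exact ((ContinuousLinearMap.compL ℂ H H V X).hasSum hT)
  have hTU : ∀ n, T ∘L (U n) = G n := by
    intro n
    have h1 := hTr (U n)
    have h2 : HasSum (fun i => (G i ∘L adjoint (U i)) ∘L (U n)) (G n) := by
      have h3 : HasSum (fun i => if i = n then G n else 0) (G n) := hasSum_ite_eq n (G n)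
      convert h3 using 2 with i
      by_cases hi : i = n
      · subst hi
        rw [if_pos rfl, ContinuousLinearMap.comp_assoc, hU, ContinuousLinearMap.comp_id]
      · rw [if_neg hi, ContinuousLinearMap.comp_assoc, hU' i n hi, ContinuousLinearMap.comp_zero]
    exact h1.unique h2
  have hTUo : T ∘L Uo = 0 := by
    have h1 := hTr Uo
    have h2 : (fun i => (G i ∘L adjoint (U i)) ∘L Uo) = fun _ => 0 := by
      funext i
      rw [ContinuousLinearMap.comp_assoc, hUo' i, ContinuousLinearMap.comp_zero]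
    rw [h2] at h1
    exact h1.unique hasSum_zero
  have hGn : ∀ n, G n = (om n : ℂ) • (U (n + 1) ∘L D) +
      ((1 / 2 : ℝ) ^ (n + 1) : ℂ) • (Uo ∘L R n) := fun n => rfl
  -- powers on the chain
  have hTpow : ∀ m n, (T ^ (m + 1)) ∘L (U n) =
      ((∏ i ∈ Finset.range m, om (n + i) : ℝ) : ℂ) • (G (n + m) ∘L (D ^ m)) := by
    intro m
    induction m with
    | zero => intro n; simp [hTU, ContinuousLinearMap.one_def]
    | succ m ih =>
      intro n
      have h1 : (T ^ (m + 1 + 1)) ∘L (U n) = T ∘L ((T ^ (m + 1)) ∘L (U n)) := by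
        rw [pow_succ' T (m + 1)]; rfl
      rw [h1, ih n, ContinuousLinearMap.comp_smul, ← ContinuousLinearMap.comp_assoc]
      have h2 : T ∘L G (n + m) = (om (n + m) : ℂ) • (G (n + m + 1) ∘L D) := by
        rw [hGn (n + m), ContinuousLinearMap.comp_add, ContinuousLinearMap.comp_smul,
          ContinuousLinearMap.comp_smul, ← ContinuousLinearMap.comp_assoc,
          ← ContinuousLinearMap.comp_assoc, hTU, hTUo, ContinuousLinearMap.zero_comp, smul_zero,
          add_zero]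
      rw [h2, ContinuousLinearMap.smul_comp, smul_smul, Finset.prod_range_succ,
        ContinuousLinearMap.comp_assoc]
      have h3 : D ∘L (D ^ m) = D ^ (m + 1) := by rw [pow_succ']; rfl
      rw [h3, add_assoc]
      push_cast
      rfl
  have hDpow : ∀ m, ‖D ^ m‖ ≤ 1 := by
    intro m
    induction m with
    | zero => rw [pow_zero]; exact ContinuousLinearMap.norm_id_le
    | succ m ih =>
      rw [pow_succ]
      exact (norm_mul_le _ _).trans (mul_le_one₀ ih (norm_nonneg _) hD)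
  -- the constants
  set c : ℕ → ℝ := fun n => (1 / 2 : ℝ) ^ (n + 1) * Om n * d n ^ n with hc
  have hdpos : ∀ n, 0 < d n := fun n => lt_of_lt_of_le (by positivity) (hd n)
  have hcpos : ∀ n, 0 < c n := by
    intro n
    have h1 := Om_pos n
    have h2 := hdpos n
    rw [hc]; positivity
  have hcle : ∀ n, c n ≤ (1 / 2 : ℝ) ^ (n + 1) * Om n := by
    intro n
    have h1 := Om_pos n
    exact mul_le_of_le_one_right (by positivity) (pow_le_one₀ (hdpos n).le (hd1 n))
  have hcle' : ∀ n, c n ≤ (1 / 2 : ℝ) ^ (n + 1) := fun n =>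
    (hcle n).trans (mul_le_of_le_one_right (by positivity) (Om_le_one n))
  have hOmc : ∀ n, Om (n + 1) ≤ c n ^ (n + 2) := by
    intro n
    show ((1 / 2 : ℝ) ^ ((n + 1) * (2 * n + 1)) * Om n) ^ (n + 2) ≤ c n ^ (n + 2)
    have h1 := Om_pos n
    refine pow_le_pow_left₀ (by positivity) ?_ _
    have h2 : (1 / 2 : ℝ) ^ ((n + 1) * (2 * n + 1)) = (1 / 2 : ℝ) ^ (n + 1) *
        ((1 / 2 : ℝ) ^ (2 * n + 2)) ^ n := by
      rw [← pow_mul, ← pow_add]
      congr 1
      ring
    have h3 : ((1 / 2 : ℝ) ^ (2 * n + 2)) ^ n ≤ d n ^ n := pow_le_pow_left₀ (by positivity) (hd n) n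
    rw [h2, hc]
    have h4 : 0 ≤ (1 / 2 : ℝ) ^ (n + 1) * Om n := by positivity
    nlinarith [mul_le_mul_of_nonneg_left h3 h4]
  have hRDpow : ∀ n m, R n ∘L (D ^ m) = ((d n ^ m : ℝ) : ℂ) • R n := by
    intro n m
    induction m with
    | zero =>
      rw [pow_zero, pow_zero]
      simp [ContinuousLinearMap.one_def]
    | succ m ih =>
      have h1 : D ^ (m + 1) = (D ^ m) ∘L D := by rw [pow_succ]; rfl
      rw [h1, ← ContinuousLinearMap.comp_assoc, ih, ContinuousLinearMap.smul_comp, hRD n,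
        smul_smul, pow_succ]
      push_cast
      rfl
  have hTU0 : ∀ n, (T ^ (n + 1)) ∘L (U 0) = (Om (n + 1) : ℂ) • (U (n + 1) ∘L (D ^ (n + 1))) +
      (c n : ℂ) • (Uo ∘L R n) := by
    intro n
    rw [hTpow n 0]
    simp only [zero_add]
    rw [prod_om, hGn, ContinuousLinearMap.add_comp, ContinuousLinearMap.smul_comp,
      ContinuousLinearMap.smul_comp, ContinuousLinearMap.comp_assoc, ContinuousLinearMap.comp_assoc,
      hRDpow, ContinuousLinearMap.comp_smul, smul_add, smul_smul, smul_smul, smul_smul, Om_succ, hc]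
    have h3 : D ∘L (D ^ n) = D ^ (n + 1) := by rw [pow_succ']; rfl
    rw [h3]
    congr 1
    · congr 1
      push_cast; ring
    · congr 1
      push_cast; ring
  -- the sum for the powers
  have hTs : ∀ m, HasSum (fun n => ((T ^ (m + 1)) ∘L (U n)) ∘L adjoint (U n)) (T ^ (m + 1)) := by
    intro m
    have h1 := hTl (T ^ m)
    have h2 : (T ^ m) ∘L T = T ^ (m + 1) := by rw [pow_succ]; rfl
    rw [h2] at h1
    convert h1 using 2 with n
    rw [← ContinuousLinearMap.comp_assoc, ← hTU n, ← ContinuousLinearMap.comp_assoc, h2]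
  have htail : ∀ m, ‖T ^ (m + 1) - ((T ^ (m + 1)) ∘L (U 0)) ∘L adjoint (U 0)‖ ≤ 6 * Om (m + 1) := by
    intro m
    have h1 := (hasSum_nat_add_iff' 1).2 (hTs m)
    rw [Finset.sum_range_one] at h1
    rw [← h1.tsum_eq]
    have h2 : HasSum (fun n : ℕ => (12 * Om (m + 1) * (1 / 2 : ℝ) ^ 2) * (1 / 2 : ℝ) ^ n)
        ((12 * Om (m + 1) * (1 / 2 : ℝ) ^ 2) * 2) := hasSum_geometric_two.mul_left _
    have h3 := tsum_of_norm_bounded h2 (f := fun n => ((T ^ (m + 1)) ∘L (U (n + 1))) ∘L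
      adjoint (U (n + 1))) (fun n => by
        refine (opNorm_comp_le _ _).trans ?_
        rw [hTpow, norm_smul, Complex.norm_real, Real.norm_of_nonneg
          (Finset.prod_nonneg (fun i _ => (om_pos _).le))]
        have h4 := prod_om_le n m
        have h5 : ‖G (n + 1 + m) ∘L (D ^ m)‖ ≤ 3 * (1 / 2 : ℝ) ^ (n + 1 + m + 1) :=
          (opNorm_comp_le _ _).trans ((mul_le_mul (hnG _) (hDpow m) (norm_nonneg _)
            (by positivity)).trans (mul_one _).le)
        have h6 : (1 / 2 : ℝ) ^ (n + 1 + m + 1) ≤ (1 / 2 : ℝ) ^ 2 * (1 / 2 : ℝ) ^ n := by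
          rw [← pow_add]
          exact pow_le_pow_of_le_one (by norm_num) (by norm_num) (by omega)
        have h7 := (Om_pos (m + 1)).le
        calc (∏ i ∈ Finset.range m, om (n + 1 + i)) * ‖G (n + 1 + m) ∘L (D ^ m)‖ *
              ‖adjoint (U (n + 1))‖
            ≤ (4 * Om (m + 1)) * (3 * ((1 / 2 : ℝ) ^ 2 * (1 / 2 : ℝ) ^ n)) * 1 := by
              refine mul_le_mul ?_ (hnUa _) (norm_nonneg _) (by positivity)
              exact mul_le_mul h4 (h5.trans (mul_le_mul_of_nonneg_left h6 (by norm_num)))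
                (norm_nonneg _) (by positivity)
          _ = _ := by ring)
    refine h3.trans (le_of_eq ?_)
    ring
  have hmain : ∀ n, ‖T ^ (n + 1) - (c n : ℂ) • (Uo ∘L (R n) ∘L (adjoint (U 0)))‖ ≤
      7 * Om (n + 1) := by
    intro n
    have h1 : T ^ (n + 1) - (c n : ℂ) • (Uo ∘L (R n) ∘L (adjoint (U 0))) =
        (T ^ (n + 1) - ((T ^ (n + 1)) ∘L (U 0)) ∘L adjoint (U 0)) +
        (Om (n + 1) : ℂ) • ((U (n + 1) ∘L (D ^ (n + 1))) ∘L adjoint (U 0)) := by
      rw [hTU0, ContinuousLinearMap.add_comp, ContinuousLinearMap.smul_comp,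
        ContinuousLinearMap.smul_comp, ContinuousLinearMap.comp_assoc Uo]
      abel
    rw [h1]
    refine (norm_add_le _ _).trans ?_
    rw [norm_smul, Complex.norm_real, Real.norm_of_nonneg (Om_pos _).le]
    have h2 : ‖(U (n + 1) ∘L (D ^ (n + 1))) ∘L adjoint (U 0)‖ ≤ 1 :=
      (opNorm_comp_le _ _).trans (mul_le_one₀ ((opNorm_comp_le _ _).trans
        (mul_le_one₀ (hnU _) (norm_nonneg _) (hDpow _))) (norm_nonneg _) (hnUa 0))
    have h3 := htail n
    have h4 := (Om_pos (n + 1)).le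
    nlinarith
  refine ⟨T, c, hcpos, hcle', fun n => ?_, fun n => ?_, fun n => ?_, ?_, hTUo, ?_, ?_, ?_⟩
  · have h1 := hmain n
    have h2 := hOmc n
    have h3 := Om_pos (n + 1)
    linarith
  · have h1 := hmain (n + 1)
    have h2 := hOmc n
    have h3 : ‖(c (n + 1) : ℂ) • (Uo ∘L (R (n + 1)) ∘L (adjoint (U 0)))‖ ≤ 2 * Om (n + 1) := by
      rw [norm_smul, Complex.norm_real, Real.norm_of_nonneg (hcpos _).le]
      have h4 : ‖Uo ∘L (R (n + 1)) ∘L (adjoint (U 0))‖ ≤ 2 := by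
        refine (opNorm_comp_le _ _).trans ?_
        have h5 : ‖(R (n + 1)) ∘L (adjoint (U 0))‖ ≤ 2 * 1 := (opNorm_comp_le _ _).trans
          (mul_le_mul (hR _) (hnUa 0) (norm_nonneg _) (by norm_num))
        calc _ ≤ 1 * (2 * 1) := mul_le_mul hnUo h5 (norm_nonneg _) zero_le_one
          _ = 2 := by norm_num
      have h6 : c (n + 1) ≤ Om (n + 1) := (hcle (n + 1)).trans
        (mul_le_of_le_one_left (Om_pos _).le (half_pow_le_one _))
      calc _ ≤ Om (n + 1) * 2 := mul_le_mul h6 h4 (norm_nonneg _) (Om_pos _).le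
        _ = _ := by ring
    have h7 : T ^ (n + 2) = (T ^ (n + 1 + 1) - (c (n + 1) : ℂ) •
        (Uo ∘L (R (n + 1)) ∘L (adjoint (U 0)))) + (c (n + 1) : ℂ) •
        (Uo ∘L (R (n + 1)) ∘L (adjoint (U 0))) := by
      rw [sub_add_cancel]
    rw [h7]
    refine (norm_add_le _ _).trans ?_
    have h8 := Om_succ_le (n + 1)
    linarith
  · rw [hTU0, ContinuousLinearMap.comp_add, ContinuousLinearMap.comp_smul,
      ContinuousLinearMap.comp_smul, ← ContinuousLinearMap.comp_assoc,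
      ← ContinuousLinearMap.comp_assoc, hUoU, hUo, ContinuousLinearMap.zero_comp, smul_zero,
      zero_add, ContinuousLinearMap.id_comp]
  · have h1 := hTlV (adjoint (U 0))
    have h2 : (fun n => (adjoint (U 0)) ∘L (G n ∘L adjoint (U n))) = fun _ => 0 := by
      funext n
      rw [← ContinuousLinearMap.comp_assoc, hGn, ContinuousLinearMap.comp_add,
        ContinuousLinearMap.comp_smul, ContinuousLinearMap.comp_smul,
        ← ContinuousLinearMap.comp_assoc, ← ContinuousLinearMap.comp_assoc,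
        hU' 0 (n + 1) (by omega), hUo' 0, ContinuousLinearMap.zero_comp,
        ContinuousLinearMap.zero_comp, smul_zero, smul_zero, add_zero,
        ContinuousLinearMap.zero_comp]
    rw [h2] at h1
    exact h1.unique hasSum_zero
  · intro P hP hPo
    have h1 := hTl P
    have h2 : (fun n => P ∘L (G n ∘L adjoint (U n))) = fun n => G n ∘L adjoint (U n) := by
      funext n
      rw [← ContinuousLinearMap.comp_assoc, hGn, ContinuousLinearMap.comp_add,
        ContinuousLinearMap.comp_smul, ContinuousLinearMap.comp_smul,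
        ← ContinuousLinearMap.comp_assoc, ← ContinuousLinearMap.comp_assoc, hP, hPo]
    rw [h2] at h1
    exact h1.unique hT
  · intro P hP
    have h1 := hTrH P
    have h2 : (fun n => (G n ∘L adjoint (U n)) ∘L P) = fun n => G n ∘L adjoint (U n) := by
      funext n
      rw [ContinuousLinearMap.comp_assoc, hP]
    rw [h2] at h1
    exact h1.unique hT
  · intro hDc hRc
    have hclosed : IsClosed {f : H →L[ℂ] H | IsCompactOperator f} :=
      isClosed_setOfPred_isCompactOperator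
    refine hclosed.mem_of_tendsto hT.tendsto_sum_nat (Filter.Eventually.of_forall (fun N => ?_))
    show IsCompactOperator ((∑ n ∈ Finset.range N, G n ∘L adjoint (U n) : H →L[ℂ] H) : H → H)
    have h3 : ∀ n, IsCompactOperator (G n ∘L adjoint (U n)) := by
      intro n
      have h4 : IsCompactOperator (G n) := by
        rw [hGn]
        refine IsCompactOperator.add ?_ ?_
        · exact IsCompactOperator.smul (IsCompactOperator.clm_comp hDc (U (n + 1))) _
        · exact IsCompactOperator.smul (IsCompactOperator.clm_comp (hRc n) Uo) _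
      exact IsCompactOperator.comp_clm h4 (adjoint (U n))
    induction N with
    | zero => simpa using isCompactOperator_zero
    | succ N ih =>
      rw [Finset.sum_range_succ]
      exact IsCompactOperator.add ih (h3 N)

end oper

end Pool.Agent.RFX
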