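import Mathlib
import Pool.Agent.RFX.Crit
import Pool.Agent.RFX.Univ
import Pool.Agent.RFX.Fam

set_option autoImplicit false

/-!
# The counterexample near `A (1 - P) + μ P`
-/

namespace Pool.Agent.RFX

open scoped InnerProductSpace BigOperators
open ContinuousLinearMap

lemma comm_aeval {R : Type*} [Ring R] [Algebra ℂ R] {a b : R} (h : Commute a b)
    (p : Polynomial ℂ) : Commute (Polynomial.aeval a p) b := by
  induction p using Polynomial.induction_on' with
  | add p q hp hq => rw [map_add]; exact hp.add_left hq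
  | monomial n c =>
    rw [Polynomial.aeval_monomial]
    exact (show Commute (algebraMap ℂ R c) b from Algebra.commutes c b).mul_left (h.pow_left n)

lemma choose_exp (c : ℕ → ℝ) (hc : ∀ n, 0 < c n) (hc' : ∀ n, c n ≤ (1 / 2 : ℝ) ^ (n + 1))
    {K θ M ε : ℝ} (hK : 0 ≤ K) (hθ : 0 ≤ θ) (hθ1 : θ < 1) (hM : 0 ≤ M) (hε : 0 < ε) :
    ∃ m0 : ℕ, ∀ m, m0 ≤ m → ∃ n, 1 ≤ n ∧ K ^ (m + 1) * θ ^ n / c m < ε ∧
      c m ^ (m + 1) * M ^ n < ε := by
  obtain ⟨a, ha⟩ := exists_pow_lt_of_lt_one (by norm_num : (0 : ℝ) < 1 / 2) hθ1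
  obtain ⟨b, hb⟩ := pow_unbounded_of_one_lt K (by norm_num : (1 : ℝ) < 2)
  obtain ⟨s, hs⟩ := pow_unbounded_of_one_lt M (by norm_num : (1 : ℝ) < 2)
  obtain ⟨m1, hm1⟩ := exists_pow_lt_of_lt_one hε (by norm_num : (1 / 2 : ℝ) < 1)
  have ha1 : 1 ≤ a := by
    by_contra h
    have : a = 0 := by omega
    rw [this, pow_zero] at ha
    norm_num at ha
  refine ⟨max m1 (s * a * (b + 2) + 1), fun m hm => ?_⟩
  have hm1' : m1 ≤ m := (le_max_left _ _).trans hm
  have hm2 : s * a * (b + 2) + 1 ≤ m := (le_max_right _ _).trans hm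
  have hcm1 : c m ≤ 1 := (hc' m).trans (pow_le_one₀ (by norm_num) (by norm_num))
  obtain ⟨N, hN1, hN2⟩ := exists_nat_pow_near_of_lt_one (hc m) hcm1
    (by norm_num : (0 : ℝ) < 1 / 2) (by norm_num : (1 / 2 : ℝ) < 1)
  have hNm : m + 1 ≤ N := by
    have h1 : (1 / 2 : ℝ) ^ (N + 1) < (1 / 2 : ℝ) ^ (m + 1) := lt_of_lt_of_le hN1 (hc' m)
    have h2 := (pow_lt_pow_iff_right_of_lt_one₀ (by norm_num : (0 : ℝ) < 1 / 2)
      (by norm_num : (1 / 2 : ℝ) < 1)).1 h1
    omega
  have hhalf : (1 / 2 : ℝ) ^ m ≤ (1 / 2 : ℝ) ^ m1 :=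
    pow_le_pow_of_le_one (by norm_num) (by norm_num) hm1'
  refine ⟨a * (b * (m + 1) + 2 * N), ?_, ?_, ?_⟩
  · have : 1 ≤ b * (m + 1) + 2 * N := by omega
    exact Nat.mul_pos ha1 this
  · rw [div_lt_iff₀ (hc m)]
    have h1 : θ ^ (a * (b * (m + 1) + 2 * N)) ≤ (1 / 2 : ℝ) ^ (b * (m + 1) + 2 * N) := by
      rw [pow_mul]
      exact pow_le_pow_left₀ (pow_nonneg hθ _) ha.le _
    have h2 : K ^ (m + 1) ≤ 2 ^ (b * (m + 1)) := by
      rw [pow_mul]
      exact pow_le_pow_left₀ hK hb.le _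
    have h3 : K ^ (m + 1) * θ ^ (a * (b * (m + 1) + 2 * N)) ≤
        2 ^ (b * (m + 1)) * (1 / 2 : ℝ) ^ (b * (m + 1) + 2 * N) :=
      mul_le_mul h2 h1 (pow_nonneg hθ _) (by positivity)
    have h4 : (2 : ℝ) ^ (b * (m + 1)) * (1 / 2 : ℝ) ^ (b * (m + 1) + 2 * N) =
        (1 / 2 : ℝ) ^ (2 * N) := by
      rw [pow_add, ← mul_assoc, ← mul_pow]
      norm_num
    rw [h4] at h3
    have h5 : (1 / 2 : ℝ) ^ (2 * N) ≤ (1 / 2 : ℝ) ^ m * (1 / 2 : ℝ) ^ (N + 1) := by
      rw [← pow_add]
      exact pow_le_pow_of_le_one (by norm_num) (by norm_num) (by omega)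
    calc _ ≤ (1 / 2 : ℝ) ^ m * (1 / 2 : ℝ) ^ (N + 1) := h3.trans h5
      _ < (1 / 2 : ℝ) ^ m * c m := mul_lt_mul_of_pos_left hN1 (by positivity)
      _ ≤ ε * c m := mul_le_mul_of_nonneg_right (hhalf.trans hm1.le) (hc m).le
  · have h1 : M ^ (a * (b * (m + 1) + 2 * N)) ≤ 2 ^ (s * (a * (b * (m + 1) + 2 * N))) := by
      rw [pow_mul 2 s]
      exact pow_le_pow_left₀ hM hs.le _
    have h2 : (2 : ℝ) ^ (s * (a * (b * (m + 1) + 2 * N))) ≤ 2 ^ (s * a * (b + 2) * N) := by
      refine pow_le_pow_right₀ (by norm_num) ?_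
      calc s * (a * (b * (m + 1) + 2 * N)) ≤ s * (a * (b * N + 2 * N)) := by gcongr
        _ = s * a * (b + 2) * N := by ring
    have h3 : c m ^ (m + 1) ≤ (1 / 2 : ℝ) ^ (N * (m + 1)) := by
      rw [pow_mul]
      exact pow_le_pow_left₀ (hc m).le hN2 _
    have h4 : c m ^ (m + 1) * M ^ (a * (b * (m + 1) + 2 * N)) ≤
        (1 / 2 : ℝ) ^ (N * (m + 1)) * 2 ^ (s * a * (b + 2) * N) :=
      mul_le_mul h3 (h1.trans h2) (pow_nonneg hM _) (by positivity)
    have h5 : (1 / 2 : ℝ) ^ (N * (m + 1)) ≤ (1 / 2 : ℝ) ^ (m + s * a * (b + 2) * N) := by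
      refine pow_le_pow_of_le_one (by norm_num) (by norm_num) ?_
      have h6 : (s * a * (b + 2) + 1) * N ≤ m * N := Nat.mul_le_mul hm2 le_rfl
      nlinarith
    have h7 : (1 / 2 : ℝ) ^ (m + s * a * (b + 2) * N) * 2 ^ (s * a * (b + 2) * N) =
        (1 / 2 : ℝ) ^ m := by
      rw [pow_add, mul_assoc, ← mul_pow]
      norm_num
    calc _ ≤ (1 / 2 : ℝ) ^ (N * (m + 1)) * 2 ^ (s * a * (b + 2) * N) := h4
      _ ≤ (1 / 2 : ℝ) ^ (m + s * a * (b + 2) * N) * 2 ^ (s * a * (b + 2) * N) :=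
          mul_le_mul_of_nonneg_right h5 (by positivity)
      _ = (1 / 2 : ℝ) ^ m := h7
      _ ≤ (1 / 2 : ℝ) ^ m1 := hhalf
      _ < ε := hm1

lemma geom_sum_le {M : ℝ} (hM : 2 ≤ M) (n : ℕ) : ∑ i ∈ Finset.range n, M ^ i ≤ M ^ n := by
  induction n with
  | zero => simp
  | succ n ih =>
    rw [Finset.sum_range_succ, pow_succ]
    have : 0 ≤ M ^ n := by positivity
    nlinarith

lemma isCompact_RR (t : ℕ × ℕ × ℕ) : IsCompactOperator (RR ee t) := by
  have h1 : ∀ k a b, IsCompactOperator (EE ee k a b) := by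
    intro k a b
    have h2 : EE ee k a b = (ContinuousLinearMap.toSpanSingleton ℂ (ee (k, a))) ∘L
        (innerSL ℂ (ee (k, b))) := by
      ext1 z; rfl
    rw [h2]
    exact IsCompactOperator.clm_comp (isCompactOperator_of_locallyCompactSpace_dom
      (innerSL ℂ (ee (k, b)) : VV →L[ℂ] ℂ)) (ContinuousLinearMap.toSpanSingleton ℂ (ee (k, a)))
  unfold RR
  split_ifs
  · exact IsCompactOperator.sub (h1 _ _ _) (h1 _ _ _)
  · exact h1 _ _ _
  · exact isCompactOperator_zero

section build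

variable {H : Type*} [NormedAddCommGroup H] [InnerProductSpace ℂ H] [CompleteSpace H]

/-- the partial inverse -/
lemma exists_Z (P A : H →L[ℂ] H) (hP : P * P = P) (μ : ℂ) (f : Polynomial ℂ)
    (hf : f.eval μ = 1) (hf1 : ‖Polynomial.aeval ((1 - P) * A * (1 - P)) f * (1 - P)‖ < 1) :
    ∃ Z : H →L[ℂ] H, Z * P = 0 ∧ Z * A * (1 - P) = (1 - P) + μ • Z := by
  set Q := 1 - P with hQ
  set A2 := Q * A * Q with hA2
  have hQQ : Q * Q = Q := by
    rw [hQ, mul_sub, mul_one, sub_mul, one_mul, hP, sub_self, sub_zero]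
  have hQP : Q * P = 0 := by rw [hQ, sub_mul, one_mul, hP, sub_self]
  have hAQ : A2 * Q = A2 := by rw [hA2, mul_assoc, hQQ]
  have hQA : Q * A2 = A2 := by rw [hA2, ← mul_assoc, ← mul_assoc, hQQ]
  have hcom : Commute A2 Q := by rw [Commute, SemiconjBy, hAQ, hQA]
  set h := Polynomial.aeval A2 f * Q with hh
  have hcf : Commute (Polynomial.aeval A2 f) Q := comm_aeval hcom f
  have hcfA : Commute (Polynomial.aeval A2 f) A2 := comm_aeval (Commute.refl _) f
  have hhQ : Commute h Q := hcf.mul_left (Commute.refl Q)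
  have hhA : Commute h A2 := hcfA.mul_left hcom.symm
  have hQh : Q * h = h := by rw [hh, ← mul_assoc, ← hcf.eq, mul_assoc, hQQ]
  obtain ⟨g, hg⟩ := Polynomial.X_sub_C_dvd_sub_C_eval (a := μ) (p := f)
  rw [hf] at hg
  have hg2 : Polynomial.aeval A2 f - 1 = (A2 - μ • (1 : H →L[ℂ] H)) * Polynomial.aeval A2 g := by
    have := congrArg (Polynomial.aeval A2) hg
    rw [map_sub, map_mul, map_sub, Polynomial.aeval_C, Polynomial.aeval_C, Polynomial.aeval_X,
      map_one, Algebra.algebraMap_eq_smul_one] at this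
    exact this
  set u := Units.oneSub h hf1 with hu
  have huv : (u : H →L[ℂ] H) = 1 - h := rfl
  set W : H →L[ℂ] H := ((u⁻¹ : (H →L[ℂ] H)ˣ) : H →L[ℂ] H) with hW
  have hW1 : (1 - h) * W = 1 := by rw [← huv, hW, Units.mul_inv]
  have hWQ : Commute W Q := by
    rw [hW]
    refine Commute.units_inv_left ?_
    rw [huv]
    exact (Commute.one_left Q).sub_left hhQ
  have hWA : Commute W A2 := by
    rw [hW]
    refine Commute.units_inv_left ?_
    rw [huv]
    exact (Commute.one_left A2).sub_left hhA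
  have hgQ : Commute (Polynomial.aeval A2 g) Q := comm_aeval hcom g
  have hgA : Commute (Polynomial.aeval A2 g) A2 := comm_aeval (Commute.refl _) g
  set Z := -(Polynomial.aeval A2 g * Q * W) with hZ
  have hZQ : Z * Q = Z := by
    rw [hZ, neg_mul, mul_assoc, hWQ.eq, ← mul_assoc, mul_assoc _ Q Q, hQQ]
  have hZA : Commute Z A2 := by
    rw [hZ]
    exact ((hgA.mul_left hcom.symm).mul_left hWA).neg_left
  have hAZ : (A2 - μ • (1 : H →L[ℂ] H)) * Z = Q := by
    rw [hZ, mul_neg, ← mul_assoc, ← mul_assoc, ← hg2, sub_mul, one_mul, ← hh]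
    have h3 : h - Q = -(Q * (1 - h)) := by rw [mul_sub, mul_one, hQh]; abel
    rw [h3, neg_mul, neg_neg, mul_assoc, hW1, mul_one]
  refine ⟨Z, ?_, ?_⟩
  · rw [← hZQ, mul_assoc, hQP, mul_zero]
  · have h4 : Z * A * Q = Z * A2 := by
      conv_lhs => rw [← hZQ]
      rw [hA2]
      simp only [mul_assoc]
    rw [h4, hZA.eq]
    have h5 : A2 * Z = (A2 - μ • (1 : H →L[ℂ] H)) * Z + μ • Z := by
      rw [sub_mul, smul_mul_assoc, one_mul, sub_add_cancel]
    rw [h5, hAZ]

/-- **The construction.** -/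
theorem build (P A : H →L[ℂ] H) (hP : P * P = P) (U : ℕ → VV →L[ℂ] H) (Uo : VV →L[ℂ] H)
    (hU : ∀ i, (adjoint (U i)) ∘L (U i) = ContinuousLinearMap.id ℂ VV)
    (hU' : ∀ i j, i ≠ j → (adjoint (U i)) ∘L (U j) = 0)
    (hUo : (adjoint Uo) ∘L Uo = ContinuousLinearMap.id ℂ VV)
    (hUo' : ∀ i, (adjoint (U i)) ∘L Uo = 0)
    (hPU : ∀ i, P ∘L U i = U i) (hPUo : P ∘L Uo = Uo)
    (hUP : ∀ i, (adjoint (U i)) ∘L P = adjoint (U i))
    (μ : ℂ) (f : Polynomial ℂ)
    (hf : f.eval μ = 1) (hf1 : ‖Polynomial.aeval ((1 - P) * A * (1 - P)) f * (1 - P)‖ < 1)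
    (ε : ℝ) (hε : 0 < ε) :
    ∃ B : H →L[ℂ] H, ‖B - (A * (1 - P) + μ • P)‖ < ε ∧
      IsCompactOperator ((B - (A * (1 - P) + μ • P) : H →L[ℂ] H) : H → H) ∧
      ∀ k : ℕ, ∃ C : H →L[ℂ] H, Commute B C ∧ LatLE (ampl k B) (ampl k C) ∧ ¬ InW B C := by
  obtain ⟨Z, hZP, hZA⟩ := exists_Z P A hP μ f hf hf1
  obtain ⟨D, hD1, hDc, hRD⟩ := exists_D
  obtain ⟨T, c, hc, hc', hT1, hT2, hT3, hT4, hT5, hT6, hT7, hT8⟩ := exists_univ U Uo
    (fun n => RR ee (idx n)) D (fun n => dd (idx n).1) hU hU' hUo hUo'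
    (fun n => norm_RR_le ee_orthonormal _) hD1
    (fun n => by
      unfold dd
      refine pow_le_pow_of_le_one (by norm_num) (by norm_num) ?_
      have := idx_fst_le n
      omega)
    (fun n => pow_le_one₀ (by norm_num) (by norm_num)) (fun n => hRD (idx n))
  have hTc : IsCompactOperator T := hT8 hDc (fun n => isCompact_RR _)
  have hPT : P * T = T := hT6 P hPU hPUo
  have hTP : T * P = T := hT7 P hUP
  set Q := 1 - P with hQ
  set A2 := Q * A * Q with hA2
  have hQQ : Q * Q = Q := by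
    rw [hQ, mul_sub, mul_one, sub_mul, one_mul, hP, sub_self, sub_zero]
  have hQP : Q * P = 0 := by rw [hQ, sub_mul, one_mul, hP, sub_self]
  have hPQ : P * Q = 0 := by rw [hQ, mul_sub, mul_one, hP, sub_self]
  have hQT : Q * T = 0 := by rw [← hPT, ← mul_assoc, hQP, zero_mul]
  have hA2Q : A2 * Q = A2 := by rw [hA2, mul_assoc, hQQ]
  set Pj : H →L[ℂ] H := P - P * A * Z with hPj
  have hPjP : Pj * P = P := by
    rw [hPj, sub_mul, hP, mul_assoc, hZP, mul_zero, sub_zero]
  have hPPj : P * Pj = Pj := by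
    rw [hPj, mul_sub, hP, ← mul_assoc, ← mul_assoc, hP]
  have hPjT : Pj * T = T := by rw [← hPT, ← mul_assoc, hPjP]
  have hPjB0 : Pj * (A * Q + μ • P) = μ • Pj := by
    have h1 : Pj * (A * Q) = P * A * Q - P * A * (Q + μ • Z) := by
      rw [hPj, sub_mul, ← hZA]
      simp only [mul_assoc]
    rw [mul_add, mul_smul_comm, hPjP, h1, mul_add, mul_smul_comm, hPj, smul_sub]
    abel
  -- the parameter `δ`
  obtain ⟨δ, hδ, hδ2⟩ : ∃ δ : ℝ, 0 < δ ∧ δ * (‖T * Pj‖) < ε := by
    refine ⟨ε / (‖T * Pj‖ + 1), by positivity, ?_⟩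
    rw [div_mul_eq_mul_div, div_lt_iff₀ (by positivity)]
    nlinarith [norm_nonneg (T * Pj)]
  set B : H →L[ℂ] H := A * Q + μ • P + (δ : ℂ) • (T * Pj) with hB
  have hBd : B - (A * Q + μ • P) = (δ : ℂ) • (T * Pj) := by rw [hB]; abel
  set E : H →L[ℂ] H := μ • (1 : H →L[ℂ] H) + (δ : ℂ) • T with hE
  have hBP : B * P = E * P := by
    rw [hB, hE, add_mul, add_mul, mul_assoc A, hQP, mul_zero, zero_add, smul_mul_assoc, hP,
      smul_mul_assoc, mul_assoc T, hPjP, hTP, add_mul, smul_mul_assoc, smul_mul_assoc, one_mul, hTP]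
  have hEP : E * P = P * E := by
    rw [hE, add_mul, mul_add, smul_mul_assoc, smul_mul_assoc, mul_smul_comm, mul_smul_comm, one_mul,
      mul_one, hTP, hPT]
  have hPjB : Pj * B = E * Pj := by
    rw [hB, hE, mul_add, hPjB0, mul_smul_comm, ← mul_assoc, hPjT, add_mul, smul_mul_assoc,
      smul_mul_assoc, one_mul]
  have hQB : Q * B = A2 * Q := by
    rw [hB, mul_add, mul_add, mul_smul_comm, hQP, smul_zero, add_zero, mul_smul_comm, ← mul_assoc,
      ← mul_assoc, hQT, zero_mul, smul_zero, add_zero, hA2Q]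
  have hcomp : ∀ p : Polynomial ℂ, Polynomial.aeval B p * P = Polynomial.aeval E p * P := by
    intro p
    induction p using Polynomial.induction_on' with
    | add p q hp hq => rw [map_add, map_add, add_mul, add_mul, hp, hq]
    | monomial n a =>
      rw [Polynomial.aeval_monomial, Polynomial.aeval_monomial, mul_assoc, mul_assoc]
      congr 1
      induction n with
      | zero => rfl
      | succ n ih =>
        rw [pow_succ, mul_assoc, hBP, hEP, ← mul_assoc, ih, mul_assoc, ← hEP, ← mul_assoc, pow_succ]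
  have hcompPj : ∀ p : Polynomial ℂ, Pj * Polynomial.aeval B p = Polynomial.aeval E p * Pj := by
    intro p
    induction p using Polynomial.induction_on' with
    | add p q hp hq => rw [map_add, map_add, mul_add, add_mul, hp, hq]
    | monomial n a =>
      rw [Polynomial.aeval_monomial, Polynomial.aeval_monomial, Algebra.algebraMap_eq_smul_one,
        smul_mul_assoc, one_mul, smul_mul_assoc, one_mul, mul_smul_comm, smul_mul_assoc]
      congr 1
      induction n with
      | zero => rw [pow_zero, pow_zero, mul_one, one_mul]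
      | succ n ih =>
        rw [pow_succ, ← mul_assoc, ih, mul_assoc, hPjB, ← mul_assoc, pow_succ]
  have hcompQ : ∀ p : Polynomial ℂ, Q * Polynomial.aeval B p = Polynomial.aeval A2 p * Q := by
    intro p
    induction p using Polynomial.induction_on' with
    | add p q hp hq => rw [map_add, map_add, mul_add, add_mul, hp, hq]
    | monomial n a =>
      rw [Polynomial.aeval_monomial, Polynomial.aeval_monomial, Algebra.algebraMap_eq_smul_one,
        smul_mul_assoc, one_mul, smul_mul_assoc, one_mul, mul_smul_comm, smul_mul_assoc]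
      congr 1
      induction n with
      | zero => rw [pow_zero, pow_zero, mul_one, one_mul]
      | succ n ih =>
        rw [pow_succ, ← mul_assoc, ih, mul_assoc, hQB, ← mul_assoc, pow_succ]
  have h1Pj : (1 - Pj) * Q = 1 - Pj := by
    rw [hQ, mul_sub, mul_one, sub_mul, one_mul, hPjP, sub_self, sub_zero]
  have hdec : ∀ p : Polynomial ℂ, Polynomial.aeval B p =
      Polynomial.aeval E p * Pj + (1 - Pj) * (Polynomial.aeval A2 p * Q) := by
    intro p
    rw [← hcompQ, ← mul_assoc, h1Pj, ← hcompPj, ← add_mul, add_sub_cancel, one_mul]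
  refine ⟨B, ?_, ?_, fun k => ?_⟩
  · rw [hBd, norm_smul, Complex.norm_real, Real.norm_of_nonneg hδ.le]
    exact hδ2
  · rw [hBd]
    exact IsCompactOperator.smul (IsCompactOperator.comp_clm hTc Pj) _
  -- the maps of the criterion
  have hPjU : ∀ i, Pj ∘L U i = U i := by
    intro i
    have h1 : Pj ∘L U i = (Pj * P) ∘L U i := by
      rw [ContinuousLinearMap.mul_def, ContinuousLinearMap.comp_assoc, hPU]
    rw [h1, hPjP, hPU]
  have hk1 : (adjoint Uo) ∘L Uo = ContinuousLinearMap.id ℂ VV := hUo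
  have hk2 : ((adjoint (U 0)) ∘L Pj) ∘L (U 0) = ContinuousLinearMap.id ℂ VV := by
    rw [ContinuousLinearMap.comp_assoc, hPjU, hU]
  -- membership in the span
  have hspanT : ∀ p : Polynomial ℂ, (adjoint Uo) ∘L (Polynomial.aeval T p) ∘L (U 0) ∈
      Submodule.span ℂ (Set.range (RR ee)) := by
    intro p
    induction p using Polynomial.induction_on' with
    | add p q hp hq =>
      rw [map_add, ContinuousLinearMap.add_comp, ContinuousLinearMap.comp_add]
      exact Submodule.add_mem _ hp hq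
    | monomial n a =>
      have h1 : (adjoint Uo) ∘L (Polynomial.aeval T (Polynomial.monomial n a)) ∘L (U 0) =
          a • ((adjoint Uo) ∘L (T ^ n) ∘L (U 0)) := by
        rw [Polynomial.aeval_monomial, Algebra.algebraMap_eq_smul_one, smul_mul_assoc, one_mul,
          ContinuousLinearMap.smul_comp, ContinuousLinearMap.comp_smul]
      rw [h1]
      refine Submodule.smul_mem _ _ ?_
      cases n with
      | zero =>
        rw [pow_zero]
        have h2 : (adjoint Uo) ∘L (1 : H →L[ℂ] H) ∘L (U 0) = 0 := by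
          have h3 := congrArg adjoint (hUo' 0)
          rw [ContinuousLinearMap.adjoint_comp, adjoint_adjoint, map_zero] at h3
          rw [ContinuousLinearMap.one_def, ContinuousLinearMap.id_comp, h3]
        rw [h2]
        exact Submodule.zero_mem _
      | succ n =>
        rw [hT3 n]
        exact Submodule.smul_mem _ _ (Submodule.subset_span ⟨_, rfl⟩)
  have hb : ∀ p : Polynomial ℂ, (adjoint Uo) ∘L (Polynomial.aeval B p) ∘L (U 0) ∈
      Submodule.span ℂ (Set.range (RR ee)) := by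
    intro p
    have h1 : (Polynomial.aeval B p) ∘L (U 0) = (Polynomial.aeval E p) ∘L (U 0) := by
      have h2 : (Polynomial.aeval B p * P) ∘L (U 0) = (Polynomial.aeval E p * P) ∘L (U 0) := by
        rw [hcomp]
      rw [ContinuousLinearMap.mul_def, ContinuousLinearMap.mul_def,
        ContinuousLinearMap.comp_assoc, ContinuousLinearMap.comp_assoc, hPU] at h2
      exact h2
    have h3 : Polynomial.aeval E p = Polynomial.aeval T
        (p.comp (Polynomial.C μ + Polynomial.C (δ : ℂ) * Polynomial.X)) := by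
      rw [Polynomial.aeval_comp, map_add, map_mul, Polynomial.aeval_C, Polynomial.aeval_C,
        Polynomial.aeval_X, Algebra.algebraMap_eq_smul_one, Algebra.algebraMap_eq_smul_one,
        smul_mul_assoc, one_mul, hE]
    rw [h1, h3]
    exact hspanT _
  -- norm limits
  obtain ⟨g, hg⟩ := Polynomial.X_sub_C_dvd_sub_C_eval (a := μ) (p := f)
  rw [hf] at hg
  have hEμ : E - μ • (1 : H →L[ℂ] H) = (δ : ℂ) • T := by rw [hE]; abel
  have hgE : Polynomial.aeval E f - 1 = (δ : ℂ) • (T * Polynomial.aeval E g) := by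
    have := congrArg (Polynomial.aeval E) hg
    rw [map_sub, map_mul, map_sub, Polynomial.aeval_C, Polynomial.aeval_C, Polynomial.aeval_X,
      map_one, Algebra.algebraMap_eq_smul_one, hEμ, smul_mul_assoc] at this
    exact this
  have hδ0 : (δ : ℂ) ≠ 0 := by
    simpa using hδ.ne'
  set θ := ‖Polynomial.aeval A2 f * Q‖ with hθ
  set K := ‖A2 - μ • (1 : H →L[ℂ] H)‖ / δ with hK
  set M := max 2 ‖Polynomial.aeval E f‖ with hM
  have hM2 : 2 ≤ M := le_max_left _ _
  have ha : ∀ t : ℕ × ℕ × ℕ, ∀ ε : ℝ, 0 < ε → ∃ p : Polynomial ℂ,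
      ‖Polynomial.aeval B p - Uo ∘L (RR ee t) ∘L ((adjoint (U 0)) ∘L Pj)‖ < ε := by
    intro t ε hε
    set G := ‖Polynomial.aeval E g‖ with hG
    set L := ‖Pj‖ * (9 + 9 * δ * G) + ‖1 - Pj‖ + 1 with hL
    have hLpos : 0 < L := by rw [hL]; positivity
    obtain ⟨m0, hm0⟩ := choose_exp c hc hc' (K := K) (θ := θ) (M := M) (ε := ε / L)
      (by rw [hK]; positivity) (norm_nonneg _) hf1 (by linarith) (by positivity)
    obtain ⟨m, hm, hmt⟩ := exists_idx t m0
    obtain ⟨n, hn, hn1, hn2⟩ := hm0 m hm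
    have hcm := hc m
    have hcm0 : (c m : ℂ) ≠ 0 := by simpa using hcm.ne'
    -- the polynomial
    let w : Polynomial ℂ := Polynomial.C ((δ : ℂ)⁻¹) * (Polynomial.X - Polynomial.C μ)
    let p : Polynomial ℂ := Polynomial.C ((c m : ℂ)⁻¹) * w ^ (m + 1) * f ^ n
    have hwE : Polynomial.aeval E w = T := by
      show Polynomial.aeval E (Polynomial.C ((δ : ℂ)⁻¹) * (Polynomial.X - Polynomial.C μ)) = T
      rw [map_mul, map_sub, Polynomial.aeval_C, Polynomial.aeval_C, Polynomial.aeval_X,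
        Algebra.algebraMap_eq_smul_one, Algebra.algebraMap_eq_smul_one, hEμ, smul_mul_assoc,
        one_mul, smul_smul, inv_mul_cancel₀ hδ0, one_smul]
    have hwA : ‖Polynomial.aeval A2 w‖ = K := by
      show ‖Polynomial.aeval A2 (Polynomial.C ((δ : ℂ)⁻¹) * (Polynomial.X - Polynomial.C μ))‖ = K
      rw [map_mul, map_sub, Polynomial.aeval_C, Polynomial.aeval_C, Polynomial.aeval_X,
        Algebra.algebraMap_eq_smul_one, Algebra.algebraMap_eq_smul_one, smul_mul_assoc,
        one_mul, norm_smul, norm_inv, Complex.norm_real, Real.norm_of_nonneg hδ.le, hK]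
      ring
    have hpE : Polynomial.aeval E p = (c m : ℂ)⁻¹ • (T ^ (m + 1) * (Polynomial.aeval E f) ^ n) := by
      show Polynomial.aeval E (Polynomial.C ((c m : ℂ)⁻¹) * w ^ (m + 1) * f ^ n) = _
      rw [map_mul, map_mul, map_pow, map_pow, hwE, Polynomial.aeval_C,
        Algebra.algebraMap_eq_smul_one, smul_mul_assoc, one_mul, smul_mul_assoc]
    have hpA : ‖Polynomial.aeval A2 p * Q‖ ≤ K ^ (m + 1) * θ ^ n / c m := by
      have h1 : Polynomial.aeval A2 p * Q = (c m : ℂ)⁻¹ • ((Polynomial.aeval A2 w) ^ (m + 1) *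
          (Polynomial.aeval A2 f * Q) ^ n) := by
        show Polynomial.aeval A2 (Polynomial.C ((c m : ℂ)⁻¹) * w ^ (m + 1) * f ^ n) * Q = _
        rw [map_mul, map_mul, map_pow, map_pow, Polynomial.aeval_C,
          Algebra.algebraMap_eq_smul_one, smul_mul_assoc, one_mul, smul_mul_assoc, smul_mul_assoc,
          mul_assoc]
        have hQA : Q * A2 = A2 := by rw [hA2, ← mul_assoc, ← mul_assoc, hQQ]
        have hcom : Commute A2 Q := by rw [Commute, SemiconjBy, hA2Q, hQA]
        have hcf : Commute (Polynomial.aeval A2 f) Q := comm_aeval hcom f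
        have hQj : ∀ j : ℕ, Q ^ (j + 1) = Q := by
          intro j
          induction j with
          | zero => rw [zero_add, pow_one]
          | succ j ih => rw [pow_succ, ih, hQQ]
        have hQn : Q ^ n = Q := by
          have h0 := hQj (n - 1)
          rwa [Nat.sub_add_cancel hn] at h0
        rw [hcf.mul_pow, hQn]
      rw [h1, norm_smul, norm_inv, Complex.norm_real, Real.norm_of_nonneg hcm.le]
      have h2 : ‖(Polynomial.aeval A2 w) ^ (m + 1) * (Polynomial.aeval A2 f * Q) ^ n‖ ≤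
          K ^ (m + 1) * θ ^ n := by
        refine (norm_mul_le _ _).trans ?_
        refine mul_le_mul ?_ (norm_pow_le' _ (by omega)) (norm_nonneg _) (by positivity)
        rw [← hwA]
        exact norm_pow_le' _ (by omega)
      calc (c m)⁻¹ * ‖(Polynomial.aeval A2 w) ^ (m + 1) * (Polynomial.aeval A2 f * Q) ^ n‖
          ≤ (c m)⁻¹ * (K ^ (m + 1) * θ ^ n) := mul_le_mul_of_nonneg_left h2 (by positivity)
        _ = _ := by ring
    -- the main part
    have hmain : ‖Polynomial.aeval E p - Uo ∘L (RR ee t) ∘L (adjoint (U 0))‖ ≤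
        9 * c m ^ (m + 1) + 9 * δ * G * (c m ^ (m + 1) * M ^ n) := by
      have h1 : Polynomial.aeval E p - Uo ∘L (RR ee t) ∘L (adjoint (U 0)) =
          (c m : ℂ)⁻¹ • (T ^ (m + 1) - (c m : ℂ) • (Uo ∘L (RR ee t) ∘L (adjoint (U 0)))) +
          (c m : ℂ)⁻¹ • (T ^ (m + 1) * ((Polynomial.aeval E f) ^ n - 1)) := by
        rw [hpE, ← smul_add, mul_sub, mul_one]
        have h2 : T ^ (m + 1) - (c m : ℂ) • (Uo ∘L (RR ee t) ∘L (adjoint (U 0))) +
            (T ^ (m + 1) * (Polynomial.aeval E f) ^ n - T ^ (m + 1)) =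
            T ^ (m + 1) * (Polynomial.aeval E f) ^ n -
              (c m : ℂ) • (Uo ∘L (RR ee t) ∘L (adjoint (U 0))) := by abel
        rw [h2, smul_sub, smul_smul, inv_mul_cancel₀ hcm0, one_smul]
      have h3 : T ^ (m + 1) * ((Polynomial.aeval E f) ^ n - 1) =
          (δ : ℂ) • (T ^ (m + 2) * (Polynomial.aeval E g * ∑ i ∈ Finset.range n,
            (Polynomial.aeval E f) ^ i)) := by
        rw [← mul_geom_sum, hgE, smul_mul_assoc, mul_smul_comm, pow_succ T (m + 1)]
        simp only [mul_assoc]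
      have h4 : ‖∑ i ∈ Finset.range n, (Polynomial.aeval E f) ^ i‖ ≤ M ^ n := by
        refine (norm_sum_le _ _).trans ((Finset.sum_le_sum (fun i _ => ?_)).trans (geom_sum_le hM2 n))
        by_cases hi : i = 0
        · subst hi
          rw [pow_zero, pow_zero]
          exact ContinuousLinearMap.norm_id_le
        · exact (norm_pow_le' _ (Nat.pos_of_ne_zero hi)).trans
            (pow_le_pow_left₀ (norm_nonneg _) (le_max_right _ _) _)
      rw [h1]
      refine (norm_add_le _ _).trans (add_le_add ?_ ?_)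
      · rw [norm_smul, norm_inv, Complex.norm_real, Real.norm_of_nonneg hcm.le]
        have h5 := hT1 m
        simp only [hmt] at h5
        calc _ ≤ (c m)⁻¹ * (9 * c m ^ (m + 2)) := mul_le_mul_of_nonneg_left h5 (by positivity)
          _ = 9 * c m ^ (m + 1) := by
            rw [pow_succ (c m) (m + 1)]
            field_simp
      · rw [h3, norm_smul, norm_smul, norm_inv, Complex.norm_real, Real.norm_of_nonneg hcm.le,
          Complex.norm_real, Real.norm_of_nonneg hδ.le]
        have h6 : ‖T ^ (m + 2) * (Polynomial.aeval E g * ∑ i ∈ Finset.range n,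
            (Polynomial.aeval E f) ^ i)‖ ≤ (9 * c m ^ (m + 2)) * (G * M ^ n) := by
          refine (norm_mul_le _ _).trans (mul_le_mul (hT2 m) ?_ (norm_nonneg _) (by positivity))
          exact (norm_mul_le _ _).trans (mul_le_mul_of_nonneg_left h4 (norm_nonneg _))
        calc _ ≤ (c m)⁻¹ * (δ * ((9 * c m ^ (m + 2)) * (G * M ^ n))) :=
              mul_le_mul_of_nonneg_left (mul_le_mul_of_nonneg_left h6 hδ.le) (by positivity)
          _ = _ := by
            rw [pow_succ (c m) (m + 1)]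
            field_simp
    refine ⟨p, ?_⟩
    have h7 : Polynomial.aeval B p - Uo ∘L (RR ee t) ∘L ((adjoint (U 0)) ∘L Pj) =
        (Polynomial.aeval E p - Uo ∘L (RR ee t) ∘L (adjoint (U 0))) * Pj +
          (1 - Pj) * (Polynomial.aeval A2 p * Q) := by
      have h8 : Uo ∘L (RR ee t) ∘L ((adjoint (U 0)) ∘L Pj) =
          (Uo ∘L (RR ee t) ∘L (adjoint (U 0))) * Pj := by
        ext1 z; rfl
      rw [hdec, h8, sub_mul (Polynomial.aeval E p)]
      abel
    rw [h7]
    have h9 : c m ^ (m + 1) ≤ c m ^ (m + 1) * M ^ n :=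
      le_mul_of_one_le_right (by positivity) (one_le_pow₀ (by linarith))
    have hGn : 0 ≤ G := norm_nonneg _
    have h10 : ‖Polynomial.aeval E p - Uo ∘L (RR ee t) ∘L (adjoint (U 0))‖ ≤
        (9 + 9 * δ * G) * (ε / L) := by
      refine hmain.trans ?_
      have h11 : 0 ≤ 9 * δ * G := by positivity
      nlinarith [mul_le_mul_of_nonneg_left hn2.le h11]
    calc _ ≤ ‖Polynomial.aeval E p - Uo ∘L (RR ee t) ∘L (adjoint (U 0))‖ * ‖Pj‖ +
          ‖1 - Pj‖ * ‖Polynomial.aeval A2 p * Q‖ :=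
          (norm_add_le _ _).trans (add_le_add (norm_mul_le _ _) (norm_mul_le _ _))
      _ ≤ (9 + 9 * δ * G) * (ε / L) * ‖Pj‖ + ‖1 - Pj‖ * (ε / L) :=
          add_le_add (mul_le_mul_of_nonneg_right h10 (norm_nonneg _))
            (mul_le_mul_of_nonneg_left (hpA.trans hn1.le) (norm_nonneg _))
      _ < L * (ε / L) := by
          have h12 : 0 < ε / L := by positivity
          rw [hL]
          rw [hL] at h12
          nlinarith
      _ = ε := by field_simp
  -- conclusion
  obtain ⟨hr1, hr2⟩ := criterion ee_orthonormal B Uo (U 0) (adjoint Uo) ((adjoint (U 0)) ∘L Pj)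
    hk1 hk2 ha hb k
  refine ⟨_, ?_, hr1, hr2⟩
  -- commutation
  have hBUo : B ∘L Uo = μ • Uo := by
    have h1 : B ∘L Uo = (B * P) ∘L Uo := by
      rw [ContinuousLinearMap.mul_def, ContinuousLinearMap.comp_assoc, hPUo]
    rw [h1, hBP, ContinuousLinearMap.mul_def, ContinuousLinearMap.comp_assoc, hPUo, hE,
      ContinuousLinearMap.add_comp, ContinuousLinearMap.smul_comp, ContinuousLinearMap.smul_comp,
      hT5, smul_zero, add_zero, ContinuousLinearMap.one_def, ContinuousLinearMap.id_comp]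
  have hYB : ((adjoint (U 0)) ∘L Pj) ∘L B = μ • ((adjoint (U 0)) ∘L Pj) := by
    have h1 : ((adjoint (U 0)) ∘L Pj) ∘L B = (adjoint (U 0)) ∘L (Pj * B) := by
      rw [ContinuousLinearMap.mul_def, ContinuousLinearMap.comp_assoc]
    have h2 : (adjoint (U 0)) ∘L (E * Pj) = ((adjoint (U 0)) ∘L E) ∘L Pj := by
      rw [ContinuousLinearMap.mul_def, ContinuousLinearMap.comp_assoc]
    rw [h1, hPjB, h2, hE, ContinuousLinearMap.comp_add, ContinuousLinearMap.comp_smul,
      ContinuousLinearMap.comp_smul, hT4, smul_zero, add_zero, ContinuousLinearMap.one_def,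
      ContinuousLinearMap.comp_id, ContinuousLinearMap.smul_comp]
  show B * (Uo ∘L (QQ ee k) ∘L ((adjoint (U 0)) ∘L Pj)) =
    (Uo ∘L (QQ ee k) ∘L ((adjoint (U 0)) ∘L Pj)) * B
  rw [ContinuousLinearMap.mul_def, ContinuousLinearMap.mul_def, ← ContinuousLinearMap.comp_assoc,
    hBUo, ContinuousLinearMap.comp_assoc, ContinuousLinearMap.comp_assoc, hYB,
    ContinuousLinearMap.comp_smul, ContinuousLinearMap.comp_smul, ContinuousLinearMap.smul_comp]

end build

end Pool.Agent.RFX
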