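import Mathlib

set_option autoImplicit false

/-!
# A point of the spectrum of maximal modulus is a topological divisor of zero
-/

namespace Pool.Agent.RFX

open Filter Topology

theorem spectral_point {R : Type*} [NormedRing R] [NormedAlgebra ℂ R] [CompleteSpace R]
    [Nontrivial R] (a : R) :
    ∃ z : ℂ, (∀ δ : ℝ, 0 < δ → ∃ b : R, ‖(a - algebraMap ℂ R z) * b‖ < δ * ‖b‖) ∧
      (∀ ρ : ℝ, ‖z‖ < ρ → ∃ n : ℕ, 1 ≤ n ∧ ‖a ^ n‖ < ρ ^ n) := by
  obtain ⟨z, hz, hzr⟩ := spectrum.exists_nnnorm_eq_spectralRadius a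
  refine ⟨z, ?_, ?_⟩
  · intro δ hδ
    by_contra hcon
    push Not at hcon
    have h1 : 0 < ‖(1 : R)‖ := norm_pos_iff.2 one_ne_zero
    -- the step
    set t : ℝ := min (δ / 2) (δ / (4 * ‖(1 : R)‖)) with ht
    have htpos : 0 < t := lt_min (by positivity) (by positivity)
    have ht1 : t ≤ δ / 2 := min_le_left _ _
    have ht2 : t ≤ δ / (4 * ‖(1 : R)‖) := min_le_right _ _
    -- a point outside
    obtain ⟨w, hw1, hw2⟩ : ∃ w : ℂ, ‖w - z‖ = t ∧ ‖z‖ < ‖w‖ := by
      by_cases hz0 : z = 0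
      · refine ⟨(t : ℂ), ?_, ?_⟩
        · rw [hz0, sub_zero, Complex.norm_real, Real.norm_of_nonneg htpos.le]
        · rw [hz0, norm_zero, Complex.norm_real, Real.norm_of_nonneg htpos.le]
          exact htpos
      · have hzn : 0 < ‖z‖ := norm_pos_iff.2 hz0
        refine ⟨z + ((t / ‖z‖ : ℝ) : ℂ) * z, ?_, ?_⟩
        · rw [add_sub_cancel_left, norm_mul, Complex.norm_real,
            Real.norm_of_nonneg (by positivity)]
          field_simp
        · have h2 : z + ((t / ‖z‖ : ℝ) : ℂ) * z = ((1 + t / ‖z‖ : ℝ) : ℂ) * z := by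
            push_cast; ring
          rw [h2, norm_mul, Complex.norm_real, Real.norm_of_nonneg (by positivity)]
          have h3 : 0 < t / ‖z‖ := by positivity
          nlinarith
    have hwr : w ∈ resolventSet ℂ a := by
      refine spectrum.mem_resolventSet_of_spectralRadius_lt ?_
      rw [← hzr]
      exact_mod_cast hw2
    rw [spectrum.mem_resolventSet_iff] at hwr
    have hwr' : IsUnit (a - algebraMap ℂ R w) := by
      have := hwr.neg
      rwa [neg_sub] at this
    obtain ⟨u, hu⟩ := hwr'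
    set b : R := ((u⁻¹ : Rˣ) : R) with hb
    have hab : (a - algebraMap ℂ R w) * b = 1 := by rw [← hu, hb, Units.mul_inv]
    have hsplit : a - algebraMap ℂ R z = (a - algebraMap ℂ R w) + algebraMap ℂ R (w - z) := by
      rw [map_sub]; abel
    have h4 : (a - algebraMap ℂ R z) * b = 1 + (w - z) • b := by
      rw [hsplit, add_mul, hab, Algebra.algebraMap_eq_smul_one, smul_mul_assoc, one_mul]
    have h5 := hcon b
    rw [h4] at h5
    have h6 : ‖1 + (w - z) • b‖ ≤ ‖(1 : R)‖ + t * ‖b‖ := by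
      refine (norm_add_le _ _).trans ?_
      rw [norm_smul, hw1]
    have h7 : ‖b‖ ≤ 2 * ‖(1 : R)‖ / δ := by
      rw [le_div_iff₀ hδ]
      nlinarith [norm_nonneg b]
    -- then `a - z` is invertible
    have h8 : ‖-((w - z) • b)‖ < 1 := by
      rw [norm_neg, norm_smul, hw1]
      calc t * ‖b‖ ≤ δ / (4 * ‖(1 : R)‖) * (2 * ‖(1 : R)‖ / δ) :=
            mul_le_mul ht2 h7 (norm_nonneg _) (by positivity)
        _ = 1 / 2 := by field_simp; norm_num
        _ < 1 := by norm_num
    have h9 : IsUnit (1 + (w - z) • b) := by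
      have := (Units.oneSub _ h8).isUnit
      rw [Units.val_oneSub, sub_neg_eq_add] at this
      exact this
    have h10 : IsUnit (a - algebraMap ℂ R z) := by
      have h11 : (a - algebraMap ℂ R z) = (1 + (w - z) • b) * (u : R) := by
        rw [← h4, mul_assoc, hb, Units.inv_mul, mul_one]
      rw [h11]
      exact h9.mul u.isUnit
    refine (spectrum.mem_iff.1 hz) ?_
    have := h10.neg
    rwa [neg_sub] at this
  · intro ρ hρ
    have hρ0 : 0 < ρ := lt_of_le_of_lt (norm_nonneg _) hρ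
    have h1 := spectrum.pow_norm_pow_one_div_tendsto_nhds_spectralRadius a
    have h2 : spectralRadius ℂ a < ENNReal.ofReal ρ := by
      rw [← hzr]
      have : (‖z‖₊ : ENNReal) = ENNReal.ofReal ‖z‖ := (ofReal_norm_eq_enorm z).symm
      rw [this]
      exact (ENNReal.ofReal_lt_ofReal_iff hρ0).2 hρ
    obtain ⟨n, hn, hn1⟩ := ((h1.eventually (gt_mem_nhds h2)).and (eventually_ge_atTop 1)).exists
    refine ⟨n, hn1, ?_⟩
    have h3 : ‖a ^ n‖ ^ (1 / n : ℝ) < ρ := (ENNReal.ofReal_lt_ofReal_iff hρ0).1 hn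
    have hn0 : (n : ℝ) ≠ 0 := by positivity
    have h4 : (‖a ^ n‖ ^ (1 / n : ℝ)) ^ n < ρ ^ n :=
      pow_lt_pow_left₀ h3 (by positivity) (by omega)
    rwa [← Real.rpow_natCast, ← Real.rpow_mul (norm_nonneg _), one_div_mul_cancel hn0,
      Real.rpow_one] at h4

end Pool.Agent.RFX
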