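import Mathlib
import Pool.Agent.RFX.SB

set_option autoImplicit false

/-!
# The essential norm and a point of the left essential spectrum
-/

namespace Pool.Agent.RFX

open scoped InnerProductSpace BigOperators
open ContinuousLinearMap Filter Topology

section ess

variable {H : Type*} [NormedAddCommGroup H] [InnerProductSpace ℂ H] [CompleteSpace H]

/-- `X` is bounded by `r` on the orthogonal complement of a finite-dimensional subspace -/
def EB (X : H →L[ℂ] H) (r : ℝ) : Prop :=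
  0 ≤ r ∧ ∃ F : Submodule ℂ H, FiniteDimensional ℂ F ∧ ∀ x ∈ Fᗮ, ‖X x‖ ≤ r * ‖x‖

/-- the essential norm -/
noncomputable def essN (X : H →L[ℂ] H) : ℝ := sInf {r | EB X r}

omit [CompleteSpace H] in
lemma EB_norm (X : H →L[ℂ] H) : EB X ‖X‖ :=
  ⟨norm_nonneg _, ⊥, inferInstance, fun x _ => X.le_opNorm x⟩

omit [CompleteSpace H] in
lemma EB.mono {X : H →L[ℂ] H} {r s : ℝ} (h : EB X r) (hrs : r ≤ s) : EB X s := by
  obtain ⟨h0, F, hF, hx⟩ := h
  exact ⟨h0.trans hrs, F, hF, fun x hxF =>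
    (hx x hxF).trans (mul_le_mul_of_nonneg_right hrs (norm_nonneg _))⟩

omit [CompleteSpace H] in
lemma EB_bdd (X : H →L[ℂ] H) : BddBelow {r | EB X r} := ⟨0, fun _ h => h.1⟩

omit [CompleteSpace H] in
lemma essN_le {X : H →L[ℂ] H} {r : ℝ} (h : EB X r) : essN X ≤ r := csInf_le (EB_bdd X) h

omit [CompleteSpace H] in
lemma essN_nonneg (X : H →L[ℂ] H) : 0 ≤ essN X := Real.sInf_nonneg (fun _ h => h.1)

omit [CompleteSpace H] in
lemma essN_le_norm (X : H →L[ℂ] H) : essN X ≤ ‖X‖ := essN_le (EB_norm X)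

omit [CompleteSpace H] in
lemma EB_of_lt {X : H →L[ℂ] H} {r : ℝ} (h : essN X < r) : ∃ s, s < r ∧ EB X s := by
  obtain ⟨s, hs, hsr⟩ := exists_lt_of_csInf_lt (s := {r | EB X r}) ⟨_, EB_norm X⟩ h
  exact ⟨s, hsr, hs⟩

omit [CompleteSpace H] in
lemma EB_add {X Y : H →L[ℂ] H} {r s : ℝ} (hX : EB X r) (hY : EB Y s) : EB (X + Y) (r + s) := by
  obtain ⟨hr, F, hF, hx⟩ := hX
  obtain ⟨hs, G, hG, hy⟩ := hY
  refine ⟨add_nonneg hr hs, F ⊔ G, inferInstance, fun x hxF => ?_⟩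
  have h1 : x ∈ Fᗮ := Submodule.orthogonal_le le_sup_left hxF
  have h2 : x ∈ Gᗮ := Submodule.orthogonal_le le_sup_right hxF
  rw [add_apply, add_mul]
  exact (norm_add_le _ _).trans (add_le_add (hx x h1) (hy x h2))

lemma EB_mul {X Y : H →L[ℂ] H} {r s : ℝ} (hX : EB X r) (hY : EB Y s) : EB (X * Y) (r * s) := by
  obtain ⟨hr, F, hF, hx⟩ := hX
  obtain ⟨hs, G, hG, hy⟩ := hY
  refine ⟨mul_nonneg hr hs, G ⊔ F.map (adjoint Y).toLinearMap, inferInstance, fun x hxF => ?_⟩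
  have h1 : x ∈ Gᗮ := Submodule.orthogonal_le le_sup_left hxF
  have h2 : x ∈ (F.map (adjoint Y).toLinearMap)ᗮ := Submodule.orthogonal_le le_sup_right hxF
  have h3 : Y x ∈ Fᗮ := by
    rw [Submodule.mem_orthogonal] at h2 ⊢
    intro f hf
    rw [← adjoint_inner_left]
    exact h2 _ (Submodule.mem_map_of_mem hf)
  calc ‖(X * Y) x‖ = ‖X (Y x)‖ := rfl
    _ ≤ r * ‖Y x‖ := hx _ h3
    _ ≤ r * (s * ‖x‖) := mul_le_mul_of_nonneg_left (hy x h1) hr
    _ = r * s * ‖x‖ := by ring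

omit [CompleteSpace H] in
lemma EB_smul {X : H →L[ℂ] H} {r : ℝ} (c : ℂ) (hX : EB X r) : EB (c • X) (‖c‖ * r) := by
  obtain ⟨hr, F, hF, hx⟩ := hX
  refine ⟨by positivity, F, hF, fun x hxF => ?_⟩
  rw [smul_apply, norm_smul, mul_assoc]
  exact mul_le_mul_of_nonneg_left (hx x hxF) (norm_nonneg _)

omit [CompleteSpace H] in
lemma essN_zero : essN (0 : H →L[ℂ] H) = 0 :=
  le_antisymm ((essN_le_norm _).trans (by simp)) (essN_nonneg _)

omit [CompleteSpace H] in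
lemma essN_add_le (X Y : H →L[ℂ] H) : essN (X + Y) ≤ essN X + essN Y := by
  refine le_of_forall_pos_le_add (fun ε hε => ?_)
  obtain ⟨r, hr, hr'⟩ := EB_of_lt (X := X) (r := essN X + ε / 2) (by linarith)
  obtain ⟨s, hs, hs'⟩ := EB_of_lt (X := Y) (r := essN Y + ε / 2) (by linarith)
  have := essN_le (EB_add hr' hs')
  linarith

lemma essN_mul_le (X Y : H →L[ℂ] H) : essN (X * Y) ≤ essN X * essN Y := by
  have h1 : ∀ ε : ℝ, 0 < ε → essN (X * Y) ≤ (essN X + ε) * (essN Y + ε) := by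
    intro ε hε
    obtain ⟨r, hr, hr'⟩ := EB_of_lt (X := X) (r := essN X + ε) (by linarith)
    obtain ⟨s, hs, hs'⟩ := EB_of_lt (X := Y) (r := essN Y + ε) (by linarith)
    have h2 := essN_le (EB_mul hr' hs')
    refine h2.trans (mul_le_mul hr.le hs.le hs'.1 ?_)
    have := essN_nonneg X
    linarith
  have h2 : Tendsto (fun ε : ℝ => (essN X + ε) * (essN Y + ε)) (𝓝[>] 0)
      (𝓝 ((essN X + 0) * (essN Y + 0))) := by
    refine Tendsto.mono_left ?_ nhdsWithin_le_nhds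
    exact (Continuous.tendsto (by fun_prop) 0)
  rw [add_zero, add_zero] at h2
  refine ge_of_tendsto h2 ?_
  filter_upwards [self_mem_nhdsWithin] with ε hε
  exact h1 ε hε

omit [CompleteSpace H] in
lemma essN_smul_le (c : ℂ) (X : H →L[ℂ] H) : essN (c • X) ≤ ‖c‖ * essN X := by
  refine le_of_forall_pos_le_add (fun ε hε => ?_)
  have hc : 0 < ‖c‖ + 1 := by positivity
  obtain ⟨r, hr, hr'⟩ := EB_of_lt (X := X) (r := essN X + ε / (‖c‖ + 1))
    (by have : 0 < ε / (‖c‖ + 1) := by positivity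
        linarith)
  have h1 := essN_le (EB_smul c hr')
  have h2 : ‖c‖ * r ≤ ‖c‖ * (essN X + ε / (‖c‖ + 1)) :=
    mul_le_mul_of_nonneg_left hr.le (norm_nonneg _)
  have h3 : ‖c‖ * (ε / (‖c‖ + 1)) ≤ ε := by
    rw [mul_div_assoc', div_le_iff₀ hc]
    nlinarith [norm_nonneg c]
  nlinarith

omit [CompleteSpace H] in
lemma essN_neg (X : H →L[ℂ] H) : essN (-X) = essN X := by
  have h : ∀ X : H →L[ℂ] H, essN (-X) ≤ essN X := by
    intro X
    have := essN_smul_le (-1) X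
    rwa [neg_smul, one_smul, norm_neg, norm_one, one_mul] at this
  refine le_antisymm (h X) ?_
  have := h (-X)
  rwa [neg_neg] at this

omit [CompleteSpace H] in
lemma exists_unit_orthogonal (hinf : ¬ FiniteDimensional ℂ H) (F : Submodule ℂ H)
    [FiniteDimensional ℂ F] : ∃ x ∈ Fᗮ, ‖x‖ = 1 := by
  have h1 : Fᗮ ≠ ⊥ := by
    intro h
    rw [Submodule.orthogonal_eq_bot_iff] at h
    refine hinf ?_
    have : FiniteDimensional ℂ (⊤ : Submodule ℂ H) := h ▸ inferInstance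
    exact LinearEquiv.finiteDimensional (Submodule.topEquiv : (⊤ : Submodule ℂ H) ≃ₗ[ℂ] H)
  obtain ⟨y, hy, hy0⟩ := (Submodule.ne_bot_iff _).1 h1
  refine ⟨((‖y‖⁻¹ : ℝ) : ℂ) • y, Submodule.smul_mem _ _ hy, ?_⟩
  rw [norm_smul, Complex.norm_real, norm_inv, norm_norm, inv_mul_cancel₀ (norm_ne_zero_iff.2 hy0)]

omit [CompleteSpace H] in
lemma one_le_essN_one (hinf : ¬ FiniteDimensional ℂ H) : 1 ≤ essN (1 : H →L[ℂ] H) := by
  refine le_csInf ⟨_, EB_norm _⟩ ?_
  rintro r ⟨hr, F, hF, hx⟩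
  obtain ⟨x, hxF, hx1⟩ := exists_unit_orthogonal hinf F
  have h1 := hx x hxF
  have h2 : (1 : H →L[ℂ] H) x = x := rfl
  rw [h2, hx1, mul_one] at h1
  exact h1

/-! ### The Banach algebra -/

/-- polynomials with the seminorm `p ↦ essN (p(A))` -/
def PolyE (_A : H →L[ℂ] H) : Type := Polynomial ℂ

noncomputable instance (A : H →L[ℂ] H) : CommRing (PolyE A) :=
  inferInstanceAs (CommRing (Polynomial ℂ))

noncomputable instance (A : H →L[ℂ] H) : Algebra ℂ (PolyE A) :=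
  inferInstanceAs (Algebra ℂ (Polynomial ℂ))

/-- evaluation -/
noncomputable def evE (A : H →L[ℂ] H) : PolyE A →ₐ[ℂ] (H →L[ℂ] H) := Polynomial.aeval A

/-- the seminorm -/
noncomputable def semE (A : H →L[ℂ] H) : RingSeminorm (PolyE A) where
  toFun p := essN (evE A p)
  map_zero' := by rw [map_zero]; exact essN_zero
  add_le' p q := by rw [map_add]; exact essN_add_le _ _
  neg' p := by rw [map_neg]; exact essN_neg _
  mul_le' p q := by rw [map_mul]; exact essN_mul_le _ _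

noncomputable instance (A : H →L[ℂ] H) : SeminormedCommRing (PolyE A) :=
  { (semE A).toSeminormedRing with
    mul_comm := mul_comm }

lemma normE (A : H →L[ℂ] H) (p : PolyE A) : ‖p‖ = essN (evE A p) := rfl

noncomputable instance (A : H →L[ℂ] H) : NormedAlgebra ℂ (PolyE A) where
  norm_smul_le c p := by
    rw [normE, normE, map_smul]
    exact essN_smul_le _ _

/-- **A point of the left essential spectrum of maximal modulus.** -/
theorem exists_lambda (hinf : ¬ FiniteDimensional ℂ H) (A : H →L[ℂ] H) :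
    ∃ z : ℂ, (∀ δ : ℝ, 0 < δ → ∃ p : Polynomial ℂ,
        essN ((A - z • (1 : H →L[ℂ] H)) * Polynomial.aeval A p) < δ * essN (Polynomial.aeval A p)) ∧
      (∀ ρ : ℝ, ‖z‖ < ρ → ∃ n : ℕ, 1 ≤ n ∧ essN (A ^ n) < ρ ^ n) := by
  let 𝔅 := UniformSpace.Completion (PolyE A)
  let X : PolyE A := (Polynomial.X : Polynomial ℂ)
  have hX : evE A X = A := Polynomial.aeval_X A
  have : Nontrivial 𝔅 := by
    refine ⟨⟨0, 1, fun h => ?_⟩⟩
    have h1 : ‖((1 : PolyE A) : 𝔅)‖ = essN (1 : H →L[ℂ] H) := by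
      rw [UniformSpace.Completion.norm_coe, normE, map_one]
    have h2 : ((1 : PolyE A) : 𝔅) = 1 := UniformSpace.Completion.coe_one _
    rw [h2, ← h, norm_zero] at h1
    have := one_le_essN_one hinf
    linarith
  obtain ⟨z, hz1, hz2⟩ := spectral_point (R := 𝔅) ((X : PolyE A) : 𝔅)
  refine ⟨z, fun δ hδ => ?_, fun ρ hρ => ?_⟩
  · obtain ⟨b, hb⟩ := hz1 δ hδ
    have hopen : IsOpen {b : 𝔅 | ‖((X : 𝔅) - algebraMap ℂ 𝔅 z) * b‖ < δ * ‖b‖} :=
      isOpen_lt (by fun_prop) (by fun_prop)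
    obtain ⟨p, hp⟩ := (UniformSpace.Completion.denseRange_coe (α := PolyE A)).exists_mem_open
      hopen ⟨b, hb⟩
    refine ⟨p, ?_⟩
    have h1 : ((X : 𝔅) - algebraMap ℂ 𝔅 z) * ((p : PolyE A) : 𝔅) =
        (((X - algebraMap ℂ (PolyE A) z) * p : PolyE A) : 𝔅) := by
      rw [UniformSpace.Completion.coe_mul, UniformSpace.Completion.coe_sub]
      rfl
    have h2 : ‖((X : 𝔅) - algebraMap ℂ 𝔅 z) * ((p : PolyE A) : 𝔅)‖ < δ * ‖((p : PolyE A) : 𝔅)‖ := hp
    rw [h1, UniformSpace.Completion.norm_coe, UniformSpace.Completion.norm_coe, normE, normE,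
      map_mul, map_sub, hX, AlgHom.commutes, Algebra.algebraMap_eq_smul_one] at h2
    exact h2
  · obtain ⟨n, hn, hn2⟩ := hz2 ρ hρ
    refine ⟨n, hn, ?_⟩
    have h1 : ((X : PolyE A) : 𝔅) ^ n = ((X ^ n : PolyE A) : 𝔅) := by
      exact (map_pow (UniformSpace.Completion.coeRingHom (α := PolyE A)) X n).symm
    rw [h1, UniformSpace.Completion.norm_coe, normE, map_pow, hX] at hn2
    exact hn2

/-- approximate eigenvectors orthogonal to a given finite-dimensional subspace -/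
theorem exists_approx {A : H →L[ℂ] H} {z : ℂ}
    (hz : ∀ δ : ℝ, 0 < δ → ∃ p : Polynomial ℂ,
        essN ((A - z • (1 : H →L[ℂ] H)) * Polynomial.aeval A p) < δ * essN (Polynomial.aeval A p))
    (F : Submodule ℂ H) [FiniteDimensional ℂ F] {δ : ℝ} (hδ : 0 < δ) :
    ∃ x ∈ Fᗮ, ‖x‖ = 1 ∧ ‖A x - z • x‖ < δ := by
  obtain ⟨p, hp⟩ := hz (δ / 2) (by positivity)
  set X := Polynomial.aeval A p with hX
  obtain ⟨r, hr, hr0, G, hG, hx⟩ := EB_of_lt hp
  have hXpos : 0 < essN X := by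
    have h1 := essN_nonneg ((A - z • (1 : H →L[ℂ] H)) * X)
    by_contra h
    have h2 : essN X ≤ 0 := not_lt.1 h
    nlinarith
  have hnot : ¬ EB X (essN X / 2) := by
    intro h
    have := essN_le h
    linarith
  have h3 : ∃ x ∈ (G ⊔ F.map (adjoint X).toLinearMap)ᗮ, essN X / 2 * ‖x‖ < ‖X x‖ := by
    by_contra hcon
    push Not at hcon
    exact hnot ⟨by positivity, _, inferInstance, hcon⟩
  obtain ⟨x, hxF, hx2⟩ := h3
  have h1 : x ∈ Gᗮ := Submodule.orthogonal_le le_sup_left hxF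
  have h2 : x ∈ (F.map (adjoint X).toLinearMap)ᗮ := Submodule.orthogonal_le le_sup_right hxF
  have h4 : X x ∈ Fᗮ := by
    rw [Submodule.mem_orthogonal] at h2 ⊢
    intro f hf
    rw [← adjoint_inner_left]
    exact h2 _ (Submodule.mem_map_of_mem hf)
  have h5 : 0 < ‖X x‖ := lt_of_le_of_lt (by positivity) hx2
  have hxpos : 0 < ‖x‖ := by
    rw [norm_pos_iff]
    rintro rfl
    simp at h5
  have h6 : ‖A (X x) - z • X x‖ < δ * ‖X x‖ := by
    have h7 := hx x h1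
    have h8 : ((A - z • (1 : H →L[ℂ] H)) * X) x = A (X x) - z • X x := rfl
    rw [h8] at h7
    calc _ ≤ r * ‖x‖ := h7
      _ < δ / 2 * essN X * ‖x‖ := mul_lt_mul_of_pos_right hr hxpos
      _ = δ * (essN X / 2 * ‖x‖) := by ring
      _ < δ * ‖X x‖ := mul_lt_mul_of_pos_left hx2 hδ
  refine ⟨((‖X x‖⁻¹ : ℝ) : ℂ) • X x, Submodule.smul_mem _ _ h4, ?_, ?_⟩
  · rw [norm_smul, Complex.norm_real, norm_inv, norm_norm, inv_mul_cancel₀ h5.ne']
  · rw [map_smul, smul_comm z, ← smul_sub, norm_smul, Complex.norm_real, norm_inv, norm_norm,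
      inv_mul_lt_iff₀ h5, mul_comm]
    exact h6

omit [CompleteSpace H] in
/-- an orthonormal sequence of approximate eigenvectors -/
theorem exists_orthonormal_seq {A : H →L[ℂ] H} {z : ℂ} {S : Set H}
    (hz : ∀ (F : Submodule ℂ H) [FiniteDimensional ℂ F] (δ : ℝ), 0 < δ →
      ∃ x ∈ Fᗮ, ‖x‖ = 1 ∧ ‖A x - z • x‖ < δ ∧ x ∈ S) {ε : ℝ} (hε : 0 < ε) :
    ∃ x : ℕ → H, Orthonormal ℂ x ∧ (∀ n, ‖A (x n) - z • x n‖ ≤ ε * (1 / 2 : ℝ) ^ n) ∧
      ∀ n, x n ∈ S := by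
  classical
  obtain ⟨f, hf, hf2⟩ := exists_seq_of_forall_finset_exists
    (P := fun q : H × ℕ => ‖q.1‖ = 1 ∧ ‖A q.1 - z • q.1‖ < ε * (1 / 2 : ℝ) ^ q.2 ∧ q.1 ∈ S)
    (r := fun q q' => ⟪q.1, q'.1⟫_ℂ = 0 ∧ q.2 < q'.2) (fun s _ => by
      set F := Submodule.span ℂ ((s.image Prod.fst : Finset H) : Set H) with hF
      set m := s.sup Prod.snd + 1 with hm
      obtain ⟨x, hx, hx1, hx2, hx3⟩ := hz F (ε * (1 / 2 : ℝ) ^ m) (by positivity)
      refine ⟨(x, m), ⟨hx1, hx2, hx3⟩, fun q hq => ⟨?_, ?_⟩⟩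
      · refine (Submodule.mem_orthogonal _ _).1 hx q.1 ?_
        exact Submodule.subset_span (by
          rw [Finset.coe_image]; exact ⟨q, hq, rfl⟩)
      · have := Finset.le_sup (f := Prod.snd) hq
        show q.2 < m
        omega)
  refine ⟨fun n => (f n).1, ⟨fun n => (hf n).1, ?_⟩, fun n => ?_, fun n => (hf n).2.2⟩
  · intro i j hij
    rcases lt_or_gt_of_ne hij with h | h
    · exact (hf2 i j h).1
    · have := (hf2 j i h).1
      show ⟪(f i).1, (f j).1⟫_ℂ = 0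
      rw [← inner_conj_symm, this, map_zero]
  · have hmono : StrictMono (fun n => (f n).2) := strictMono_nat_of_lt_succ
      (fun n => (hf2 n (n + 1) (Nat.lt_succ_self n)).2)
    have h1 : n ≤ (f n).2 := hmono.le_apply
    refine (hf n).2.1.le.trans ?_
    exact mul_le_mul_of_nonneg_left (pow_le_pow_of_le_one (by norm_num) (by norm_num) h1) hε.le

end ess

end Pool.Agent.RFX
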