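import Mathlib
import Pool.Agent.RFX.Ess

set_option autoImplicit false

/-!
# Peeling off finitely many eigenvectors
-/

namespace Pool.Agent.RFX

open scoped InnerProductSpace BigOperators
open ContinuousLinearMap Filter Topology

section peel

variable {H : Type*} [NormedAddCommGroup H] [InnerProductSpace ℂ H] [CompleteSpace H]

lemma exists_kernel (S : H →L[ℂ] H) (F : Submodule ℂ H) [FiniteDimensional ℂ F] {κ : ℝ}
    (hκ : 0 < κ) (hb : ∀ x ∈ Fᗮ, κ * ‖x‖ ≤ ‖S x‖)
    (hs : ∀ δ : ℝ, 0 < δ → ∃ y : H, ‖y‖ = 1 ∧ ‖S y‖ < δ) : ∃ y : H, ‖y‖ = 1 ∧ S y = 0 := by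
  choose y hy1 hy2 using fun n : ℕ => hs (1 / ((n : ℝ) + 1)) (by positivity)
  have hSy : Tendsto (fun n => S (y n)) atTop (𝓝 0) := by
    rw [tendsto_zero_iff_norm_tendsto_zero]
    exact squeeze_zero (fun _ => norm_nonneg _) (fun n => (hy2 n).le)
      tendsto_one_div_add_atTop_nhds_zero_nat
  -- the components in `F`
  let p : ℕ → F := fun n => ⟨F.starProjection (y n), F.starProjection_apply_mem _⟩
  have hp : ∀ n, p n ∈ Metric.closedBall (0 : F) 1 := by
    intro n
    rw [mem_closedBall_zero_iff]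
    show ‖F.starProjection (y n)‖ ≤ 1
    refine (F.starProjection.le_opNorm _).trans ?_
    rw [hy1, mul_one]
    exact F.starProjection_norm_le
  obtain ⟨z, _, φ, hφ, hz⟩ := tendsto_subseq_of_bounded (Metric.isBounded_closedBall) hp
  have hz' : Tendsto (fun n => F.starProjection (y (φ n))) atTop (𝓝 (z : H)) :=
    (continuous_subtype_val.tendsto z).comp hz
  set u : ℕ → H := fun n => y (φ n) - F.starProjection (y (φ n)) with hu
  have huF : ∀ n, u n ∈ Fᗮ := fun n => F.sub_starProjection_mem_orthogonal _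
  have hSu : Tendsto (fun n => S (u n)) atTop (𝓝 (0 - S (z : H))) := by
    have h1 : (fun n => S (u n)) = fun n => S (y (φ n)) - S (F.starProjection (y (φ n))) := by
      funext n; rw [hu, map_sub]
    rw [h1]
    exact (hSy.comp hφ.tendsto_atTop).sub ((S.continuous.tendsto _).comp hz')
  have hcau : CauchySeq u := by
    have h1 : CauchySeq (fun n => S (u n)) := hSu.cauchySeq
    rw [Metric.cauchySeq_iff] at h1 ⊢
    intro ε hε
    obtain ⟨N, hN⟩ := h1 (κ * ε) (by positivity)
    refine ⟨N, fun m hm n hn => ?_⟩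
    have h2 := hN m hm n hn
    rw [dist_eq_norm, ← map_sub] at h2
    have h3 := hb (u m - u n) (Submodule.sub_mem _ (huF m) (huF n))
    rw [dist_eq_norm]
    have h4 : κ * ‖u m - u n‖ < κ * ε := lt_of_le_of_lt h3 h2
    exact lt_of_mul_lt_mul_left h4 hκ.le
  obtain ⟨w, hw⟩ := cauchySeq_tendsto_of_complete hcau
  have hyl : Tendsto (fun n => y (φ n)) atTop (𝓝 (w + z)) := by
    have h1 : (fun n => y (φ n)) = fun n => u n + F.starProjection (y (φ n)) := by
      funext n; rw [hu]; simp
    rw [h1]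
    exact hw.add hz'
  refine ⟨w + z, ?_, ?_⟩
  · have h1 := hyl.norm
    simp only [hy1] at h1
    exact (tendsto_nhds_unique h1 tendsto_const_nhds)
  · have h1 := (S.continuous.tendsto _).comp hyl
    exact tendsto_nhds_unique h1 (hSy.comp hφ.tendsto_atTop)

omit [CompleteSpace H] in
/-- approximate eigenvectors from the Banach algebra statement -/
lemma approx_of_op {S : H →L[ℂ] H} (h : ∀ δ : ℝ, 0 < δ → ∃ b : H →L[ℂ] H, ‖S * b‖ < δ * ‖b‖)
    (δ : ℝ) (hδ : 0 < δ) : ∃ y : H, ‖y‖ = 1 ∧ ‖S y‖ < δ := by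
  obtain ⟨b, hb⟩ := h (δ / 2) (by positivity)
  have hbpos : 0 < ‖b‖ := by
    by_contra hcon
    have h1 : ‖b‖ = 0 := le_antisymm (not_lt.1 hcon) (norm_nonneg _)
    rw [h1, mul_zero] at hb
    exact absurd hb (not_lt.2 (norm_nonneg _))
  obtain ⟨x, hx⟩ : ∃ x : H, ‖b‖ / 2 * ‖x‖ < ‖b x‖ := by
    by_contra hcon
    push Not at hcon
    have := ContinuousLinearMap.opNorm_le_bound b (by positivity) hcon
    linarith
  have h5 : 0 < ‖b x‖ := lt_of_le_of_lt (by positivity) hx
  have hxpos : 0 < ‖x‖ := by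
    rw [norm_pos_iff]
    rintro rfl
    simp at h5
  refine ⟨((‖b x‖⁻¹ : ℝ) : ℂ) • b x, ?_, ?_⟩
  · rw [norm_smul, Complex.norm_real, norm_inv, norm_norm, inv_mul_cancel₀ h5.ne']
  · rw [map_smul, norm_smul, Complex.norm_real, norm_inv, norm_norm, inv_mul_lt_iff₀ h5, mul_comm]
    calc ‖S (b x)‖ = ‖(S * b) x‖ := rfl
      _ ≤ ‖S * b‖ * ‖x‖ := ContinuousLinearMap.le_opNorm _ _
      _ < δ / 2 * ‖b‖ * ‖x‖ := mul_lt_mul_of_pos_right hb hxpos
      _ = δ * (‖b‖ / 2 * ‖x‖) := by ring
      _ < δ * ‖b x‖ := mul_lt_mul_of_pos_left hx hδ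

lemma exists_eigen (N : H →L[ℂ] H) (z : ℂ) (n : ℕ) {s : ℝ} (hs : s < ‖z‖ ^ n)
    (F : Submodule ℂ H) [FiniteDimensional ℂ F] (hF : ∀ x ∈ Fᗮ, ‖(N ^ n) x‖ ≤ s * ‖x‖)
    (happ : ∀ δ : ℝ, 0 < δ → ∃ b : H →L[ℂ] H, ‖(N - algebraMap ℂ (H →L[ℂ] H) z) * b‖ < δ * ‖b‖) :
    ∃ y : H, ‖y‖ = 1 ∧ N y = z • y := by
  set S := N - algebraMap ℂ (H →L[ℂ] H) z with hS
  set G : H →L[ℂ] H := ∑ i ∈ Finset.range n, N ^ i * (algebraMap ℂ (H →L[ℂ] H) z) ^ (n - 1 - i)
    with hG
  have hGS : G * S = N ^ n - (algebraMap ℂ (H →L[ℂ] H) z) ^ n :=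
    Commute.geom_sum₂_mul (Algebra.commutes z N).symm n
  have hb : ∀ x ∈ Fᗮ, ((‖z‖ ^ n - s) / (‖G‖ + 1)) * ‖x‖ ≤ ‖S x‖ := by
    intro x hx
    have h1 : ‖(G * S) x‖ ≤ ‖G‖ * ‖S x‖ := G.le_opNorm _
    have h2 : (G * S) x = (N ^ n) x - z ^ n • x := by
      rw [hGS, ← map_pow, Algebra.algebraMap_eq_smul_one]
      rfl
    rw [h2] at h1
    have h3 : ‖z‖ ^ n * ‖x‖ - s * ‖x‖ ≤ ‖(N ^ n) x - z ^ n • x‖ := by
      have h4 := norm_sub_norm_le (z ^ n • x) ((N ^ n) x)
      rw [norm_smul, norm_pow, norm_sub_rev] at h4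
      have := hF x hx
      linarith
    rw [div_mul_eq_mul_div, div_le_iff₀ (by positivity)]
    nlinarith [norm_nonneg (S x)]
  obtain ⟨y, hy, hSy⟩ := exists_kernel S F (by
    have : 0 < ‖z‖ ^ n - s := by linarith
    positivity) hb (approx_of_op happ)
  refine ⟨y, hy, ?_⟩
  rw [hS, Algebra.algebraMap_eq_smul_one] at hSy
  have h5 : (N - z • (1 : H →L[ℂ] H)) y = N y - z • y := rfl
  rw [h5] at hSy
  exact sub_eq_zero.1 hSy

omit [CompleteSpace H] in
lemma card_bound (T : H →L[ℂ] H) (F : Submodule ℂ H) [FiniteDimensional ℂ F] {s R : ℝ}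
    (hs : 0 ≤ s) (hsR : s < R) (hF : ∀ x ∈ Fᗮ, ‖T x‖ ≤ s * ‖x‖) {k : ℕ} (x : Fin k → H)
    (hx : Orthonormal ℂ x) (hR : ∀ i, R ≤ ‖T (x i)‖) :
    (k : ℝ) * ((R - s) / (‖T‖ + 1)) ^ 2 ≤ Module.finrank ℂ F := by
  set η := (R - s) / (‖T‖ + 1) with hη
  have hηpos : 0 < η := by
    have : 0 < R - s := by linarith
    rw [hη]; positivity
  have h1 : ∀ i, η ≤ ‖F.starProjection (x i)‖ := by
    intro i
    have h2 : x i = (x i - F.starProjection (x i)) + F.starProjection (x i) := by simp
    have h3 : ‖T (x i)‖ ≤ s * ‖x i - F.starProjection (x i)‖ + ‖T‖ * ‖F.starProjection (x i)‖ := by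
      conv_lhs => rw [h2, map_add]
      refine (norm_add_le _ _).trans (add_le_add ?_ (T.le_opNorm _))
      exact hF _ (F.sub_starProjection_mem_orthogonal _)
    have h4 : ‖x i - F.starProjection (x i)‖ ≤ 1 := by
      have h5 : x i - F.starProjection (x i) = Fᗮ.starProjection (x i) := by
        rw [F.starProjection_orthogonal]; rfl
      rw [h5]
      refine (Fᗮ.starProjection.le_opNorm _).trans ?_
      rw [hx.1, mul_one]
      exact Fᗮ.starProjection_norm_le
    rw [hη, div_le_iff₀ (by positivity)]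
    have h6 := hR i
    nlinarith [norm_nonneg (F.starProjection (x i)), norm_nonneg (x i - F.starProjection (x i))]
  let b := stdOrthonormalBasis ℂ F
  have h2 : ∀ i, ‖F.starProjection (x i)‖ ^ 2 = ∑ j, ‖⟪x i, (b j : H)⟫_ℂ‖ ^ 2 := by
    intro i
    have h3 := b.sum_sq_norm_inner_left ⟨F.starProjection (x i), F.starProjection_apply_mem _⟩
    have h4 : ‖(⟨F.starProjection (x i), F.starProjection_apply_mem _⟩ : F)‖ =
      ‖F.starProjection (x i)‖ := rfl
    rw [h4] at h3
    rw [← h3]
    refine Finset.sum_congr rfl (fun j _ => ?_)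
    congr 2
    have h5 := F.starProjection_inner_eq_zero (x i) (b j : H) (b j).2
    rw [inner_sub_left] at h5
    rw [Submodule.coe_inner]
    exact (sub_eq_zero.1 h5).symm
  calc (k : ℝ) * η ^ 2 = ∑ _i : Fin k, η ^ 2 := by simp
    _ ≤ ∑ i, ‖F.starProjection (x i)‖ ^ 2 :=
        Finset.sum_le_sum (fun i _ => pow_le_pow_left₀ hηpos.le (h1 i) 2)
    _ = ∑ i, ∑ j, ‖⟪x i, (b j : H)⟫_ℂ‖ ^ 2 := Finset.sum_congr rfl (fun i _ => h2 i)
    _ = ∑ j, ∑ i, ‖⟪x i, (b j : H)⟫_ℂ‖ ^ 2 := Finset.sum_comm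
    _ ≤ ∑ _j : Fin (Module.finrank ℂ F), (1 : ℝ) := by
        refine Finset.sum_le_sum (fun j _ => ?_)
        have h3 := hx.sum_inner_products_le (x := (b j : H)) (s := Finset.univ)
        have h4 : ‖(b j : H)‖ = 1 := b.orthonormal.1 j
        rwa [h4, one_pow] at h3
    _ = Module.finrank ℂ F := by simp

/-- **The peeling lemma.** -/
theorem peel (hinf : ¬ FiniteDimensional ℂ H) (N : H →L[ℂ] H) {ρ : ℝ} (hρ : 0 < ρ) {n0 : ℕ}
    (hn0 : 1 ≤ n0) (he : essN (N ^ n0) < ρ ^ n0) :
    ∃ q : Polynomial ℂ, q ≠ 0 ∧ ∀ ε : ℝ, 0 < ε → ∃ n : ℕ, 1 ≤ n ∧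
      ‖Polynomial.aeval N q * N ^ n‖ < ε * ρ ^ n := by
  by_contra hdone
  obtain ⟨s, hsρ, hs0, F, hFfd, hF⟩ := EB_of_lt he
  have hnt : Nontrivial H := by
    by_contra h
    rw [not_nontrivial_iff_subsingleton] at h
    exact hinf inferInstance
  have good : ∀ k : ℕ, ∃ (x : Fin k → H) (q : Polynomial ℂ), Orthonormal ℂ x ∧ q ≠ 0 ∧
      (∀ v ∈ Submodule.span ℂ (Set.range x), N v ∈ Submodule.span ℂ (Set.range x)) ∧
      (∀ v ∈ Submodule.span ℂ (Set.range x), Polynomial.aeval N q v = 0) ∧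
      (∀ i, ρ ^ n0 ≤ ‖(N ^ n0) (x i)‖) := by
    intro k
    induction k with
    | zero =>
      refine ⟨Fin.elim0, 1, ⟨fun i => i.elim0, fun i => i.elim0⟩, one_ne_zero, ?_, ?_,
        fun i => i.elim0⟩
      · intro v hv
        have h1 : Set.range (Fin.elim0 : Fin 0 → H) = ∅ := Set.range_eq_empty _
        rw [h1, Submodule.span_empty, Submodule.mem_bot] at hv
        rw [hv, map_zero]
        exact Submodule.zero_mem _
      · intro v hv
        have h1 : Set.range (Fin.elim0 : Fin 0 → H) = ∅ := Set.range_eq_empty _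
        rw [h1, Submodule.span_empty, Submodule.mem_bot] at hv
        rw [hv, map_zero]
    | succ k ih =>
      obtain ⟨x, q, hx, hq, hinv, hker, hbig⟩ := ih
      set M := Submodule.span ℂ (Set.range x) with hM
      have : FiniteDimensional ℂ M := FiniteDimensional.span_of_finite ℂ (Set.finite_range x)
      set P : H →L[ℂ] H := M.starProjection with hP
      set Q : H →L[ℂ] H := 1 - P with hQ
      have hPP : P * P = P := by
        ext1 v
        exact M.starProjection_eq_self_iff.2 (M.starProjection_apply_mem v)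
      have hQP : Q * P = 0 := by rw [hQ, sub_mul, one_mul, hPP, sub_self]
      have hPQ : P * Q = 0 := by rw [hQ, mul_sub, mul_one, hPP, sub_self]
      have hQQ : Q * Q = Q := by
        rw [hQ, mul_sub, mul_one, sub_mul, one_mul, hPP, sub_self, sub_zero]
      have hQn : ‖Q‖ ≤ 1 := by
        have h1 : Q = Mᗮ.starProjection := by
          rw [M.starProjection_orthogonal']
        rw [h1]
        exact Mᗮ.starProjection_norm_le
      have hPN : P * (N * P) = N * P := by
        ext1 v
        exact M.starProjection_eq_self_iff.2 (hinv _ (M.starProjection_apply_mem v))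
      have hQNP : Q * (N * P) = 0 := by rw [hQ, sub_mul, one_mul, hPN, sub_self]
      set N' : H →L[ℂ] H := Q * N with hN'
      have hN'Q : N' * Q = N' := by
        rw [hN', hQ]
        have : (1 - P) * N * (1 - P) = (1 - P) * N - (1 - P) * (N * P) := by
          rw [mul_sub, mul_one, mul_assoc]
        rw [this, ← hQ, hQNP, sub_zero]
      have hpow : ∀ n, Q * N ^ n = N' ^ n * Q := by
        intro n
        induction n with
        | zero => rw [pow_zero, pow_zero, mul_one, one_mul]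
        | succ n ih =>
          rw [pow_succ, ← mul_assoc, ih, mul_assoc, ← hN', pow_succ, mul_assoc, hN'Q]
      have hpow' : ∀ n, 1 ≤ n → N' ^ n * Q = N' ^ n := by
        intro n hn
        obtain ⟨m, rfl⟩ : ∃ m, n = m + 1 := ⟨n - 1, by omega⟩
        rw [pow_succ, mul_assoc, hN'Q]
      have hqP : Polynomial.aeval N q * P = 0 := by
        ext1 v
        exact hker _ (M.starProjection_apply_mem v)
      obtain ⟨z, hz1, hz2⟩ := spectral_point (R := H →L[ℂ] H) N'
      by_cases hzρ : ‖z‖ < ρ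
      · exfalso
        refine hdone ⟨q, hq, fun ε hε => ?_⟩
        obtain ⟨n1, hn1, hn2⟩ := hz2 ρ hzρ
        have hρn : 0 < ρ ^ n1 := by positivity
        set θ := ‖N' ^ n1‖ / ρ ^ n1 with hθ
        have hθ1 : θ < 1 := (div_lt_one hρn).2 hn2
        have hθ0 : 0 ≤ θ := by rw [hθ]; positivity
        obtain ⟨j, hj⟩ := exists_pow_lt_of_lt_one
          (show 0 < ε / (‖Polynomial.aeval N q‖ + 1) by positivity) hθ1
        refine ⟨n1 * (j + 1), Nat.mul_pos hn1 (Nat.succ_pos j), ?_⟩
        have h1 : Polynomial.aeval N q * N ^ (n1 * (j + 1)) =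
            Polynomial.aeval N q * (N' ^ (n1 * (j + 1)) * Q) := by
          rw [← hpow, ← mul_assoc, hQ, mul_sub, mul_one, hqP, sub_zero]
        rw [h1]
        have h2 : ‖N' ^ (n1 * (j + 1))‖ ≤ θ ^ (j + 1) * ρ ^ (n1 * (j + 1)) := by
          rw [pow_mul, pow_mul, ← mul_pow, hθ, div_mul_cancel₀ _ hρn.ne']
          exact norm_pow_le' _ (by omega)
        have h3 : θ ^ (j + 1) ≤ θ ^ j := pow_le_pow_of_le_one hθ0 hθ1.le (by omega)
        have hρn2 : 0 < ρ ^ (n1 * (j + 1)) := by positivity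
        calc _ ≤ ‖Polynomial.aeval N q‖ * (‖N' ^ (n1 * (j + 1))‖ * ‖Q‖) :=
              (norm_mul_le _ _).trans (mul_le_mul_of_nonneg_left (norm_mul_le _ _) (norm_nonneg _))
          _ ≤ ‖Polynomial.aeval N q‖ * ((θ ^ j * ρ ^ (n1 * (j + 1))) * 1) := by
              refine mul_le_mul_of_nonneg_left ?_ (norm_nonneg _)
              exact mul_le_mul (h2.trans (mul_le_mul_of_nonneg_right h3 hρn2.le)) hQn
                (norm_nonneg _) (by positivity)
          _ = (‖Polynomial.aeval N q‖ * θ ^ j) * ρ ^ (n1 * (j + 1)) := by ring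
          _ < ε * ρ ^ (n1 * (j + 1)) := by
              refine mul_lt_mul_of_pos_right ?_ hρn2
              have h4 : θ ^ j * (‖Polynomial.aeval N q‖ + 1) < ε :=
                (lt_div_iff₀ (by positivity)).1 hj
              have h5 : 0 ≤ θ ^ j := pow_nonneg hθ0 j
              nlinarith
      · have hzρ' : ρ ≤ ‖z‖ := not_lt.1 hzρ
        have hz0 : z ≠ 0 := by
          rintro rfl
          rw [norm_zero] at hzρ'
          linarith
        have hsz : s < ‖z‖ ^ n0 := lt_of_lt_of_le hsρ (pow_le_pow_left₀ hρ.le hzρ' n0)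
        have hN'n : N' ^ n0 = Q * N ^ n0 := by rw [hpow, hpow' n0 hn0]
        obtain ⟨y, hy1, hy2⟩ := exists_eigen N' z n0 hsz F (fun v hv => by
          rw [hN'n]
          calc ‖(Q * N ^ n0) v‖ ≤ ‖Q‖ * ‖(N ^ n0) v‖ := Q.le_opNorm _
            _ ≤ 1 * ‖(N ^ n0) v‖ := mul_le_mul_of_nonneg_right hQn (norm_nonneg _)
            _ = ‖(N ^ n0) v‖ := one_mul _
            _ ≤ s * ‖v‖ := hF v hv) hz1
        -- `y` is orthogonal to `M`
        have hyP : P y = 0 := by
          have h1 : P (N' y) = 0 := by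
            have : (P * N') y = 0 := by
              rw [hN', ← mul_assoc, hPQ, zero_mul]; rfl
            exact this
          rw [hy2, map_smul] at h1
          exact (smul_eq_zero.1 h1).resolve_left hz0
        have hyM : y ∈ Mᗮ := by
          have h1 := M.sub_starProjection_mem_orthogonal y
          rw [← hP, hyP, sub_zero] at h1
          exact h1
        have hNy : N y = z • y + P (N y) := by
          have h1 : N' y = N y - P (N y) := rfl
          rw [← hy2, h1, sub_add_cancel]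
        have hpowy : ∀ n, (N' ^ n) y = z ^ n • y := by
          intro n
          induction n with
          | zero => rw [pow_zero, pow_zero, one_smul]; rfl
          | succ n ih =>
            have h1 : (N' ^ (n + 1)) y = (N' ^ n) (N' y) := by rw [pow_succ]; rfl
            rw [h1, hy2, map_smul, ih, smul_smul, pow_succ, mul_comm]
        have hybig : ρ ^ n0 ≤ ‖(N ^ n0) y‖ := by
          have h1 : (N' ^ n0) y = Q ((N ^ n0) y) := by rw [hN'n]; rfl
          have h2 : ‖(N' ^ n0) y‖ = ‖z‖ ^ n0 := by rw [hpowy, norm_smul, hy1, mul_one, norm_pow]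
          calc ρ ^ n0 ≤ ‖z‖ ^ n0 := pow_le_pow_left₀ hρ.le hzρ' n0
            _ = ‖Q ((N ^ n0) y)‖ := by rw [← h2, h1]
            _ ≤ ‖Q‖ * ‖(N ^ n0) y‖ := Q.le_opNorm _
            _ ≤ 1 * ‖(N ^ n0) y‖ := mul_le_mul_of_nonneg_right hQn (norm_nonneg _)
            _ = _ := one_mul _
        have hPM : ∀ v, P v ∈ M := fun v => M.starProjection_apply_mem v
        have hrange : Set.range (Fin.cons y x : Fin (k + 1) → H) = insert y (Set.range x) :=
          Fin.range_cons y x
        refine ⟨Fin.cons y x, q * (Polynomial.X - Polynomial.C z), ?_, ?_, ?_, ?_, ?_⟩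
        · have hyx : ∀ j, ⟪y, x j⟫_ℂ = 0 := fun j =>
            (Submodule.mem_orthogonal' _ _).1 hyM _ (Submodule.subset_span ⟨j, rfl⟩)
          refine ⟨fun i => ?_, ?_⟩
          · refine Fin.cases ?_ (fun i => ?_) i
            · simpa using hy1
            · simpa using hx.1 i
          · intro i j
            refine Fin.cases ?_ (fun i => ?_) i <;> refine Fin.cases ?_ (fun j => ?_) j
            · intro h; exact absurd rfl h
            · intro _
              simpa using hyx j
            · intro _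
              have h9 : ⟪x i, y⟫_ℂ = 0 := by rw [← inner_conj_symm, hyx i, map_zero]
              simpa using h9
            · intro h
              have hij : i ≠ j := fun h' => h (by rw [h'])
              simpa using hx.2 hij
        · exact mul_ne_zero hq (Polynomial.X_sub_C_ne_zero z)
        · intro v hv
          rw [hrange] at hv ⊢
          obtain ⟨a, m, hm, rfl⟩ := Submodule.mem_span_insert.1 hv
          have hsub : Submodule.span ℂ (Set.range x) ≤ Submodule.span ℂ (insert y (Set.range x)) :=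
            Submodule.span_mono (Set.subset_insert _ _)
          rw [map_add, map_smul, hNy]
          refine Submodule.add_mem _ (Submodule.smul_mem _ _ (Submodule.add_mem _ ?_ ?_)) ?_
          · exact Submodule.smul_mem _ _ (Submodule.subset_span (Set.mem_insert _ _))
          · exact hsub (hPM _)
          · exact hsub (hinv m hm)
        · intro v hv
          rw [hrange] at hv
          obtain ⟨a, m, hm, rfl⟩ := Submodule.mem_span_insert.1 hv
          have h1 : Polynomial.aeval N (q * (Polynomial.X - Polynomial.C z)) (a • y + m) =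
              Polynomial.aeval N q (N (a • y + m) - z • (a • y + m)) := by
            rw [map_mul, map_sub, Polynomial.aeval_X, Polynomial.aeval_C,
              Algebra.algebraMap_eq_smul_one]
            rfl
          rw [h1]
          refine hker _ ?_
          have h2 : N (a • y + m) - z • (a • y + m) = a • P (N y) + (N m - z • m) := by
            rw [map_add, map_smul]
            conv_lhs => rw [hNy]
            rw [smul_add, smul_add, smul_comm z a y]
            abel
          rw [h2]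
          exact Submodule.add_mem _ (Submodule.smul_mem _ _ (hPM _))
            (Submodule.sub_mem _ (hinv m hm) (Submodule.smul_mem _ _ hm))
        · intro i
          refine Fin.cases ?_ (fun i => ?_) i
          · simpa using hybig
          · simpa using hbig i
  -- contradiction
  set η := (ρ ^ n0 - s) / (‖N ^ n0‖ + 1) with hη
  have hηpos : 0 < η := by
    have : 0 < ρ ^ n0 - s := by linarith
    rw [hη]; positivity
  obtain ⟨k, hk⟩ := exists_nat_gt ((Module.finrank ℂ F : ℝ) / η ^ 2)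
  obtain ⟨x, q, hx, _, _, _, hbig⟩ := good k
  have h1 := card_bound (N ^ n0) F hs0 hsρ hF x hx hbig
  rw [div_lt_iff₀ (by positivity)] at hk
  rw [← hη] at h1
  linarith

end peel

end Pool.Agent.RFX
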