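import Mathlib
import Pool.Agent.RFX.Build
import Pool.Agent.RFX.Peel

set_option autoImplicit false

/-!
# Counterexamples near every operator
-/

namespace Pool.Agent.RFX

open scoped InnerProductSpace BigOperators
open ContinuousLinearMap Filter Topology

section main

variable {H : Type*} [NormedAddCommGroup H] [InnerProductSpace ℂ H] [CompleteSpace H]

/-- the conclusion: all finite ampliations are nonreflexive, with commuting witnesses -/
def Bad (B : H →L[ℂ] H) : Prop :=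
  ∀ k : ℕ, ∃ C : H →L[ℂ] H, Commute B C ∧ LatLE (ampl k B) (ampl k C) ∧ ¬ InW B C

/-- the projection attached to an orthonormal sequence -/
theorem exists_proj (A : H →L[ℂ] H) (z : ℂ) (x : ℕ → H) (hx : Orthonormal ℂ x) {ε : ℝ}
    (hε : 0 < ε) (hAx : ∀ n, ‖A (x n) - z • x n‖ ≤ ε * (1 / 2 : ℝ) ^ n) :
    ∃ P : H →L[ℂ] H, P * P = P ∧ adjoint P = P ∧ (∀ n, P (x n) = x n) ∧
      ‖(A - z • (1 : H →L[ℂ] H)) * P‖ ≤ 2 * ε ∧ essN ((A - z • (1 : H →L[ℂ] H)) * P) = 0 := by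
  classical
  have hf := hx.orthogonalFamily
  set J : lp (fun _ : ℕ => ℂ) 2 →L[ℂ] H := hf.linearIsometry.toContinuousLinearMap with hJ
  have hJs : ∀ w : lp (fun _ : ℕ => ℂ) 2, HasSum (fun n => w n • x n) (J w) := by
    intro w
    show HasSum (fun n => w n • x n) (hf.linearIsometry w)
    have := hf.hasSum_linearIsometry w
    simpa using this
  have hJJ : (adjoint J) ∘L J = ContinuousLinearMap.id ℂ _ := by
    ext1 w
    refine ext_inner_left ℂ (fun y => ?_)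
    rw [ContinuousLinearMap.comp_apply, adjoint_inner_right]
    simp [hJ]
  have hJJ' : ∀ w, adjoint J (J w) = w := fun w => by
    have := congrArg (fun f => f w) hJJ
    simpa using this
  have hJx : ∀ n, J (lp.single 2 n (1 : ℂ)) = x n := by
    intro n
    rw [hJ]
    simp
  have hcoord : ∀ (y : H) (n : ℕ), (adjoint J y) n = ⟪x n, y⟫_ℂ := by
    intro y n
    rw [← hJx n, ← adjoint_inner_right, lp.inner_single_left]
    simp
  have hJn : ∀ y, ‖adjoint J y‖ ≤ ‖y‖ := by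
    intro y
    have h1 : ‖adjoint J‖ ≤ 1 := by
      rw [LinearIsometryEquiv.norm_map, hJ]
      exact hf.linearIsometry.norm_toContinuousLinearMap_le
    calc _ ≤ ‖adjoint J‖ * ‖y‖ := (adjoint J).le_opNorm _
      _ ≤ 1 * ‖y‖ := mul_le_mul_of_nonneg_right h1 (norm_nonneg _)
      _ = ‖y‖ := one_mul _
  set P : H →L[ℂ] H := J ∘L (adjoint J) with hP
  -- the sum formula
  have hsum : ∀ y, HasSum (fun n => (adjoint J y) n • (A (x n) - z • x n))
      (((A - z • (1 : H →L[ℂ] H)) * P) y) := by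
    intro y
    have h1 := (A - z • (1 : H →L[ℂ] H)).hasSum (hJs (adjoint J y))
    have h2 : (fun n => (A - z • (1 : H →L[ℂ] H)) ((adjoint J y) n • x n)) =
        fun n => (adjoint J y) n • (A (x n) - z • x n) := by
      funext n
      rw [map_smul]
      rfl
    rw [h2] at h1
    exact h1
  have hcle : ∀ y n, ‖(adjoint J y) n‖ ≤ ‖y‖ := fun y n => by
    rw [hcoord]
    have := norm_inner_le_norm (𝕜 := ℂ) (x n) y
    rwa [hx.1, one_mul] at this
  refine ⟨P, ?_, ?_, ?_, ?_, ?_⟩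
  · ext1 y
    show J (adjoint J (J (adjoint J y))) = J (adjoint J y)
    rw [hJJ']
  · rw [hP, adjoint_comp, adjoint_adjoint]
  · intro n
    show J (adjoint J (x n)) = x n
    conv_lhs => rw [← hJx n]
    rw [hJJ', hJx]
  · refine ContinuousLinearMap.opNorm_le_bound _ (by positivity) (fun y => ?_)
    rw [← (hsum y).tsum_eq]
    have h1 : HasSum (fun n : ℕ => (‖y‖ * ε) * (1 / 2 : ℝ) ^ n) ((‖y‖ * ε) * 2) :=
      hasSum_geometric_two.mul_left _
    refine (tsum_of_norm_bounded h1 (fun n => ?_)).trans (le_of_eq (by ring))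
    rw [norm_smul, mul_assoc]
    exact mul_le_mul (hcle y n) (hAx n) (norm_nonneg _) (norm_nonneg _)
  · refine le_antisymm (le_of_forall_pos_le_add (fun r hr => ?_)) (essN_nonneg _)
    rw [zero_add]
    obtain ⟨m, hm⟩ := exists_pow_lt_of_lt_one (show 0 < r / (2 * ε) by positivity)
      (by norm_num : (1 / 2 : ℝ) < 1)
    refine essN_le ⟨hr.le, Submodule.span ℂ ((Finset.range m).image x : Set H), ?_, fun y hy => ?_⟩
    · exact FiniteDimensional.span_finset ℂ _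
    have hy0 : ∀ n, n < m → (adjoint J y) n = 0 := by
      intro n hn
      rw [hcoord]
      refine (Submodule.mem_orthogonal _ _).1 hy _ (Submodule.subset_span ?_)
      rw [Finset.coe_image]
      exact ⟨n, by simpa using hn, rfl⟩
    rw [← (hsum y).tsum_eq]
    have h1 : HasSum (fun n : ℕ => (‖y‖ * ε * (1 / 2 : ℝ) ^ m) * (1 / 2 : ℝ) ^ n)
        ((‖y‖ * ε * (1 / 2 : ℝ) ^ m) * 2) := hasSum_geometric_two.mul_left _
    have hs := hsum y
    have h2 := (hasSum_nat_add_iff' m).2 hs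
    have h3 : ∑ i ∈ Finset.range m, (adjoint J y) i • (A (x i) - z • x i) = 0 := by
      refine Finset.sum_eq_zero (fun i hi => ?_)
      rw [hy0 i (Finset.mem_range.1 hi), zero_smul]
    rw [h3, sub_zero] at h2
    rw [hs.tsum_eq, ← h2.tsum_eq]
    refine (tsum_of_norm_bounded h1 (fun n => ?_)).trans ?_
    · rw [norm_smul]
      calc _ ≤ ‖y‖ * (ε * (1 / 2 : ℝ) ^ (n + m)) :=
            mul_le_mul (hcle y _) (hAx _) (norm_nonneg _) (norm_nonneg _)
        _ = _ := by rw [pow_add]; ring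
    · have h4 : (1 / 2 : ℝ) ^ m * (2 * ε) ≤ r := ((lt_div_iff₀ (by positivity)).1 hm).le
      nlinarith [norm_nonneg y]

/-- the essential norm of the powers of the compression -/
lemma essN_compression (A P : H →L[ℂ] H) (z : ℂ) (hP : P * P = P) (hQ : ‖1 - P‖ ≤ 1)
    (hK : essN ((A - z • (1 : H →L[ℂ] H)) * P) = 0) (n : ℕ) :
    essN (((1 - P) * A * (1 - P)) ^ (n + 1)) ≤ essN (A ^ (n + 1)) := by
  set Q := 1 - P with hQd
  set A2 := Q * A * Q with hA2
  have hQQ : Q * Q = Q := by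
    rw [hQd, mul_sub, mul_one, sub_mul, one_mul, hP, sub_self, sub_zero]
  have hQP : Q * P = 0 := by rw [hQd, sub_mul, one_mul, hP, sub_self]
  have hA2Q : A2 * Q = A2 := by rw [hA2, mul_assoc, hQQ]
  have hQ1 : essN Q ≤ 1 := (essN_le_norm _).trans hQ
  -- `Q A = A2 + Q K`
  have hQA : Q * A - A2 = Q * ((A - z • (1 : H →L[ℂ] H)) * P) := by
    have h1 : A2 = Q * A - Q * A * P := by rw [hA2, hQd, mul_sub, mul_one]
    rw [h1, sub_sub_cancel, sub_mul A, mul_sub Q (A * P), smul_mul_assoc, one_mul, mul_smul_comm,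
      hQP, smul_zero, sub_zero, mul_assoc]
  have he1 : essN (Q * A - A2) = 0 := by
    rw [hQA]
    refine le_antisymm ((essN_mul_le _ _).trans ?_) (essN_nonneg _)
    rw [hK, mul_zero]
  have he : ∀ n : ℕ, essN (Q * A ^ (n + 1) - A2 ^ (n + 1)) = 0 := by
    intro n
    induction n with
    | zero => rw [zero_add, pow_one, pow_one]; exact he1
    | succ n ih =>
      have h2 : Q * A ^ (n + 1 + 1) - A2 ^ (n + 1 + 1) =
          (Q * A ^ (n + 1) - A2 ^ (n + 1)) * A + A2 ^ (n + 1) * (Q * A - A2) := by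
        have h3 : A2 ^ (n + 1) * Q = A2 ^ (n + 1) := by rw [pow_succ, mul_assoc, hA2Q]
        have h4 : A2 ^ (n + 1) * (Q * A) = A2 ^ (n + 1) * A := by rw [← mul_assoc, h3]
        rw [sub_mul (Q * A ^ (n + 1)), mul_sub (A2 ^ (n + 1)), h4, mul_assoc Q, ← pow_succ,
          ← pow_succ]
        abel
      refine le_antisymm ?_ (essN_nonneg _)
      rw [h2]
      refine (essN_add_le _ _).trans ?_
      have h4 := essN_mul_le (Q * A ^ (n + 1) - A2 ^ (n + 1)) A
      have h5 := essN_mul_le (A2 ^ (n + 1)) (Q * A - A2)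
      rw [ih, zero_mul] at h4
      rw [he1, mul_zero] at h5
      linarith
  have h6 : A2 ^ (n + 1) = -(Q * A ^ (n + 1) - A2 ^ (n + 1)) + Q * A ^ (n + 1) := by abel
  rw [h6]
  refine (essN_add_le _ _).trans ?_
  rw [essN_neg, he n, zero_add]
  refine (essN_mul_le _ _).trans ?_
  exact mul_le_of_le_one_left (essN_nonneg _) hQ1

lemma norm_one_sub_proj (P : H →L[ℂ] H) (hP : P * P = P) (hPa : adjoint P = P) :
    ‖1 - P‖ ≤ 1 := by
  set Q := 1 - P with hQ
  have hQQ : Q * Q = Q := by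
    rw [hQ, mul_sub, mul_one, sub_mul, one_mul, hP, sub_self, sub_zero]
  have hQa : adjoint Q = Q := by
    rw [hQ, map_sub, hPa]
    congr 1
    exact star_one (H →L[ℂ] H)
  have h1 : ‖(adjoint Q) ∘L Q‖ = ‖Q‖ * ‖Q‖ := ContinuousLinearMap.norm_adjoint_comp_self _
  have h2 : (adjoint Q) ∘L Q = Q := by rw [hQa]; exact hQQ
  rw [h2] at h1
  nlinarith [norm_nonneg Q]

/-- a point near `z` of larger modulus avoiding the zeros of `q` -/
lemma exists_mu (z : ℂ) (q : Polynomial ℂ) (hq : q ≠ 0) {t : ℝ} (ht : 0 < t) :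
    ∃ μ : ℂ, ‖μ - z‖ ≤ 2 * t ∧ ‖z‖ + t ≤ ‖μ‖ ∧ q.eval μ ≠ 0 := by
  obtain ⟨u, hu1, hu2⟩ : ∃ u : ℂ, ‖u‖ = 1 ∧ ∀ s : ℝ, 0 ≤ s → ‖z + (s : ℂ) * u‖ = ‖z‖ + s := by
    by_cases hz : z = 0
    · refine ⟨1, norm_one, fun s hs => ?_⟩
      rw [hz, norm_zero, zero_add, zero_add, mul_one, Complex.norm_real, Real.norm_of_nonneg hs]
    · have hzn : 0 < ‖z‖ := norm_pos_iff.2 hz
      refine ⟨((‖z‖⁻¹ : ℝ) : ℂ) * z, ?_, fun s hs => ?_⟩
      · rw [norm_mul, Complex.norm_real, norm_inv, norm_norm, inv_mul_cancel₀ hzn.ne']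
      · have h1 : z + (s : ℂ) * (((‖z‖⁻¹ : ℝ) : ℂ) * z) = ((1 + s * ‖z‖⁻¹ : ℝ) : ℂ) * z := by
          push_cast; ring
        rw [h1, norm_mul, Complex.norm_real, Real.norm_of_nonneg (by positivity)]
        field_simp
  have hu0 : u ≠ 0 := by
    rintro rfl
    rw [norm_zero] at hu1
    exact zero_ne_one hu1
  have hinf : (Set.Icc t (2 * t)).Infinite := Set.Icc_infinite (by linarith)
  have hinj : Function.Injective (fun s : ℝ => z + (s : ℂ) * u) := by
    intro a b hab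
    have h1 : (a : ℂ) * u = (b : ℂ) * u := add_left_cancel hab
    exact_mod_cast mul_right_cancel₀ hu0 h1
  obtain ⟨w, ⟨s, hs, rfl⟩, hw⟩ := (hinf.image hinj.injOn).exists_notMem_finset q.roots.toFinset
  refine ⟨z + (s : ℂ) * u, ?_, ?_, ?_⟩
  · rw [add_sub_cancel_left, norm_mul, hu1, mul_one, Complex.norm_real,
      Real.norm_of_nonneg (ht.le.trans hs.1)]
    exact hs.2
  · rw [hu2 s (ht.le.trans hs.1)]
    have := hs.1
    linarith
  · intro h
    refine hw ?_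
    rw [Multiset.mem_toFinset, Polynomial.mem_roots hq]
    exact h

/-- **Counterexamples are norm dense.** -/
theorem dense_bad (hinf : ¬ FiniteDimensional ℂ H) (A : H →L[ℂ] H) {ε : ℝ} (hε : 0 < ε) :
    ∃ B : H →L[ℂ] H, ‖B - A‖ < ε ∧ Bad B := by
  obtain ⟨z, hz1, hz2⟩ := exists_lambda hinf A
  obtain ⟨x, hx, hAx, -⟩ := exists_orthonormal_seq (A := A) (z := z) (S := Set.univ)
    (fun F _ δ hδ => by
      obtain ⟨x, h1, h2, h3⟩ := exists_approx hz1 F hδ
      exact ⟨x, h1, h2, h3, Set.mem_univ _⟩) (ε := ε / 8) (by positivity)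
  obtain ⟨P, hP, hPa, hPx, hn, hK⟩ := exists_proj A z x hx (by positivity) hAx
  have hQ1 := norm_one_sub_proj P hP hPa
  obtain ⟨U, Uo, hU, hU', hUo, hUo', hPU⟩ := exists_fam x hx
  obtain ⟨hPU1, hPUo⟩ := hPU P hPx
  have hUP : ∀ i, (adjoint (U i)) ∘L P = adjoint (U i) := by
    intro i
    have := congrArg adjoint (hPU1 i)
    rw [adjoint_comp, hPa] at this
    exact this
  obtain ⟨n0, hn0, hn0'⟩ := hz2 (‖z‖ + ε / 8) (by linarith)
  have hρ : 0 < ‖z‖ + ε / 8 := by positivity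
  obtain ⟨m, rfl⟩ : ∃ m, n0 = m + 1 := ⟨n0 - 1, by omega⟩
  obtain ⟨q, hq, hqn⟩ := peel hinf ((1 - P) * A * (1 - P)) hρ hn0
    (lt_of_le_of_lt (essN_compression A P z hP hQ1 hK m) hn0')
  obtain ⟨μ, hμ1, hμ2, hμ3⟩ := exists_mu z q hq (t := ε / 8) (by positivity)
  have hμpos : 0 < ‖μ‖ := lt_of_lt_of_le hρ hμ2
  have hqμ : 0 < ‖q.eval μ‖ := norm_pos_iff.2 hμ3
  obtain ⟨n, hn1, hn2⟩ := hqn ‖q.eval μ‖ hqμ
  set c : ℂ := q.eval μ * μ ^ n with hc
  have hcn : ‖c‖ = ‖q.eval μ‖ * ‖μ‖ ^ n := by rw [hc, norm_mul, norm_pow]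
  have hcpos : 0 < ‖c‖ := by rw [hcn]; positivity
  have hc0 : c ≠ 0 := norm_pos_iff.1 hcpos
  set f : Polynomial ℂ := Polynomial.C c⁻¹ * (q * Polynomial.X ^ n) with hf
  have hf1 : f.eval μ = 1 := by
    rw [hf, Polynomial.eval_mul, Polynomial.eval_mul, Polynomial.eval_C, Polynomial.eval_pow,
      Polynomial.eval_X, ← hc, inv_mul_cancel₀ hc0]
  have hf2 : ‖Polynomial.aeval ((1 - P) * A * (1 - P)) f * (1 - P)‖ < 1 := by
    have h1 : ‖Polynomial.aeval ((1 - P) * A * (1 - P)) f‖ < 1 := by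
      rw [hf, map_mul, map_mul, map_pow, Polynomial.aeval_C, Polynomial.aeval_X,
        Algebra.algebraMap_eq_smul_one, smul_mul_assoc, one_mul, norm_smul, norm_inv,
        inv_mul_lt_iff₀ hcpos, mul_one, hcn]
      refine lt_of_lt_of_le hn2 ?_
      exact mul_le_mul_of_nonneg_left (pow_le_pow_left₀ hρ.le hμ2 n) hqμ.le
    calc _ ≤ ‖Polynomial.aeval ((1 - P) * A * (1 - P)) f‖ * ‖1 - P‖ := norm_mul_le _ _
      _ ≤ ‖Polynomial.aeval ((1 - P) * A * (1 - P)) f‖ * 1 :=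
          mul_le_mul_of_nonneg_left hQ1 (norm_nonneg _)
      _ < 1 := by rw [mul_one]; exact h1
  obtain ⟨B, hB1, -, hB2⟩ := build P A hP U Uo hU hU' hUo hUo' hPU1 hPUo hUP μ f hf1 hf2 (ε / 4)
    (by positivity)
  refine ⟨B, ?_, hB2⟩
  have hPn : ‖P‖ ≤ 1 := by
    have h1 : ‖(adjoint P) ∘L P‖ = ‖P‖ * ‖P‖ := ContinuousLinearMap.norm_adjoint_comp_self _
    have h2 : (adjoint P) ∘L P = P := by rw [hPa]; exact hP
    rw [h2] at h1
    nlinarith [norm_nonneg P]
  have h1 : B - A = (B - (A * (1 - P) + μ • P)) + (-((A - z • (1 : H →L[ℂ] H)) * P) +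
      (μ - z) • P) := by
    rw [mul_sub, mul_one, sub_mul, smul_mul_assoc, one_mul, sub_smul]
    abel
  rw [h1]
  have h2 : ‖(μ - z) • P‖ ≤ 2 * (ε / 8) * 1 := by
    rw [norm_smul]
    exact mul_le_mul hμ1 hPn (norm_nonneg _) (by positivity)
  have h3 : ‖-((A - z • (1 : H →L[ℂ] H)) * P)‖ ≤ 2 * (ε / 8) := by rw [norm_neg]; exact hn
  calc _ ≤ ‖B - (A * (1 - P) + μ • P)‖ + (‖-((A - z • (1 : H →L[ℂ] H)) * P)‖ + ‖(μ - z) • P‖) :=
        (norm_add_le _ _).trans (add_le_add le_rfl (norm_add_le _ _))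
    _ < ε / 4 + (2 * (ε / 8) + 2 * (ε / 8) * 1) := by
        have := add_le_add h3 h2
        linarith
    _ < ε := by linarith

end main

end Pool.Agent.RFX
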