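import Mathlib
import Pool.Agent.RFX.Main

set_option autoImplicit false

/-!
# Counterexamples near every compact operator, inside the compact operators
-/

namespace Pool.Agent.RFX

open scoped InnerProductSpace BigOperators
open ContinuousLinearMap Filter Topology

section comp

variable {H : Type*} [NormedAddCommGroup H] [InnerProductSpace ℂ H] [CompleteSpace H]

/-- a compact operator is nearly a finite-rank one -/
lemma exists_finite_approx (A : H →L[ℂ] H) (hA : IsCompactOperator A) {ε : ℝ} (hε : 0 < ε) :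
    ∃ F : Submodule ℂ H, ∃ _ : FiniteDimensional ℂ F, ‖A - F.starProjection * A‖ ≤ ε := by
  have htb : TotallyBounded (A '' Metric.closedBall 0 1) :=
    (hA.isCompact_closure_image_closedBall (1 : ℝ)).totallyBounded.subset subset_closure
  obtain ⟨t, ht, hcov⟩ := Metric.totallyBounded_iff.1 htb ε hε
  refine ⟨Submodule.span ℂ t, FiniteDimensional.span_of_finite ℂ ht, ?_⟩
  have hfd : FiniteDimensional ℂ (Submodule.span ℂ t) := FiniteDimensional.span_of_finite ℂ ht
  refine ContinuousLinearMap.opNorm_le_of_unit_norm hε.le (fun x hx => ?_)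
  have h1 : A x ∈ A '' Metric.closedBall 0 1 := ⟨x, by simp [hx], rfl⟩
  obtain ⟨y, hy, hxy⟩ := Set.mem_iUnion₂.1 (hcov h1)
  have h2 : (A - (Submodule.span ℂ t).starProjection * A) x =
      A x - (Submodule.span ℂ t).starProjection (A x) := rfl
  rw [h2, (Submodule.span ℂ t).starProjection_minimal]
  refine (ciInf_le ⟨0, by rintro _ ⟨z, rfl⟩; exact norm_nonneg _⟩
    (⟨y, Submodule.subset_span hy⟩ : Submodule.span ℂ t)).trans ?_
  rw [Metric.mem_ball, dist_eq_norm] at hxy
  exact hxy.le

omit [CompleteSpace H] in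
/-- Cayley-Hamilton on an invariant finite-dimensional subspace -/
lemma exists_annihilator (A : H →L[ℂ] H) (M : Submodule ℂ H) [FiniteDimensional ℂ M]
    (hM : ∀ v ∈ M, A v ∈ M) :
    ∃ p : Polynomial ℂ, p ≠ 0 ∧ ∀ v ∈ M, Polynomial.aeval A p v = 0 := by
  set R : M →ₗ[ℂ] M := A.toLinearMap.restrict hM with hR
  refine ⟨R.charpoly, (LinearMap.charpoly_monic R).ne_zero, fun v hv => ?_⟩
  have h1 : ∀ p : Polynomial ℂ, ∀ v : M, Polynomial.aeval A p (v : H) =
      ((Polynomial.aeval R p v : M) : H) := by
    intro p v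
    induction p using Polynomial.induction_on' with
    | add p q hp hq =>
      rw [map_add, map_add, add_apply, LinearMap.add_apply, Submodule.coe_add, hp, hq]
    | monomial n a =>
      rw [Polynomial.aeval_monomial, Polynomial.aeval_monomial, Algebra.algebraMap_eq_smul_one,
        Algebra.algebraMap_eq_smul_one, smul_mul_assoc, one_mul, smul_mul_assoc, one_mul,
        smul_apply, LinearMap.smul_apply, Submodule.coe_smul]
      congr 1
      induction n with
      | zero => rfl
      | succ n ih =>
        rw [pow_succ', pow_succ']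
        show A ((A ^ n) (v : H)) = ((R ((R ^ n) v) : M) : H)
        rw [ih]
        rfl
  have h2 := h1 R.charpoly ⟨v, hv⟩
  rw [LinearMap.aeval_self_charpoly] at h2
  simpa using h2

omit [CompleteSpace H] in
lemma isCompact_starProjection (M : Submodule ℂ H) [FiniteDimensional ℂ M] :
    IsCompactOperator (M.starProjection) := by
  have h1 : M.starProjection = M.subtypeL ∘L M.orthogonalProjectionOnto := rfl
  rw [h1]
  exact IsCompactOperator.clm_comp (isCompactOperator_of_locallyCompactSpace_dom
    (M.orthogonalProjectionOnto)) M.subtypeL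

lemma adjoint_starProjection (M : Submodule ℂ H) [FiniteDimensional ℂ M] :
    adjoint M.starProjection = M.starProjection := by
  have h := isSelfAdjoint_starProjection M
  exact h

/-- **Counterexamples are dense in the compact operators.** -/
theorem dense_bad_compact (hinf : ¬ FiniteDimensional ℂ H) (A : H →L[ℂ] H)
    (hA : IsCompactOperator A) {ε : ℝ} (hε : 0 < ε) :
    ∃ B : H →L[ℂ] H, ‖B - A‖ < ε ∧ IsCompactOperator B ∧ Bad B := by
  obtain ⟨F, hF, hFA⟩ := exists_finite_approx A hA (show 0 < ε / 4 by positivity)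
  set PF := F.starProjection with hPF
  set M : Submodule ℂ H := F ⊔ F.map (adjoint A).toLinearMap with hM
  have hMfd : FiniteDimensional ℂ M := inferInstance
  set PM : H →L[ℂ] H := M.starProjection with hPM
  set A1 := PF * A with hA1
  have hPMM : PM * PM = PM := by
    ext1 v
    exact M.starProjection_eq_self_iff.2 (M.starProjection_apply_mem v)
  have hPMa : adjoint PM = PM := adjoint_starProjection M
  have hFM : F ≤ M := le_sup_left
  have hPMF : PM * A1 = A1 := by
    ext1 v
    exact M.starProjection_eq_self_iff.2 (hFM (F.starProjection_apply_mem (A v)))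
  have hA1M : A1 * PM = A1 := by
    ext1 v
    have h1 : v - PM v ∈ Mᗮ := M.sub_starProjection_mem_orthogonal v
    have h2 : A1 (v - PM v) = 0 := by
      have h3 : A (v - PM v) ∈ Fᗮ := by
        rw [Submodule.mem_orthogonal]
        intro f hf
        rw [← adjoint_inner_left]
        refine (Submodule.mem_orthogonal _ _).1 h1 _ ?_
        have h4 : F.map (adjoint A).toLinearMap ≤ M := le_sup_right
        exact h4 (Submodule.mem_map_of_mem hf)
      show F.starProjection (A (v - PM v)) = 0
      exact F.starProjection_apply_eq_zero_iff.2 h3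
    rw [map_sub, sub_eq_zero] at h2
    exact h2.symm
  obtain ⟨p, hp0, hp⟩ := exists_annihilator A1 M (fun v _ => hFM (F.starProjection_apply_mem (A v)))
  -- the shift
  obtain ⟨μ, hμ1, -, hμ3⟩ := exists_mu 0 p hp0 (t := ε / 16) (by positivity)
  rw [sub_zero] at hμ1
  set A1' : H →L[ℂ] H := A1 - μ • PM with hA1'
  set f : Polynomial ℂ := Polynomial.C (p.eval μ)⁻¹ * p.comp (Polynomial.X + Polynomial.C μ) with hf
  have hf1 : f.eval 0 = 1 := by
    rw [hf, Polynomial.eval_mul, Polynomial.eval_C, Polynomial.eval_comp, Polynomial.eval_add,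
      Polynomial.eval_X, Polynomial.eval_C, zero_add, inv_mul_cancel₀ hμ3]
  set P : H →L[ℂ] H := 1 - PM with hP
  have h1P : 1 - P = PM := by rw [hP, sub_sub_cancel]
  have hPP : P * P = P := by
    rw [hP, mul_sub, mul_one, sub_mul, one_mul, hPMM, sub_self, sub_zero]
  have hPa : adjoint P = P := by
    rw [hP, map_sub, hPMa]
    congr 1
    exact star_one (H →L[ℂ] H)
  have hcut : (1 - P) * A1' * (1 - P) = A1' := by
    rw [h1P, hA1', mul_sub, sub_mul, hPMF, hA1M, mul_smul_comm, hPMM, smul_mul_assoc, hPMM]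
  have hf2 : Polynomial.aeval ((1 - P) * A1' * (1 - P)) f * (1 - P) = 0 := by
    rw [hcut, h1P]
    have h3 : Polynomial.aeval (A1' + μ • (1 : H →L[ℂ] H)) p * PM = 0 := by
      have h4 : ∀ n : ℕ, (A1' + μ • (1 : H →L[ℂ] H)) ^ n * PM = A1 ^ n * PM := by
        intro n
        induction n with
        | zero => rfl
        | succ n ih =>
          have h5 : (A1' + μ • (1 : H →L[ℂ] H)) * PM = PM * (A1 * PM) := by
            rw [hA1M, hPMF, hA1', add_mul, sub_mul, hA1M, smul_mul_assoc, hPMM, smul_mul_assoc,
              one_mul, sub_add_cancel]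
          rw [pow_succ, mul_assoc, h5, ← mul_assoc, ih, mul_assoc, ← mul_assoc PM, hPMF,
            ← mul_assoc, ← pow_succ]
      have h5 : Polynomial.aeval (A1' + μ • (1 : H →L[ℂ] H)) p * PM =
          Polynomial.aeval A1 p * PM := by
        have h6 : ∀ p : Polynomial ℂ, Polynomial.aeval (A1' + μ • (1 : H →L[ℂ] H)) p * PM =
            Polynomial.aeval A1 p * PM := by
          intro p
          induction p using Polynomial.induction_on' with
          | add p q hp hq => rw [map_add, map_add, add_mul, add_mul, hp, hq]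
          | monomial n a =>
            rw [Polynomial.aeval_monomial, Polynomial.aeval_monomial, mul_assoc, mul_assoc, h4]
        exact h6 p
      rw [h5]
      ext1 v
      exact hp _ (M.starProjection_apply_mem v)
    have h7 : Polynomial.aeval A1' f = (p.eval μ)⁻¹ •
        Polynomial.aeval (A1' + μ • (1 : H →L[ℂ] H)) p := by
      rw [hf, map_mul, Polynomial.aeval_C, Polynomial.aeval_comp, map_add, Polynomial.aeval_X,
        Polynomial.aeval_C, Algebra.algebraMap_eq_smul_one, Algebra.algebraMap_eq_smul_one,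
        smul_mul_assoc, one_mul]
    rw [h7, smul_mul_assoc, h3, smul_zero]
  -- the orthonormal sequence in the complement
  obtain ⟨x, hx, -, hxS⟩ := exists_orthonormal_seq (A := (0 : H →L[ℂ] H)) (z := 0)
    (S := {x : H | x ∈ Mᗮ}) (fun G _ δ hδ => by
      obtain ⟨x, hx, hx1⟩ := exists_unit_orthogonal hinf (G ⊔ M)
      exact ⟨x, Submodule.orthogonal_le le_sup_left hx, hx1, by simpa using hδ,
        Submodule.orthogonal_le (le_sup_right : M ≤ G ⊔ M) hx⟩) (ε := 1) one_pos
  obtain ⟨U, Uo, hU, hU', hUo, hUo', hPU⟩ := exists_fam x hx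
  have hPx : ∀ n, P (x n) = x n := by
    intro n
    have h1 : PM (x n) = 0 := M.starProjection_apply_eq_zero_iff.2 (hxS n)
    have h2 : P (x n) = x n - PM (x n) := rfl
    rw [h2, h1, sub_zero]
  obtain ⟨hPU1, hPUo⟩ := hPU P hPx
  have hUP : ∀ i, (adjoint (U i)) ∘L P = adjoint (U i) := by
    intro i
    have := congrArg adjoint (hPU1 i)
    rw [adjoint_comp, hPa] at this
    exact this
  obtain ⟨B, hB1, hB2, hB3⟩ := build P A1' hPP U Uo hU hU' hUo hUo' hPU1 hPUo hUP 0 f hf1
    (by rw [hf2, norm_zero]; exact one_pos) (ε / 4) (by positivity)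
  have hA1'M : A1' * (1 - P) + (0 : ℂ) • P = A1' := by
    rw [h1P, zero_smul, add_zero, hA1', sub_mul, hA1M, smul_mul_assoc, hPMM]
  rw [hA1'M] at hB1 hB2
  refine ⟨B, ?_, ?_, hB3⟩
  · have h1 : B - A = (B - A1') + (-(μ • PM) + (-(A - A1))) := by rw [hA1']; abel
    rw [h1]
    have h2 : ‖-(μ • PM)‖ ≤ 2 * (ε / 16) * 1 := by
      rw [norm_neg, norm_smul]
      exact mul_le_mul hμ1 M.starProjection_norm_le (norm_nonneg _) (by positivity)
    have h3 : ‖-(A - A1)‖ ≤ ε / 4 := by rw [norm_neg]; exact hFA
    calc _ ≤ ‖B - A1'‖ + (‖-(μ • PM)‖ + ‖-(A - A1)‖) :=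
          (norm_add_le _ _).trans (add_le_add le_rfl (norm_add_le _ _))
      _ < ε / 4 + (2 * (ε / 16) * 1 + ε / 4) := by
          have := add_le_add h2 h3
          linarith
      _ < ε := by linarith
  · have h1 : B = (B - A1') + A1' := by abel
    rw [h1]
    refine IsCompactOperator.add hB2 ?_
    refine IsCompactOperator.sub ?_ ?_
    · exact IsCompactOperator.comp_clm (isCompact_starProjection F) A
    · exact IsCompactOperator.smul (isCompact_starProjection M) μ

/-- both statements together -/
theorem dense_bad_both (hinf : ¬ FiniteDimensional ℂ H) (A : H →L[ℂ] H) {ε : ℝ} (hε : 0 < ε) :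
    ∃ B : H →L[ℂ] H, ‖B - A‖ < ε ∧ (IsCompactOperator A → IsCompactOperator B) ∧ Bad B := by
  by_cases hA : IsCompactOperator A
  · obtain ⟨B, h1, h2, h3⟩ := dense_bad_compact hinf A hA hε
    exact ⟨B, h1, fun _ => h2, h3⟩
  · obtain ⟨B, h1, h2⟩ := dense_bad hinf A hε
    exact ⟨B, h1, fun h => absurd h hA, h2⟩

end comp

end Pool.Agent.RFX
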