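import Mathlib
import Pool.Agent.RFX.Comp

set_option autoImplicit false

/-!
# Idempotents in the closed algebra generated by an operator
-/

namespace Pool.Agent.RFX

open scoped InnerProductSpace BigOperators
open ContinuousLinearMap Filter Topology

section idem

variable {H : Type*} [NormedAddCommGroup H] [InnerProductSpace ℂ H] [CompleteSpace H]

/-- polynomials in `A` without constant term -/
def polyZ (A : H →L[ℂ] H) : Set (H →L[ℂ] H) :=
  {X | ∃ p : Polynomial ℂ, p.eval 0 = 0 ∧ Polynomial.aeval A p = X}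

/-- the iteration -/
noncomputable def itp (p : Polynomial ℂ) : ℕ → Polynomial ℂ
  | 0 => p
  | (n + 1) => 3 * (itp p n) ^ 2 - 2 * (itp p n) ^ 3

lemma itp_eval_zero (p : Polynomial ℂ) (hp : p.eval 0 = 0) (n : ℕ) : (itp p n).eval 0 = 0 := by
  induction n with
  | zero => exact hp
  | succ n ih => simp [itp, ih]

lemma exists_idem (A : H →L[ℂ] H) (p : Polynomial ℂ) (hp : p.eval 0 = 0)
    (hd : ‖Polynomial.aeval A (p ^ 2 - p)‖ ≤ 1 / 8) :
    ∃ E : H →L[ℂ] H, E * E = E ∧ E ∈ closure (polyZ A) ∧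
      ‖E - Polynomial.aeval A p‖ ≤
        4 * (‖Polynomial.aeval A (2 * p - 1)‖ * ‖Polynomial.aeval A (p ^ 2 - p)‖) := by
  set x : ℕ → H →L[ℂ] H := fun n => Polynomial.aeval A (itp p n) with hx
  set y : ℕ → H →L[ℂ] H := fun n => Polynomial.aeval A ((itp p n) ^ 2 - itp p n) with hy
  set z : ℕ → H →L[ℂ] H := fun n => Polynomial.aeval A (2 * (itp p n) - 1) with hz
  set d := ‖Polynomial.aeval A (p ^ 2 - p)‖ with hdd
  set K := ‖Polynomial.aeval A (2 * p - 1)‖ with hK
  have hy1 : ∀ n, y (n + 1) = (4 : ℂ) • (y n) ^ 3 - (3 : ℂ) • (y n) ^ 2 := by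
    intro n
    have h1 : (itp p (n + 1)) ^ 2 - itp p (n + 1) = Polynomial.C 4 * ((itp p n) ^ 2 - itp p n) ^ 3 -
        Polynomial.C 3 * ((itp p n) ^ 2 - itp p n) ^ 2 := by
      show (3 * (itp p n) ^ 2 - 2 * (itp p n) ^ 3) ^ 2 - (3 * (itp p n) ^ 2 - 2 * (itp p n) ^ 3) = _
      have h4 : (Polynomial.C (4 : ℂ)) = 4 := rfl
      have h3 : (Polynomial.C (3 : ℂ)) = 3 := rfl
      rw [h4, h3]
      ring
    show Polynomial.aeval A ((itp p (n + 1)) ^ 2 - itp p (n + 1)) = _
    rw [h1, map_sub, map_mul, map_mul, map_pow, map_pow, Polynomial.aeval_C, Polynomial.aeval_C,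
      Algebra.algebraMap_eq_smul_one, Algebra.algebraMap_eq_smul_one, smul_mul_assoc, one_mul,
      smul_mul_assoc, one_mul]
  have hz1 : ∀ n, z (n + 1) = z n * (1 - (2 : ℂ) • y n) := by
    intro n
    have h1 : 2 * itp p (n + 1) - 1 = (2 * itp p n - 1) *
        (1 - Polynomial.C 2 * ((itp p n) ^ 2 - itp p n)) := by
      show 2 * (3 * (itp p n) ^ 2 - 2 * (itp p n) ^ 3) - 1 = _
      have h2 : (Polynomial.C (2 : ℂ)) = 2 := rfl
      rw [h2]
      ring
    show Polynomial.aeval A (2 * itp p (n + 1) - 1) = _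
    rw [h1, map_mul, map_sub (Polynomial.aeval (R := ℂ) A) 1, map_mul, map_one, Polynomial.aeval_C,
      Algebra.algebraMap_eq_smul_one, smul_mul_assoc, one_mul]
  have hx1 : ∀ n, x n - x (n + 1) = z n * y n := by
    intro n
    have h1 : itp p n - itp p (n + 1) = (2 * itp p n - 1) * ((itp p n) ^ 2 - itp p n) := by
      show itp p n - (3 * (itp p n) ^ 2 - 2 * (itp p n) ^ 3) = _
      ring
    show Polynomial.aeval A (itp p n) - Polynomial.aeval A (itp p (n + 1)) = _
    rw [← map_sub, h1, map_mul]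
  have hyn : ∀ n, ‖y n‖ ≤ d * (1 / 2 : ℝ) ^ n := by
    intro n
    induction n with
    | zero => rw [pow_zero, mul_one]; exact le_refl _
    | succ n ih =>
      have h1 : ‖y n‖ ≤ 1 / 8 := ih.trans ((mul_le_of_le_one_right (norm_nonneg _)
        (half_pow_le_one n)).trans hd)
      have h2 : ‖y (n + 1)‖ ≤ 4 * ‖y n‖ ^ 3 + 3 * ‖y n‖ ^ 2 := by
        rw [hy1]
        refine (norm_sub_le _ _).trans ?_
        rw [norm_smul, norm_smul]
        have h3 := norm_pow_le' (y n) (show 0 < 3 by norm_num)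
        have h4 := norm_pow_le' (y n) (show 0 < 2 by norm_num)
        have h5 : ‖(4 : ℂ)‖ = 4 := by norm_num
        have h6 : ‖(3 : ℂ)‖ = 3 := by norm_num
        rw [h5, h6]
        linarith
      have h3 : 4 * ‖y n‖ ^ 3 + 3 * ‖y n‖ ^ 2 ≤ ‖y n‖ / 2 := by
        have h4 := norm_nonneg (y n)
        have h5 : ‖y n‖ ^ 2 ≤ ‖y n‖ * (1 / 8) := by nlinarith
        have h6 : ‖y n‖ ^ 3 ≤ ‖y n‖ ^ 2 * (1 / 8) := by nlinarith [sq_nonneg ‖y n‖]
        nlinarith
      rw [pow_succ]
      linarith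
  have hzn : ∀ n, ‖z n‖ ≤ K * (2 - (1 / 2 : ℝ) ^ n) := by
    intro n
    induction n with
    | zero => rw [pow_zero]; norm_num; exact le_refl _
    | succ n ih =>
      have h1 : ‖y n‖ ≤ 1 / 8 * (1 / 2 : ℝ) ^ n :=
        (hyn n).trans (mul_le_mul_of_nonneg_right hd (by positivity))
      have h2 : ‖z (n + 1)‖ ≤ ‖z n‖ * (1 + 2 * ‖y n‖) := by
        rw [hz1]
        refine (norm_mul_le _ _).trans (mul_le_mul_of_nonneg_left ?_ (norm_nonneg _))
        refine (norm_sub_le _ _).trans ?_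
        rw [norm_smul]
        have h5 : ‖(2 : ℂ)‖ = 2 := by norm_num
        have h6 : ‖(1 : H →L[ℂ] H)‖ ≤ 1 := ContinuousLinearMap.norm_id_le
        rw [h5]
        linarith
      have h3 : (2 - (1 / 2 : ℝ) ^ n) * (1 + 2 * (1 / 8 * (1 / 2 : ℝ) ^ n)) ≤
          2 - (1 / 2 : ℝ) ^ (n + 1) := by
        rw [pow_succ]
        nlinarith [half_pow_le_one n, show (0 : ℝ) ≤ (1 / 2 : ℝ) ^ n by positivity]
      have h4 : 0 ≤ 2 - (1 / 2 : ℝ) ^ n := by linarith [half_pow_le_one n]
      have hK0 : 0 ≤ K := norm_nonneg _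
      calc ‖z (n + 1)‖ ≤ ‖z n‖ * (1 + 2 * ‖y n‖) := h2
        _ ≤ (K * (2 - (1 / 2 : ℝ) ^ n)) * (1 + 2 * (1 / 8 * (1 / 2 : ℝ) ^ n)) :=
            mul_le_mul ih (by linarith) (by positivity) (by positivity)
        _ = K * ((2 - (1 / 2 : ℝ) ^ n) * (1 + 2 * (1 / 8 * (1 / 2 : ℝ) ^ n))) := by ring
        _ ≤ K * (2 - (1 / 2 : ℝ) ^ (n + 1)) := mul_le_mul_of_nonneg_left h3 hK0
  have hdist : ∀ n, dist (x n) (x (n + 1)) ≤ (4 * (K * d)) / 2 / 2 ^ n := by
    intro n
    rw [dist_eq_norm, hx1]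
    refine (norm_mul_le _ _).trans ?_
    have h1 : ‖z n‖ ≤ K * 2 := (hzn n).trans (mul_le_mul_of_nonneg_left
      (by have : (0 : ℝ) ≤ (1 / 2 : ℝ) ^ n := by positivity
          linarith) (norm_nonneg _))
    calc ‖z n‖ * ‖y n‖ ≤ (K * 2) * (d * (1 / 2 : ℝ) ^ n) :=
          mul_le_mul h1 (hyn n) (norm_nonneg _) (by positivity)
      _ = (4 * (K * d)) / 2 / 2 ^ n := by
          rw [one_div, inv_pow]
          ring
  obtain ⟨E, hE⟩ := cauchySeq_tendsto_of_complete (cauchySeq_of_le_geometric_two hdist)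
  refine ⟨E, ?_, ?_, ?_⟩
  · have h1 : Tendsto (fun n => x n * x n - x n) atTop (𝓝 (E * E - E)) := (hE.mul hE).sub hE
    have h2 : (fun n => x n * x n - x n) = y := by
      funext n
      show _ = Polynomial.aeval A ((itp p n) ^ 2 - itp p n)
      rw [map_sub, map_pow, sq]
    have h3 : Tendsto y atTop (𝓝 0) := by
      rw [tendsto_zero_iff_norm_tendsto_zero]
      refine squeeze_zero (fun _ => norm_nonneg _) hyn ?_
      have := (tendsto_pow_atTop_nhds_zero_of_lt_one (by norm_num : (0 : ℝ) ≤ 1 / 2)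
        (by norm_num : (1 / 2 : ℝ) < 1)).const_mul d
      rwa [mul_zero] at this
    rw [h2] at h1
    exact sub_eq_zero.1 (tendsto_nhds_unique h1 h3)
  · exact mem_closure_of_tendsto hE (Eventually.of_forall
      (fun n => ⟨itp p n, itp_eval_zero p hp n, rfl⟩))
  · have h1 := dist_le_of_le_geometric_two_of_tendsto₀ hdist hE
    rw [dist_comm, dist_eq_norm] at h1
    exact h1

omit [CompleteSpace H] in
lemma comm_of_mem_closure {A E : H →L[ℂ] H} (h : E ∈ closure (polyZ A)) : A * E = E * A := by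
  have hc : IsClosed {X : H →L[ℂ] H | A * X = X * A} :=
    isClosed_eq (by fun_prop) (by fun_prop)
  refine closure_minimal ?_ hc h
  rintro _ ⟨p, _, rfl⟩
  exact (comm_aeval (Commute.refl A) p).symm

omit [CompleteSpace H] in
lemma zero_of_mem_closure {A E : H →L[ℂ] H} (h : E ∈ closure (polyZ A)) {v : H} (hv : A v = 0) :
    E v = 0 := by
  have hc : IsClosed {X : H →L[ℂ] H | X v = 0} :=
    isClosed_eq (by fun_prop) (by fun_prop)
  refine closure_minimal ?_ hc h
  rintro _ ⟨p, hp, rfl⟩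
  show Polynomial.aeval A p v = 0
  have h1 : ∀ p : Polynomial ℂ, Polynomial.aeval A p v = p.eval 0 • v := by
    intro p
    induction p using Polynomial.induction_on' with
    | add p q hp hq => rw [map_add, add_apply, hp, hq, Polynomial.eval_add, add_smul]
    | monomial n a =>
      rw [Polynomial.aeval_monomial, Algebra.algebraMap_eq_smul_one, smul_mul_assoc, one_mul,
        smul_apply, Polynomial.eval_monomial]
      cases n with
      | zero => simp
      | succ n =>
        have h2 : (A ^ (n + 1)) v = 0 := by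
          rw [pow_succ]
          show (A ^ n) (A v) = 0
          rw [hv, map_zero]
        rw [h2]
        simp
  rw [h1, hp, zero_smul]

omit [CompleteSpace H] in
lemma range_of_mem_closure {A E : H →L[ℂ] H} (h : E ∈ closure (polyZ A)) :
    E ∈ closure (Set.range (fun p : Polynomial ℂ => Polynomial.aeval A p)) := by
  refine closure_mono ?_ h
  rintro _ ⟨p, _, rfl⟩
  exact ⟨p, rfl⟩

end idem

end Pool.Agent.RFX
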