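import Mathlib
import Pool.Agent.RFX.Idem

set_option autoImplicit false

/-!
# Perturbation to simple nonzero spectrum
-/

namespace Pool.Agent.RFX

open scoped InnerProductSpace BigOperators
open ContinuousLinearMap Filter Topology

section nice

variable {H : Type*} [NormedAddCommGroup H] [InnerProductSpace ℂ H] [CompleteSpace H]

/-- `T` lives on `M` and has there a basis of eigenvectors with distinct nonzero eigenvalues -/
def Nice (T : H →L[ℂ] H) (M : Submodule ℂ H) [FiniteDimensional ℂ M] (d : ℕ) (x : Fin d → H)
    (l : Fin d → ℂ) : Prop :=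
  M.starProjection * T = T ∧ T * M.starProjection = T ∧ Function.Injective l ∧
    (∀ i, l i ≠ 0) ∧ (∀ i, T (x i) = l i • x i) ∧ Submodule.span ℂ (Set.range x) = M

omit [CompleteSpace H] in
theorem exists_nice (d : ℕ) : ∀ (M : Submodule ℂ H) [FiniteDimensional ℂ M],
    Module.finrank ℂ M = d → ∀ (T : H →L[ℂ] H), M.starProjection * T = T →
    T * M.starProjection = T → ∀ ε : ℝ, 0 < ε → ∃ (T' : H →L[ℂ] H) (x : Fin d → H) (l : Fin d → ℂ),
      ‖T' - T‖ < ε ∧ Nice T' M d x l := by
  induction d with
  | zero =>
    intro M _ hM T h1 h2 ε hε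
    refine ⟨T, Fin.elim0, Fin.elim0, by simpa using hε, h1, h2, fun i => i.elim0,
      fun i => i.elim0, fun i => i.elim0, ?_⟩
    have h3 : Set.range (Fin.elim0 : Fin 0 → H) = ∅ := Set.range_eq_empty _
    rw [h3, Submodule.span_empty]
    exact (Submodule.finrank_eq_zero.1 hM).symm
  | succ d ih =>
    intro M _ hM T h1 h2 ε hε
    -- an eigenvector
    have hnt : Nontrivial M := by
      refine Module.nontrivial_of_finrank_pos (R := ℂ) ?_
      omega
    have hinv : ∀ v ∈ M, T v ∈ M := by
      intro v _
      have : M.starProjection (T v) = T v := congrArg (fun f : H →L[ℂ] H => f v) h1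
      rw [← this]
      exact M.starProjection_apply_mem _
    obtain ⟨c, hc⟩ := Module.End.exists_eigenvalue (T.toLinearMap.restrict hinv)
    obtain ⟨v, hv⟩ := hc.exists_hasEigenvector
    have hv0 : (v : H) ≠ 0 := by
      have := hv.2
      simpa using this
    have hTv : T (v : H) = c • (v : H) := by
      have := congrArg Subtype.val hv.apply_eq_smul
      exact this
    set x : H := ((‖(v : H)‖⁻¹ : ℝ) : ℂ) • (v : H) with hx
    have hx1 : ‖x‖ = 1 := by
      rw [hx, norm_smul, Complex.norm_real, norm_inv, norm_norm,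
        inv_mul_cancel₀ (norm_ne_zero_iff.2 hv0)]
    have hxM : x ∈ M := M.smul_mem _ v.2
    have hTx : T x = c • x := by rw [hx, map_smul, hTv, smul_comm]
    have hxx : ⟪x, x⟫_ℂ = 1 := by
      rw [inner_self_eq_norm_sq_to_K, hx1]; simp
    -- the smaller subspace
    set M' : Submodule ℂ H := (Submodule.span ℂ {x})ᗮ ⊓ M with hM'
    have hM'fd : FiniteDimensional ℂ M' := Submodule.finiteDimensional_of_le inf_le_right
    have hx0 : x ≠ 0 := by
      intro h
      rw [h, norm_zero] at hx1
      exact zero_ne_one hx1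
    have hM'd : Module.finrank ℂ M' = d := by
      have h3 : Submodule.span ℂ {x} ≤ M := (Submodule.span_singleton_le_iff_mem x M).2 hxM
      refine Submodule.finrank_add_inf_finrank_orthogonal' h3 ?_
      rw [finrank_span_singleton hx0, hM]
      omega
    set E : H →L[ℂ] H := InnerProductSpace.rankOne ℂ x x with hE
    have hEa : ∀ y, E y = ⟪x, y⟫_ℂ • x := fun y => rfl
    set P' : H →L[ℂ] H := M'.starProjection with hP'
    set P : H →L[ℂ] H := M.starProjection with hP
    have hmemM' : ∀ y, y ∈ M' ↔ ⟪x, y⟫_ℂ = 0 ∧ y ∈ M := by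
      intro y
      rw [hM', Submodule.mem_inf, Submodule.mem_orthogonal_singleton_iff_inner_right]
    have hPPy : ∀ y, ⟪x, P y⟫_ℂ = ⟪x, y⟫_ℂ := by
      intro y
      have h3 : y - P y ∈ Mᗮ := M.sub_starProjection_mem_orthogonal y
      have h4 := (Submodule.mem_orthogonal _ _).1 h3 x hxM
      rw [inner_sub_right, sub_eq_zero] at h4
      exact h4.symm
    have hdec : P = E + P' := by
      ext1 y
      have h3 : P' y = P y - ⟪x, y⟫_ℂ • x := by
        refine M'.eq_starProjection_of_mem_orthogonal ?_ ?_
        · rw [hmemM']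
          refine ⟨?_, M.sub_mem (M.starProjection_apply_mem y) (M.smul_mem _ hxM)⟩
          rw [inner_sub_right, inner_smul_right, hxx, mul_one, hPPy, sub_self]
        · rw [Submodule.mem_orthogonal]
          intro m hm
          rw [hmemM'] at hm
          have h4 : y - (P y - ⟪x, y⟫_ℂ • x) = (y - P y) + ⟪x, y⟫_ℂ • x := by abel
          have h5 : ⟪m, x⟫_ℂ = 0 := by rw [← inner_conj_symm, hm.1, map_zero]
          rw [h4, inner_add_right, inner_smul_right, h5, mul_zero, add_zero]
          exact (Submodule.mem_orthogonal _ _).1 (M.sub_starProjection_mem_orthogonal y) m hm.2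
      rw [add_apply, hEa, h3]
      abel
    have hP'P' : P' * P' = P' := by
      ext1 y
      exact M'.starProjection_eq_self_iff.2 (M'.starProjection_apply_mem y)
    have hEE : E * E = E := by
      ext1 y
      show E (E y) = E y
      rw [hEa y, map_smul, hEa x, hxx, one_smul]
    have hP'x : P' x = 0 := by
      refine M'.starProjection_apply_eq_zero_iff.2 ?_
      rw [Submodule.mem_orthogonal]
      intro m hm
      rw [← inner_conj_symm, ((hmemM' m).1 hm).1, map_zero]
    have hP'E : P' * E = 0 := by
      ext1 y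
      show P' (E y) = 0
      rw [hEa, map_smul, hP'x, smul_zero]
    have hEM' : ∀ m ∈ M', E m = 0 := by
      intro m hm
      rw [hEa, ((hmemM' m).1 hm).1, zero_smul]
    have hEP' : E * P' = 0 := by
      ext1 y
      exact hEM' _ (M'.starProjection_apply_mem y)
    have hTE : T * E = c • E := by
      ext1 y
      show T (E y) = c • E y
      rw [hEa, map_smul, hTx, smul_comm]
    have hTdec : T = c • E + E * T * P' + P' * T * P' := by
      have h3 : T = P * T * P := by rw [h1, h2]
      conv_lhs => rw [h3, hdec]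
      rw [mul_add, mul_assoc _ T E, hTE, mul_smul_comm, add_mul E P' E, hEE, hP'E, add_zero,
        add_mul, add_mul]
      abel
    -- the induction hypothesis
    obtain ⟨T1, x', l', hT1, hN1, hN2, hl', hl0', hx', hspan'⟩ := ih M' hM'd (P' * T * P')
      (by rw [← mul_assoc, ← mul_assoc, hP'P']) (by rw [mul_assoc, hP'P']) (ε / 2) (by positivity)
    -- the new eigenvalue
    set q : Polynomial ℂ := Polynomial.X * ∏ j, (Polynomial.X - Polynomial.C (l' j)) with hq
    have hq0 : q ≠ 0 := mul_ne_zero Polynomial.X_ne_zero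
      (Finset.prod_ne_zero_iff.2 (fun j _ => Polynomial.X_sub_C_ne_zero _))
    obtain ⟨μ, hμ1, -, hμ2⟩ := exists_mu c q hq0 (t := ε / 8) (by positivity)
    rw [hq, Polynomial.eval_mul, Polynomial.eval_X, Polynomial.eval_prod] at hμ2
    have hμ0 : μ ≠ 0 := left_ne_zero_of_mul hμ2
    have hμl : ∀ j, μ - l' j ≠ 0 := by
      intro j
      have h3 := Finset.prod_ne_zero_iff.1 (right_ne_zero_of_mul hμ2) j (Finset.mem_univ _)
      simpa using h3
    have hx'M : ∀ j, x' j ∈ M' := fun j => by
      rw [← hspan']; exact Submodule.subset_span ⟨j, rfl⟩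
    set cc : Fin d → ℂ := fun j => ⟪x, T (x' j)⟫_ℂ / (l' j - μ) with hcc
    set T' : H →L[ℂ] H := μ • E + E * T * P' + T1 with hT'
    have hPE : P * E = E := by rw [hdec, add_mul, hEE, hP'E, add_zero]
    have hPP' : P * P' = P' := by rw [hdec, add_mul, hEP', hP'P', zero_add]
    have hEP : E * P = E := by rw [hdec, mul_add, hEE, hEP', add_zero]
    have hP'P : P' * P = P' := by rw [hdec, mul_add, hP'E, hP'P', zero_add]
    have hT1x : T1 x = 0 := by
      have h3 : T1 x = T1 (P' x) := by
        have := congrArg (fun f : H →L[ℂ] H => f x) hN2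
        exact this.symm
      rw [h3, hP'x, map_zero]
    have hEx : E x = x := by rw [hEa, hxx, one_smul]
    have hT'x : T' x = μ • x := by
      show μ • E x + E (T (P' x)) + T1 x = μ • x
      rw [hEx, hP'x, map_zero, map_zero, hT1x, add_zero, add_zero]
    have hP'x' : ∀ j, P' (x' j) = x' j := fun j => M'.starProjection_eq_self_iff.2 (hx'M j)
    have hT'x' : ∀ j, T' (x' j) = ⟪x, T (x' j)⟫_ℂ • x + l' j • x' j := by
      intro j
      show μ • E (x' j) + E (T (P' (x' j))) + T1 (x' j) = _
      rw [hEM' _ (hx'M j), smul_zero, zero_add, hP'x', hEa, hx']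
    refine ⟨T', Fin.cons x (fun j => x' j + cc j • x), Fin.cons μ l', ?_, ?_, ?_, ?_, ?_, ?_, ?_⟩
    · have h3 : T' - T = (μ - c) • E + (T1 - P' * T * P') := by
        conv_lhs => rw [hT', hTdec]
        have h4 : P' * (c • E + E * T * P' + P' * T * P') * P' = P' * T * P' := by
          rw [← hTdec]
        rw [← hTdec]
        conv_lhs => rw [hTdec]
        rw [sub_smul]
        have h5 : E * (c • E + E * T * P' + P' * T * P') * P' = E * T * P' := by rw [← hTdec]
        simp only [h5]
        abel
      rw [h3]
      have hEn : ‖E‖ ≤ 1 := by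
        refine ContinuousLinearMap.opNorm_le_bound _ zero_le_one (fun y => ?_)
        rw [hEa, norm_smul, hx1, mul_one, one_mul]
        have := norm_inner_le_norm (𝕜 := ℂ) x y
        rwa [hx1, one_mul] at this
      have h4 : ‖(μ - c) • E‖ ≤ 2 * (ε / 8) * 1 := by
        rw [norm_smul]
        exact mul_le_mul hμ1 hEn (norm_nonneg _) (by positivity)
      calc _ ≤ ‖(μ - c) • E‖ + ‖T1 - P' * T * P'‖ := norm_add_le _ _
        _ < 2 * (ε / 8) * 1 + ε / 2 := by linarith
        _ < ε := by linarith
    · rw [hT', mul_add, mul_add, mul_smul_comm, hPE, ← mul_assoc, ← mul_assoc, hPE]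
      congr 1
      rw [← hN1, ← mul_assoc, hPP']
    · rw [hT', add_mul, add_mul, smul_mul_assoc, hEP, mul_assoc, hP'P]
      congr 1
      rw [← hN2, mul_assoc, hP'P]
    · rw [Fin.cons_injective_iff]
      refine ⟨?_, hl'⟩
      rintro ⟨j, hj⟩
      exact hμl j (by rw [hj, sub_self])
    · intro i
      refine Fin.cases ?_ (fun i => ?_) i
      · simpa using hμ0
      · simpa using hl0' i
    · intro i
      refine Fin.cases ?_ (fun j => ?_) i
      · simpa using hT'x
      · simp only [Fin.cons_succ]
        rw [map_add, map_smul, hT'x, hT'x']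
        have h3 : l' j - μ ≠ 0 := by
          intro h
          exact hμl j (by rw [← neg_sub, h, neg_zero])
        have h4 : ⟪x, T (x' j)⟫_ℂ = cc j * (l' j - μ) := by
          rw [hcc]; exact (div_mul_cancel₀ _ h3).symm
        rw [h4]
        module
    · rw [Fin.range_cons]
      refine le_antisymm (Submodule.span_le.2 ?_) (fun m hm => ?_)
      · rintro _ (rfl | ⟨j, rfl⟩)
        · exact hxM
        · exact M.add_mem ((hmemM' _).1 (hx'M j)).2 (M.smul_mem _ hxM)
      · have h3 : m = E m + P' m := by
          have h4 : P m = m := M.starProjection_eq_self_iff.2 hm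
          conv_lhs => rw [← h4, hdec]
          rfl
        have hxs : x ∈ Submodule.span ℂ (insert x (Set.range (fun j => x' j + cc j • x))) :=
          Submodule.subset_span (Set.mem_insert _ _)
        rw [h3]
        refine Submodule.add_mem _ ?_ ?_
        · rw [hEa]; exact Submodule.smul_mem _ _ hxs
        · have h4 : M' ≤ Submodule.span ℂ (insert x (Set.range (fun j => x' j + cc j • x))) := by
            rw [← hspan', Submodule.span_le]
            rintro _ ⟨j, rfl⟩
            have h5 : x' j = (x' j + cc j • x) - cc j • x := by abel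
            rw [h5]
            refine Submodule.sub_mem _ ?_ (Submodule.smul_mem _ _ hxs)
            exact Submodule.subset_span (Set.mem_insert_of_mem _ ⟨j, rfl⟩)
          exact h4 (M'.starProjection_apply_mem m)

end nice

end Pool.Agent.RFX
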