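import Mathlib
import Pool.Agent.RFX.Def

set_option autoImplicit false

/-!
# The double on `H × H`
-/

namespace Pool.Agent.RFX

variable {H : Type*} [NormedAddCommGroup H] [NormedSpace ℂ H]

/-- the double of `A` on `H × H`, as in the frozen statement -/
lemma latLE_prod {B C : H →L[ℂ] H} (h : LatLE (ampl 2 B) (ampl 2 C)) :
    LatLE (ContinuousLinearMap.prodMap B B) (ContinuousLinearMap.prodMap C C) := by
  intro V hV hB v hv
  let φ : (Fin 2 → H) →L[ℂ] (H × H) :=
    (ContinuousLinearMap.proj 0).prod (ContinuousLinearMap.proj 1)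
  have h1 := h (V.comap φ.toLinearMap) (hV.preimage φ.continuous) (fun w hw => by
    have := hB _ hw
    exact this) ![v.1, v.2] (by
    show (![v.1, v.2] 0, ![v.1, v.2] 1) ∈ V
    simpa using hv)
  exact h1

lemma inW_of_prod {B C : H →L[ℂ] H}
    (h : InW (ContinuousLinearMap.prodMap B B) (ContinuousLinearMap.prodMap C C)) : InW B C := by
  classical
  intro s ε hε
  obtain ⟨D, hD, hx⟩ := h (s.image (fun x => (x, x))) ε hε
  obtain ⟨p, rfl⟩ := mem_adjoin_iff.1 hD
  refine ⟨Polynomial.aeval B p, mem_adjoin_iff.2 ⟨p, rfl⟩, fun x hxs => ?_⟩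
  have h1 := hx (x, x) (Finset.mem_image_of_mem _ hxs)
  have h2 : ∀ p : Polynomial ℂ, Polynomial.aeval (ContinuousLinearMap.prodMap B B) p (x, x) =
      (Polynomial.aeval B p x, Polynomial.aeval B p x) := by
    intro p
    induction p using Polynomial.induction_on' with
    | add p q hp hq => simp only [map_add, add_apply, hp, hq, Prod.mk_add_mk]
    | monomial n a =>
      rw [Polynomial.aeval_monomial, Polynomial.aeval_monomial, Algebra.algebraMap_eq_smul_one,
        Algebra.algebraMap_eq_smul_one, smul_mul_assoc, one_mul, smul_mul_assoc, one_mul,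
        smul_apply, smul_apply]
      have h3 : ∀ n : ℕ, ((ContinuousLinearMap.prodMap B B) ^ n) (x, x) = ((B ^ n) x, (B ^ n) x) := by
        intro n
        induction n with
        | zero => rfl
        | succ n ih =>
          rw [pow_succ', pow_succ']
          show (ContinuousLinearMap.prodMap B B) (((ContinuousLinearMap.prodMap B B) ^ n) (x, x)) = _
          rw [ih]
          rfl
      rw [h3]
      rfl
  rw [h2] at h1
  have h4 : ‖(C x - Polynomial.aeval B p x, C x - Polynomial.aeval B p x)‖ < ε := h1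
  exact lt_of_le_of_lt
    (norm_fst_le ((C x - Polynomial.aeval B p x, C x - Polynomial.aeval B p x) : H × H)) h4

lemma not_reflexive_prod {B C : H →L[ℂ] H} (h1 : LatLE (ampl 2 B) (ampl 2 C)) (h2 : ¬ InW B C) :
    ¬ ReflexiveOp (ContinuousLinearMap.prodMap B B) :=
  fun h => h2 (inW_of_prod (h _ (latLE_prod h1)))

/-- reflexivity is invariant under similarity -/
lemma reflexive_conj {E F : Type*} [NormedAddCommGroup E] [NormedSpace ℂ E]
    [NormedAddCommGroup F] [NormedSpace ℂ F] (φ : E ≃L[ℂ] F) {T : E →L[ℂ] E} {T' : F →L[ℂ] F}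
    (hT : ∀ x, T' (φ x) = φ (T x)) (h : ReflexiveOp T) : ReflexiveOp T' := by
  classical
  intro S hS
  let S' : E →L[ℂ] E := (φ.symm : F →L[ℂ] E) ∘L S ∘L (φ : E →L[ℂ] F)
  have hT2 : ∀ y, T (φ.symm y) = φ.symm (T' y) := by
    intro y
    apply φ.injective
    rw [← hT, φ.apply_symm_apply, φ.apply_symm_apply]
  have hS' : LatLE T S' := by
    intro V hV hTV v hv
    have h1 := hS (V.comap (φ.symm : F →L[ℂ] E).toLinearMap) (hV.preimage φ.symm.continuous)
      (fun w hw => by
        show φ.symm (T' w) ∈ V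
        rw [← hT2]
        exact hTV _ hw) (φ v) (by
        show φ.symm (φ v) ∈ V
        rw [φ.symm_apply_apply]
        exact hv)
    exact h1
  intro s ε hε
  have hW := h S' hS'
  obtain ⟨D, hD, hx⟩ := hW (s.image (fun y => φ.symm y)) (ε / (‖(φ : E →L[ℂ] F)‖ + 1))
    (by positivity)
  obtain ⟨p, rfl⟩ := mem_adjoin_iff.1 hD
  refine ⟨Polynomial.aeval T' p, mem_adjoin_iff.2 ⟨p, rfl⟩, fun y hy => ?_⟩
  have h1 := hx _ (Finset.mem_image_of_mem _ hy)
  have h2 : ∀ (p : Polynomial ℂ) (x : E), Polynomial.aeval T' p (φ x) =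
      φ (Polynomial.aeval T p x) := by
    intro p x
    induction p using Polynomial.induction_on' with
    | add p q hp hq => rw [map_add, map_add, add_apply, add_apply, hp, hq, map_add]
    | monomial n a =>
      rw [Polynomial.aeval_monomial, Polynomial.aeval_monomial, Algebra.algebraMap_eq_smul_one,
        Algebra.algebraMap_eq_smul_one, smul_mul_assoc, one_mul, smul_mul_assoc, one_mul,
        smul_apply, smul_apply, map_smul]
      congr 1
      induction n generalizing x with
      | zero => rfl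
      | succ n ih =>
        rw [pow_succ, pow_succ]
        show (T' ^ n) (T' (φ x)) = φ ((T ^ n) (T x))
        rw [hT, ih]
  have h3 : S y - Polynomial.aeval T' p y = φ (S' (φ.symm y) - Polynomial.aeval T p (φ.symm y)) := by
    have h4 : φ (S' (φ.symm y)) = S y := by
      show φ (φ.symm (S (φ (φ.symm y)))) = S y
      rw [φ.apply_symm_apply, φ.apply_symm_apply]
    rw [map_sub, h4, ← h2, φ.apply_symm_apply]
  rw [h3]
  have h5 : ‖φ (S' (φ.symm y) - Polynomial.aeval T p (φ.symm y))‖ ≤
      ‖(φ : E →L[ℂ] F)‖ * ‖S' (φ.symm y) - Polynomial.aeval T p (φ.symm y)‖ :=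
    (φ : E →L[ℂ] F).le_opNorm _
  refine lt_of_le_of_lt h5 ?_
  calc _ ≤ ‖(φ : E →L[ℂ] F)‖ * (ε / (‖(φ : E →L[ℂ] F)‖ + 1)) :=
        mul_le_mul_of_nonneg_left h1.le (norm_nonneg _)
    _ < ε := by
        rw [mul_div_assoc', div_lt_iff₀ (by positivity)]
        nlinarith [norm_nonneg (φ : E →L[ℂ] F)]

lemma reflexive_prod {A : H →L[ℂ] H} (h : ReflexiveOp (ampl 2 A)) :
    ReflexiveOp (ContinuousLinearMap.prodMap A A) :=
  reflexive_conj (ContinuousLinearEquiv.finTwoArrow ℂ H) (fun x => rfl) h

end Pool.Agent.RFX
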