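import Mathlib
import Pool.Agent.RFX.Nice

set_option autoImplicit false

/-!
# Stable families of idempotents; reflexivity
-/

namespace Pool.Agent.RFX

open scoped InnerProductSpace BigOperators
open ContinuousLinearMap Filter Topology

section stab

variable {H : Type*} [NormedAddCommGroup H] [InnerProductSpace ℂ H] [CompleteSpace H]

/-- `G` is a sum of eigen-idempotents in the closed algebra of `A` close to a projection which
almost supports `A`. -/
def IsG (A : H →L[ℂ] H) (n : ℕ) (G : H →L[ℂ] H) : Prop :=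
  ∃ (m : ℕ) (E : Fin m → H →L[ℂ] H) (l : Fin m → ℂ) (F : Submodule ℂ H)
    (_ : FiniteDimensional ℂ F), G = ∑ i, E i ∧ (∀ i, E i * E i = E i) ∧
    (∀ i, E i ∈ closure (polyZ A)) ∧ (∀ i, A * E i = l i • E i) ∧
    ‖G - F.starProjection‖ < 1 / ((n : ℝ) + 1) ∧
    ‖(1 - F.starProjection) * A‖ < 1 / ((n : ℝ) + 1) ∧
    ‖A * (1 - F.starProjection)‖ < 1 / ((n : ℝ) + 1)

omit [CompleteSpace H] in
/-- an idempotent commuting with `A` and close to a rank-one operator is an eigen-idempotent -/
lemma eigen_of_close {A E E0 : H →L[ℂ] H} (hE : E * E = E) (hAE : A * E = E * A) {x : H}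
    (hE0 : ∀ v, ∃ a : ℂ, E0 v = a • x) (hclose : ‖E - E0‖ < 1) : ∃ l : ℂ, A * E = l • E := by
  -- `E0` is injective on the range of `E`
  have hinj : ∀ y, E y = y → E0 y = 0 → y = 0 := by
    intro y h1 h2
    by_contra hy
    have hpos : 0 < ‖y‖ := norm_pos_iff.2 hy
    have h3 : ‖y‖ ≤ ‖E - E0‖ * ‖y‖ := by
      have h4 := (E - E0).le_opNorm y
      rw [sub_apply, h1, h2, sub_zero] at h4
      exact h4
    nlinarith
  have hEE : ∀ v, E (E v) = E v := fun v => congrArg (fun f : H →L[ℂ] H => f v) hE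
  by_cases hz : E = 0
  · exact ⟨0, by rw [hz, mul_zero, smul_zero]⟩
  · obtain ⟨v0, hv0⟩ : ∃ v, E v ≠ 0 := by
      by_contra h
      push Not at h
      exact hz (ContinuousLinearMap.ext h)
    set y0 := E v0 with hy0
    have hy0E : E y0 = y0 := hEE v0
    obtain ⟨b, hb⟩ := hE0 y0
    have hb0 : b • x ≠ 0 := by
      rw [← hb]
      intro h
      exact hv0 (hinj y0 hy0E h)
    have hb0' : b ≠ 0 := by
      rintro rfl
      exact hb0 (zero_smul _ _)
    have hline : ∀ y, E y = y → ∃ t : ℂ, y = t • y0 := by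
      intro y hy
      obtain ⟨a, ha⟩ := hE0 y
      refine ⟨a / b, ?_⟩
      have h1 : E (y - (a / b) • y0) = y - (a / b) • y0 := by rw [map_sub, map_smul, hy, hy0E]
      have h2 : E0 (y - (a / b) • y0) = 0 := by
        rw [map_sub, map_smul, ha, hb, smul_smul, div_mul_cancel₀ _ hb0', sub_self]
      exact sub_eq_zero.1 (hinj _ h1 h2)
    have hAcomm : ∀ v, E (A v) = A (E v) := fun v =>
      (congrArg (fun f : H →L[ℂ] H => f v) hAE).symm
    obtain ⟨l, hl⟩ := hline (A y0) (by rw [hAcomm, hy0E])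
    refine ⟨l, ?_⟩
    ext1 v
    obtain ⟨t, ht⟩ := hline (E v) (hEE v)
    show A (E v) = l • E v
    rw [ht, map_smul, hl, smul_comm]

omit [CompleteSpace H] in
lemma aeval_eigen {T : H →L[ℂ] H} {x : H} {l : ℂ} (h : T x = l • x) (p : Polynomial ℂ) :
    Polynomial.aeval T p x = p.eval l • x := by
  induction p using Polynomial.induction_on' with
  | add p q hp hq => rw [map_add, add_apply, hp, hq, Polynomial.eval_add, add_smul]
  | monomial n a =>
    rw [Polynomial.aeval_monomial, Algebra.algebraMap_eq_smul_one, smul_mul_assoc, one_mul,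
      smul_apply, Polynomial.eval_monomial, mul_smul]
    congr 1
    induction n with
    | zero => rw [pow_zero, pow_zero, one_smul]; rfl
    | succ n ih =>
      rw [pow_succ, pow_succ', mul_smul]
      show (T ^ n) (T x) = _
      rw [h, map_smul, ih]

omit [CompleteSpace H] in
/-- two polynomials agreeing at the eigenvalues and at `0` agree on a nice operator -/
lemma aeval_nice {T : H →L[ℂ] H} {M : Submodule ℂ H} [FiniteDimensional ℂ M] {d : ℕ}
    {x : Fin d → H} {l : Fin d → ℂ} (hT : Nice T M d x l) {p : Polynomial ℂ}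
    (hp0 : p.eval 0 = 0) (hpl : ∀ i, p.eval (l i) = 0) : Polynomial.aeval T p = 0 := by
  obtain ⟨h1, h2, hl, hl0, hx, hspan⟩ := hT
  ext1 v
  have hv : v = M.starProjection v + (v - M.starProjection v) := by abel
  have hk : T (v - M.starProjection v) = 0 := by
    rw [map_sub, sub_eq_zero]
    exact (congrArg (fun f : H →L[ℂ] H => f v) h2).symm
  have hk' : T (v - M.starProjection v) = (0 : ℂ) • (v - M.starProjection v) := by
    rw [hk, zero_smul]
  have hM : ∀ m ∈ M, Polynomial.aeval T p m = 0 := by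
    intro m hm
    rw [← hspan] at hm
    induction hm using Submodule.span_induction with
    | mem y hy =>
      obtain ⟨i, rfl⟩ := hy
      rw [aeval_eigen (hx i), hpl, zero_smul]
    | zero => rw [map_zero]
    | add y z _ _ hy hz => rw [map_add, hy, hz, add_zero]
    | smul a y _ hy => rw [map_smul, hy, smul_zero]
  rw [hv, map_add, hM _ (M.starProjection_apply_mem v), aeval_eigen hk', hp0, zero_smul, add_zero]
  rfl

/-- the Lagrange polynomials -/
noncomputable def lagr {d : ℕ} (l : Fin d → ℂ) (i : Fin d) : Polynomial ℂ :=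
  Polynomial.C ((l i * ∏ j ∈ Finset.univ.erase i, (l i - l j))⁻¹) * (Polynomial.X *
    ∏ j ∈ Finset.univ.erase i, (Polynomial.X - Polynomial.C (l j)))

lemma lagr_zero {d : ℕ} (l : Fin d → ℂ) (i : Fin d) : (lagr l i).eval 0 = 0 := by
  unfold lagr
  simp

lemma lagr_eval {d : ℕ} (l : Fin d → ℂ) (hl : Function.Injective l) (hl0 : ∀ i, l i ≠ 0)
    (i j : Fin d) : (lagr l i).eval (l j) = if i = j then 1 else 0 := by
  unfold lagr
  rw [Polynomial.eval_mul, Polynomial.eval_C, Polynomial.eval_mul, Polynomial.eval_X,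
    Polynomial.eval_prod]
  have h1 : ∀ k ∈ Finset.univ.erase i, (Polynomial.X - Polynomial.C (l k)).eval (l j) =
      l j - l k := fun k _ => by simp
  rw [Finset.prod_congr rfl h1]
  by_cases hij : i = j
  · subst hij
    rw [if_pos rfl]
    refine inv_mul_cancel₀ (mul_ne_zero (hl0 i) (Finset.prod_ne_zero_iff.2 (fun k hk => ?_)))
    rw [sub_ne_zero]
    exact fun h => (Finset.ne_of_mem_erase hk) (hl h).symm
  · have h0 : ∏ k ∈ Finset.univ.erase i, (l j - l k) = 0 :=
      Finset.prod_eq_zero (i := j) (Finset.mem_erase.2 ⟨fun h => hij h.symm,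
        Finset.mem_univ _⟩) (sub_self (l j))
    rw [if_neg hij, h0, mul_zero, mul_zero]

/-- near a nice operator every operator has a good sum of idempotents -/
theorem nice_stable {T : H →L[ℂ] H} {M : Submodule ℂ H} [FiniteDimensional ℂ M] {d : ℕ}
    {x : Fin d → H} {l : Fin d → ℂ} (hT : Nice T M d x l) (n : ℕ) :
    ∀ᶠ A in 𝓝 T, ∃ G : H →L[ℂ] H, IsG A n G := by
  have hT' := hT
  obtain ⟨h1, h2, hl, hl0, hx, hspan⟩ := hT'
  set η : ℝ := min (1 / 2) (1 / (((n : ℝ) + 1) * ((d : ℝ) + 1))) with hη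
  have hηpos : 0 < η := lt_min (by norm_num) (by positivity)
  set E0 : Fin d → H →L[ℂ] H := fun i => Polynomial.aeval T (lagr l i) with hE0
  -- properties of the unperturbed idempotents
  have hidem0 : ∀ i, Polynomial.aeval T ((lagr l i) ^ 2 - lagr l i) = 0 := by
    intro i
    refine aeval_nice hT ?_ (fun j => ?_)
    · simp [lagr_zero]
    · rw [Polynomial.eval_sub, Polynomial.eval_pow, lagr_eval l hl hl0]
      by_cases hij : i = j <;> simp [hij]
  have hsum0 : ∑ i, E0 i = M.starProjection := by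
    have h3 : ∀ v ∈ M, (∑ i, E0 i) v = v := by
      intro v hv
      rw [← hspan] at hv
      induction hv using Submodule.span_induction with
      | mem y hy =>
        obtain ⟨j, rfl⟩ := hy
        rw [sum_apply]
        have h4 : ∀ i ∈ Finset.univ, (E0 i) (x j) = if i = j then x j else 0 := by
          intro i _
          show Polynomial.aeval T (lagr l i) (x j) = _
          rw [aeval_eigen (hx j), lagr_eval l hl hl0]
          by_cases hij : i = j <;> simp [hij]
        rw [Finset.sum_congr rfl h4, Finset.sum_ite_eq', if_pos (Finset.mem_univ _)]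
      | zero => rw [map_zero]
      | add y z _ _ hy hz => rw [map_add, hy, hz]
      | smul a y _ hy => rw [map_smul, hy]
    ext1 v
    have hv : v = M.starProjection v + (v - M.starProjection v) := by abel
    have hk : T (v - M.starProjection v) = (0 : ℂ) • (v - M.starProjection v) := by
      rw [zero_smul, map_sub, sub_eq_zero]
      exact (congrArg (fun f : H →L[ℂ] H => f v) h2).symm
    have h5 : (∑ i, E0 i) (v - M.starProjection v) = 0 := by
      rw [sum_apply]
      refine Finset.sum_eq_zero (fun i _ => ?_)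
      show Polynomial.aeval T (lagr l i) _ = 0
      rw [aeval_eigen hk, lagr_zero, zero_smul]
    conv_lhs => rw [hv]
    rw [map_add, h3 _ (M.starProjection_apply_mem v), h5, add_zero]
  have hrank0 : ∀ i v, ∃ a : ℂ, E0 i v = a • x i := by
    intro i v
    have h3 : ∀ v ∈ M, ∃ a : ℂ, E0 i v = a • x i := by
      intro v hv
      rw [← hspan] at hv
      induction hv using Submodule.span_induction with
      | mem y hy =>
        obtain ⟨j, rfl⟩ := hy
        show ∃ a : ℂ, Polynomial.aeval T (lagr l i) (x j) = a • x i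
        rw [aeval_eigen (hx j), lagr_eval l hl hl0]
        by_cases hij : i = j
        · exact ⟨1, by simp [hij]⟩
        · exact ⟨0, by simp [hij]⟩
      | zero => exact ⟨0, by rw [map_zero, zero_smul]⟩
      | add y z _ _ hy hz =>
        obtain ⟨a, ha⟩ := hy
        obtain ⟨b, hb⟩ := hz
        exact ⟨a + b, by rw [map_add, ha, hb, add_smul]⟩
      | smul a y _ hy =>
        obtain ⟨b, hb⟩ := hy
        exact ⟨a * b, by rw [map_smul, hb, smul_smul]⟩
    have hv : v = M.starProjection v + (v - M.starProjection v) := by abel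
    have hk : T (v - M.starProjection v) = (0 : ℂ) • (v - M.starProjection v) := by
      rw [zero_smul, map_sub, sub_eq_zero]
      exact (congrArg (fun f : H →L[ℂ] H => f v) h2).symm
    obtain ⟨a, ha⟩ := h3 _ (M.starProjection_apply_mem v)
    refine ⟨a, ?_⟩
    rw [hv, map_add, ha]
    have h5 : (E0 i) (v - M.starProjection v) = 0 := by
      show Polynomial.aeval T (lagr l i) _ = 0
      rw [aeval_eigen hk, lagr_zero, zero_smul]
    rw [h5, add_zero]
  -- the eventual estimates
  have hc : ∀ p : Polynomial ℂ, Tendsto (fun A : H →L[ℂ] H => Polynomial.aeval A p) (𝓝 T)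
      (𝓝 (Polynomial.aeval T p)) := fun p => (p.continuous_aeval).tendsto T
  have hev : ∀ i, ∀ᶠ A in 𝓝 T, ‖Polynomial.aeval A ((lagr l i) ^ 2 - lagr l i)‖ ≤ 1 / 8 ∧
      4 * (‖Polynomial.aeval A (2 * (lagr l i) - 1)‖ *
        ‖Polynomial.aeval A ((lagr l i) ^ 2 - lagr l i)‖) +
        ‖Polynomial.aeval A (lagr l i) - E0 i‖ < η := by
    intro i
    have h3 : Tendsto (fun A : H →L[ℂ] H => ‖Polynomial.aeval A ((lagr l i) ^ 2 - lagr l i)‖)
        (𝓝 T) (𝓝 0) := by
      have := (hc ((lagr l i) ^ 2 - lagr l i)).norm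
      rwa [hidem0, norm_zero] at this
    have h4 : Tendsto (fun A : H →L[ℂ] H => 4 * (‖Polynomial.aeval A (2 * (lagr l i) - 1)‖ *
        ‖Polynomial.aeval A ((lagr l i) ^ 2 - lagr l i)‖) +
        ‖Polynomial.aeval A (lagr l i) - E0 i‖) (𝓝 T) (𝓝 (4 * (‖Polynomial.aeval T
          (2 * (lagr l i) - 1)‖ * 0) + ‖E0 i - E0 i‖)) := by
      refine Tendsto.add (((hc _).norm.mul h3).const_mul 4) ?_
      exact ((hc (lagr l i)).sub_const (E0 i)).norm
    rw [mul_zero, mul_zero, sub_self, norm_zero, add_zero] at h4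
    filter_upwards [h3.eventually (gt_mem_nhds (by norm_num : (0 : ℝ) < 1 / 8)),
      h4.eventually (gt_mem_nhds hηpos)] with A hA1 hA2
    exact ⟨hA1.le, hA2⟩
  have hev2 : ∀ᶠ A in 𝓝 T, ‖(1 - M.starProjection) * A‖ < 1 / ((n : ℝ) + 1) ∧
      ‖A * (1 - M.starProjection)‖ < 1 / ((n : ℝ) + 1) := by
    have h3 : Tendsto (fun A : H →L[ℂ] H => ‖(1 - M.starProjection) * A‖) (𝓝 T)
        (𝓝 ‖(1 - M.starProjection) * T‖) := (Continuous.tendsto (by fun_prop) T)
    have h4 : Tendsto (fun A : H →L[ℂ] H => ‖A * (1 - M.starProjection)‖) (𝓝 T)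
        (𝓝 ‖T * (1 - M.starProjection)‖) := (Continuous.tendsto (by fun_prop) T)
    rw [sub_mul, one_mul, h1, sub_self, norm_zero] at h3
    rw [mul_sub, mul_one, h2, sub_self, norm_zero] at h4
    have h5 : (0 : ℝ) < 1 / ((n : ℝ) + 1) := by positivity
    filter_upwards [h3.eventually (gt_mem_nhds h5), h4.eventually (gt_mem_nhds h5)] with A hA1 hA2
    exact ⟨hA1, hA2⟩
  filter_upwards [eventually_all.2 hev, hev2] with A hA hA2
  choose E hE1 hE2 hE3 using fun i => exists_idem A (lagr l i) (lagr_zero l i) (hA i).1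
  have hclose : ∀ i, ‖E i - E0 i‖ < η := by
    intro i
    have h3 : E i - E0 i = (E i - Polynomial.aeval A (lagr l i)) +
        (Polynomial.aeval A (lagr l i) - E0 i) := by abel
    rw [h3]
    exact lt_of_le_of_lt ((norm_add_le _ _).trans (add_le_add (hE3 i) le_rfl)) (hA i).2
  choose l' hl' using fun i => eigen_of_close (hE1 i) (comm_of_mem_closure (hE2 i)) (hrank0 i)
    (lt_of_lt_of_le (hclose i) ((min_le_left _ _).trans (by norm_num)))
  refine ⟨∑ i, E i, d, E, l', M, inferInstance, rfl, hE1, hE2, hl', ?_, hA2.1, hA2.2⟩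
  rw [← hsum0, ← Finset.sum_sub_distrib]
  refine lt_of_le_of_lt (norm_sum_le _ _) ?_
  have h3 : ∑ i, ‖E i - E0 i‖ ≤ ∑ _i : Fin d, η := Finset.sum_le_sum (fun i _ => (hclose i).le)
  refine lt_of_le_of_lt h3 ?_
  rw [Finset.sum_const, Finset.card_univ, Fintype.card_fin, nsmul_eq_mul]
  have h4 : η ≤ 1 / (((n : ℝ) + 1) * ((d : ℝ) + 1)) := min_le_right _ _
  calc (d : ℝ) * η ≤ d * (1 / (((n : ℝ) + 1) * ((d : ℝ) + 1))) :=
        mul_le_mul_of_nonneg_left h4 (by positivity)
    _ = (1 / ((n : ℝ) + 1)) * (d / ((d : ℝ) + 1)) := by field_simp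
    _ < (1 / ((n : ℝ) + 1)) * 1 := by
        refine mul_lt_mul_of_pos_left ?_ (by positivity)
        rw [div_lt_one (by positivity)]
        linarith
    _ = _ := mul_one _

end stab

end Pool.Agent.RFX
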