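import Mathlib
import Pool.Agent.RFX.Stab

set_option autoImplicit false

/-!
# Reflexivity from the idempotents, and the residual set
-/

namespace Pool.Agent.RFX

open scoped InnerProductSpace BigOperators
open ContinuousLinearMap Filter Topology

section refl

/-- if every vector of a subspace is an eigenvector then the operator is scalar there -/
lemma scalar_of_lines {E : Type*} [NormedAddCommGroup E] [NormedSpace ℂ E] (S : E →L[ℂ] E)
    (W : Submodule ℂ E) (h : ∀ x ∈ W, ∃ a : ℂ, S x = a • x) : ∃ s : ℂ, ∀ x ∈ W, S x = s • x := by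
  by_cases hW : W = ⊥
  · refine ⟨0, fun x hx => ?_⟩
    rw [hW, Submodule.mem_bot] at hx
    rw [hx, map_zero, smul_zero]
  · obtain ⟨x0, hx0, hne⟩ := (Submodule.ne_bot_iff _).1 hW
    obtain ⟨s, hs⟩ := h x0 hx0
    refine ⟨s, fun x hx => ?_⟩
    obtain ⟨a, ha⟩ := h x hx
    obtain ⟨b, hb⟩ := h (x + x0) (W.add_mem hx hx0)
    rw [map_add, ha, hs, smul_add] at hb
    -- `(a - b) x = (b - s) x0`
    have h1 : (a - b) • x = (b - s) • x0 := by
      rw [sub_smul, sub_smul, sub_eq_sub_iff_add_eq_add, hb, add_comm]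
    by_cases hab : a = b
    · rw [hab, sub_self, zero_smul] at h1
      have h2 := (smul_eq_zero.1 h1.symm).resolve_right hne
      rw [ha, hab, sub_eq_zero.1 h2]
    · have h2 : x = ((b - s) / (a - b)) • x0 := by
        rw [div_eq_inv_mul, mul_smul, ← h1, smul_smul, inv_mul_cancel₀ (sub_ne_zero.2 hab),
          one_smul]
      rw [h2, map_smul, hs, smul_comm]

/-- an operator leaving the `T`-invariant subspaces invariant is scalar on the `T`-eigenvectors
in a subspace -/
lemma scalar_of_latLE {E : Type*} [NormedAddCommGroup E] [NormedSpace ℂ E] {T S : E →L[ℂ] E}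
    (h : LatLE T S) (W : Submodule ℂ E) {l : ℂ} (hW : ∀ x ∈ W, T x = l • x) :
    ∃ s : ℂ, ∀ x ∈ W, S x = s • x := by
  refine scalar_of_lines S W (fun x hx => ?_)
  have h1 := h (Submodule.span ℂ {x}) (Submodule.closed_of_finiteDimensional _) (fun v hv => by
    obtain ⟨a, rfl⟩ := Submodule.mem_span_singleton.1 hv
    rw [map_smul, hW x hx, smul_smul, ← smul_smul]
    exact Submodule.smul_mem _ _ (Submodule.smul_mem _ _ (Submodule.mem_span_singleton_self x)))
    x (Submodule.mem_span_singleton_self x)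
  obtain ⟨a, ha⟩ := Submodule.mem_span_singleton.1 h1
  exact ⟨a, ha.symm⟩

variable {H : Type*} [NormedAddCommGroup H] [InnerProductSpace ℂ H] [CompleteSpace H]

/-- the common kernel of `A` and its adjoint -/
noncomputable def ker2 (A : H →L[ℂ] H) : Submodule ℂ H :=
  LinearMap.ker A.toLinearMap ⊓ LinearMap.ker (adjoint A).toLinearMap

/-- the vectors on which good sums converge to the identity -/
def convSet (A : H →L[ℂ] H) : Submodule ℂ H where
  carrier := {y | ∀ ε : ℝ, 0 < ε → ∃ n0 : ℕ, ∀ n, n0 ≤ n → ∀ G, IsG A n G → ‖G y - y‖ < ε}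
  zero_mem' := fun ε hε => ⟨0, fun n _ G _ => by simpa using hε⟩
  add_mem' := by
    intro y z hy hz ε hε
    obtain ⟨n1, h1⟩ := hy (ε / 2) (by positivity)
    obtain ⟨n2, h2⟩ := hz (ε / 2) (by positivity)
    refine ⟨max n1 n2, fun n hn G hG => ?_⟩
    have h3 : G (y + z) - (y + z) = (G y - y) + (G z - z) := by rw [map_add]; abel
    rw [h3]
    have h4 := h1 n ((le_max_left _ _).trans hn) G hG
    have h5 := h2 n ((le_max_right _ _).trans hn) G hG
    exact lt_of_le_of_lt (norm_add_le _ _) (by linarith)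
  smul_mem' := by
    intro c y hy ε hε
    obtain ⟨n1, h1⟩ := hy (ε / (‖c‖ + 1)) (by positivity)
    refine ⟨n1, fun n hn G hG => ?_⟩
    have h3 : G (c • y) - c • y = c • (G y - y) := by rw [map_smul, smul_sub]
    rw [h3, norm_smul]
    have h4 := h1 n hn G hG
    rw [lt_div_iff₀ (by positivity)] at h4
    nlinarith [norm_nonneg c, norm_nonneg (G y - y)]

omit [CompleteSpace H] in
lemma IsG.norm_sub_one_le {A : H →L[ℂ] H} {n : ℕ} {G : H →L[ℂ] H} (h : IsG A n G) :
    ‖G - 1‖ ≤ 2 := by
  obtain ⟨m, E, l, F, hF, -, -, -, -, h1, -, -⟩ := h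
  have h2 : G - 1 = (G - F.starProjection) + (F.starProjection - 1) := by abel
  have h3 : ‖F.starProjection - 1‖ ≤ 1 := by
    have h4 : 1 - F.starProjection = Fᗮ.starProjection := by
      rw [F.starProjection_orthogonal']
    rw [norm_sub_rev, h4]
    exact Fᗮ.starProjection_norm_le
  have h4 : (1 : ℝ) / ((n : ℝ) + 1) ≤ 1 := by
    rw [div_le_one (by positivity)]
    have : (0 : ℝ) ≤ n := Nat.cast_nonneg n
    linarith
  rw [h2]
  refine (norm_add_le _ _).trans ?_
  linarith

lemma convSet_closed (A : H →L[ℂ] H) : IsClosed (convSet A : Set H) := by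
  rw [← isSeqClosed_iff_isClosed]
  intro y z hy hz ε hε
  obtain ⟨N, hN⟩ := (Metric.tendsto_atTop.1 hz) (ε / 4) (by positivity)
  obtain ⟨n0, hn0⟩ := hy N (ε / 4) (by positivity)
  refine ⟨n0, fun n hn G hG => ?_⟩
  have h1 := hn0 n hn G hG
  have h2 := hN N le_rfl
  rw [dist_eq_norm] at h2
  have h3 : G z - z = (G (y N) - y N) - (G - 1) (y N - z) := by
    rw [sub_apply, map_sub]
    have : (1 : H →L[ℂ] H) (y N - z) = y N - z := rfl
    rw [this]
    abel
  rw [h3]
  have h4 : ‖(G - 1) (y N - z)‖ ≤ 2 * ‖y N - z‖ :=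
    ((G - 1).le_opNorm _).trans (mul_le_mul_of_nonneg_right hG.norm_sub_one_le (norm_nonneg _))
  exact lt_of_le_of_lt (norm_sub_le _ _) (by linarith)

omit [CompleteSpace H] in
lemma range_subset_convSet (A : H →L[ℂ] H) (x : H) : A x ∈ convSet A := by
  intro ε hε
  obtain ⟨n0, hn0⟩ := exists_nat_gt ((‖A‖ + 1) * (‖x‖ + 1) / ε)
  refine ⟨n0, fun n hn G hG => ?_⟩
  obtain ⟨m, E, l, F, hF, -, -, -, -, h1, h2, -⟩ := hG
  have h3 : G (A x) - A x = (G - F.starProjection) (A x) - ((1 - F.starProjection) * A) x := by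
    have : ((1 - F.starProjection) * A) x = A x - F.starProjection (A x) := rfl
    rw [this, sub_apply]
    abel
  have hx1 : ‖(G - F.starProjection) (A x)‖ ≤ 1 / ((n : ℝ) + 1) * (‖A‖ * ‖x‖) :=
    ((G - F.starProjection).le_opNorm _).trans (mul_le_mul h1.le (A.le_opNorm x) (norm_nonneg _)
      (by positivity))
  have hx2 : ‖((1 - F.starProjection) * A) x‖ ≤ 1 / ((n : ℝ) + 1) * ‖x‖ :=
    (ContinuousLinearMap.le_opNorm _ _).trans (mul_le_mul_of_nonneg_right h2.le (norm_nonneg _))
  rw [h3]
  refine lt_of_le_of_lt (norm_sub_le _ _) ?_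
  have h4 : (‖A‖ + 1) * (‖x‖ + 1) < ε * ((n : ℝ) + 1) := by
    have h5 : (n0 : ℝ) ≤ n := by exact_mod_cast hn
    rw [div_lt_iff₀ hε] at hn0
    nlinarith
  calc _ ≤ 1 / ((n : ℝ) + 1) * (‖A‖ * ‖x‖) + 1 / ((n : ℝ) + 1) * ‖x‖ := add_le_add hx1 hx2
    _ = (‖A‖ * ‖x‖ + ‖x‖) / ((n : ℝ) + 1) := by ring
    _ < ε := by
        rw [div_lt_iff₀ (by positivity)]
        nlinarith [norm_nonneg A, norm_nonneg x]

lemma adjoint_range_subset_convSet (A : H →L[ℂ] H) (x : H) : adjoint A x ∈ convSet A := by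
  intro ε hε
  obtain ⟨n0, hn0⟩ := exists_nat_gt ((‖A‖ + 1) * (‖x‖ + 1) / ε)
  refine ⟨n0, fun n hn G hG => ?_⟩
  obtain ⟨m, E, l, F, hF, -, -, -, -, h1, -, h2⟩ := hG
  have h3 : G (adjoint A x) - adjoint A x = (G - F.starProjection) (adjoint A x) -
      (adjoint (A * (1 - F.starProjection))) x := by
    have h5 : adjoint (A * (1 - F.starProjection)) = (1 - F.starProjection) * adjoint A := by
      have h6 : adjoint (1 : H →L[ℂ] H) = 1 := star_one (H →L[ℂ] H)
      have h7 : A * (1 - F.starProjection) = A ∘L (1 - F.starProjection) := rfl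
      rw [h7, adjoint_comp, map_sub, adjoint_starProjection, h6]
      rfl
    have : ((1 - F.starProjection) * adjoint A) x =
      adjoint A x - F.starProjection (adjoint A x) := rfl
    rw [h5, this, sub_apply]
    abel
  have hx1 : ‖(G - F.starProjection) (adjoint A x)‖ ≤ 1 / ((n : ℝ) + 1) * (‖A‖ * ‖x‖) := by
    refine ((G - F.starProjection).le_opNorm _).trans (mul_le_mul h1.le ?_ (norm_nonneg _)
      (by positivity))
    have := (adjoint A).le_opNorm x
    rwa [LinearIsometryEquiv.norm_map] at this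
  have hx2 : ‖(adjoint (A * (1 - F.starProjection))) x‖ ≤ 1 / ((n : ℝ) + 1) * ‖x‖ := by
    refine (ContinuousLinearMap.le_opNorm _ _).trans (mul_le_mul_of_nonneg_right ?_ (norm_nonneg _))
    rw [LinearIsometryEquiv.norm_map]
    exact h2.le
  rw [h3]
  refine lt_of_le_of_lt (norm_sub_le _ _) ?_
  have h4 : (‖A‖ + 1) * (‖x‖ + 1) < ε * ((n : ℝ) + 1) := by
    have h5 : (n0 : ℝ) ≤ n := by exact_mod_cast hn
    rw [div_lt_iff₀ hε] at hn0
    nlinarith
  calc _ ≤ 1 / ((n : ℝ) + 1) * (‖A‖ * ‖x‖) + 1 / ((n : ℝ) + 1) * ‖x‖ := add_le_add hx1 hx2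
    _ = (‖A‖ * ‖x‖ + ‖x‖) / ((n : ℝ) + 1) := by ring
    _ < ε := by
        rw [div_lt_iff₀ (by positivity)]
        nlinarith [norm_nonneg A, norm_nonneg x]

lemma orthogonal_ker2_le (A : H →L[ℂ] H) : (ker2 A)ᗮ ≤ convSet A := by
  have hle : (convSet A)ᗮ ≤ ker2 A := by
    intro y hy
    rw [Submodule.mem_orthogonal] at hy
    refine ⟨?_, ?_⟩
    · rw [SetLike.mem_coe, LinearMap.mem_ker]
      show A y = 0
      refine ext_inner_left ℂ (fun v => ?_)
      rw [inner_zero_right, ← adjoint_inner_left]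
      exact hy _ (adjoint_range_subset_convSet A v)
    · rw [SetLike.mem_coe, LinearMap.mem_ker]
      show adjoint A y = 0
      refine ext_inner_left ℂ (fun v => ?_)
      rw [inner_zero_right, adjoint_inner_right]
      exact hy _ (range_subset_convSet A v)
  have h1 : (convSet A)ᗮᗮ = convSet A := by
    rw [Submodule.orthogonal_orthogonal_eq_closure]
    exact (convSet_closed A).submodule_topologicalClosure_eq
  rw [← h1]
  exact Submodule.orthogonal_le hle

lemma ker2_closed (A : H →L[ℂ] H) : IsClosed (ker2 A : Set H) := by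
  have h1 : (ker2 A : Set H) = {y | A y = 0} ∩ {y | adjoint A y = 0} := rfl
  rw [h1]
  exact (isClosed_eq (by fun_prop) (by fun_prop)).inter (isClosed_eq (by fun_prop) (by fun_prop))

/-- **Reflexivity of all ampliations.** -/
theorem reflexive_of_isG {A : H →L[ℂ] H} (hA : ∀ n : ℕ, ∃ G, IsG A n G) (k : ℕ) :
    ReflexiveOp (ampl k A) := by
  intro S hS s ε hε
  classical
  -- the scalar on the kernel
  obtain ⟨s0, hs0⟩ := scalar_of_latLE hS (LinearMap.ker (ampl k A).toLinearMap) (l := 0)
    (fun x hx => by rw [zero_smul]; exact hx)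
  set N := ker2 A with hN
  have hNc : IsComplete (N : Set H) := (ker2_closed A).isComplete
  have : CompleteSpace N := hNc.completeSpace_coe
  -- decomposition of vectors
  set w : (Fin k → H) → (Fin k → H) := fun v j => N.starProjection (v j) with hw
  have hwN : ∀ v j, w v j ∈ N := fun v j => N.starProjection_apply_mem _
  have hy : ∀ v j, v j - w v j ∈ convSet A := fun v j =>
    orthogonal_ker2_le A (N.sub_starProjection_mem_orthogonal _)
  set κ := ε / (2 * (‖S‖ + ‖s0‖ + 1)) with hκ
  have hκpos : 0 < κ := by positivity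
  -- a common index
  have hex : ∃ n0 : ℕ, ∀ n, n0 ≤ n → ∀ G, IsG A n G → ∀ v ∈ s, ∀ j,
      ‖G (v j - w v j) - (v j - w v j)‖ < κ := by
    have h1 : ∀ v : Fin k → H, ∀ j, ∃ n0 : ℕ, ∀ n, n0 ≤ n → ∀ G, IsG A n G →
      ‖G (v j - w v j) - (v j - w v j)‖ < κ := fun v j => hy v j κ hκpos
    choose n1 hn1 using h1
    refine ⟨s.sup (fun v => Finset.univ.sup (fun j => n1 v j)), fun n hn G hG v hv j => ?_⟩
    refine hn1 v j n ?_ G hG
    have h2 : n1 v j ≤ Finset.univ.sup (fun j => n1 v j) :=
      Finset.le_sup (f := fun j => n1 v j) (Finset.mem_univ j)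
    have h3 : Finset.univ.sup (fun j => n1 v j) ≤ s.sup (fun v => Finset.univ.sup
      (fun j => n1 v j)) := Finset.le_sup (f := fun v => Finset.univ.sup (fun j => n1 v j)) hv
    omega
  obtain ⟨n0, hn0⟩ := hex
  obtain ⟨G, hG⟩ := hA n0
  have hG' := hG
  obtain ⟨m, E, l, F, hF, hGE, hE1, hE2, hE3, -, -, -⟩ := hG'
  -- the scalars on the ranges
  have hsc : ∀ i, ∃ si : ℂ, ∀ v : Fin k → H, S (ampl k (E i) v) = si • ampl k (E i) v := by
    intro i
    obtain ⟨si, hsi⟩ := scalar_of_latLE hS (LinearMap.range (ampl k (E i)).toLinearMap) (l := l i)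
      (fun x hx => by
        obtain ⟨v, rfl⟩ := hx
        show ampl k A (ampl k (E i) v) = l i • ampl k (E i) v
        ext j
        exact congrArg (fun f : H →L[ℂ] H => f (v j)) (hE3 i))
    exact ⟨si, fun v => hsi _ ⟨v, rfl⟩⟩
  choose si hsi using hsc
  set B : H →L[ℂ] H := ∑ i, si i • E i + s0 • (1 - G) with hB
  -- the norm estimate for `B`
  have hmain : ∀ v ∈ s, ‖S v - ampl k B v‖ ≤ ε / 2 := by
    intro v hv
    set y : Fin k → H := fun j => v j - w v j with hyd
    have hvyw : v = y + w v := by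
      ext j
      simp [hyd]
    have hSw : S (w v) = s0 • w v := by
      refine hs0 _ ?_
      rw [LinearMap.mem_ker]
      ext j
      show A (w v j) = 0
      have := (hwN v j).1
      exact this
    have hEw : ∀ i, ampl k (E i) (w v) = 0 := by
      intro i
      ext j
      exact zero_of_mem_closure (hE2 i) (hwN v j).1
    have hGw : ampl k G (w v) = 0 := by
      ext j
      show G (w v j) = 0
      rw [hGE, sum_apply]
      exact Finset.sum_eq_zero (fun i _ => zero_of_mem_closure (hE2 i) (hwN v j).1)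
    have hSG : S (ampl k G y) = ∑ i, si i • ampl k (E i) y := by
      have h1 : ampl k G y = ∑ i, ampl k (E i) y := by
        ext j
        show G (y j) = _
        rw [hGE, sum_apply, Finset.sum_apply]
        rfl
      rw [h1, map_sum]
      exact Finset.sum_congr rfl (fun i _ => hsi i y)
    have hBv : ∀ u : Fin k → H, ampl k B u = ∑ i, si i • ampl k (E i) u + s0 • (u - ampl k G u) := by
      intro u
      ext j
      show B (u j) = _
      rw [hB, add_apply, sum_apply, Pi.add_apply, Finset.sum_apply]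
      rfl
    have hBw : ampl k B (w v) = s0 • w v := by
      rw [hBv, hGw, sub_zero]
      have h1 : ∑ i, si i • ampl k (E i) (w v) = 0 :=
        Finset.sum_eq_zero (fun i _ => by rw [hEw, smul_zero])
      rw [h1, zero_add]
    have hdiff : S v - ampl k B v = s0 • (ampl k G y - y) - S (ampl k G y - y) := by
      conv_lhs => rw [hvyw]
      rw [map_add, map_add, hSw, hBw, hBv y, ← hSG, map_sub, smul_sub, smul_sub]
      abel
    have hGy : ‖ampl k G y - y‖ ≤ κ := by
      refine (pi_norm_le_iff_of_nonneg hκpos.le).2 (fun j => ?_)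
      exact (hn0 n0 le_rfl G hG v hv j).le
    rw [hdiff]
    refine (norm_sub_le _ _).trans ?_
    rw [norm_smul]
    have h2 : ‖S (ampl k G y - y)‖ ≤ ‖S‖ * κ :=
      (S.le_opNorm _).trans (mul_le_mul_of_nonneg_left hGy (norm_nonneg _))
    have h3 : ‖s0‖ * ‖ampl k G y - y‖ ≤ ‖s0‖ * κ := mul_le_mul_of_nonneg_left hGy (norm_nonneg _)
    have h4 : κ * (2 * (‖S‖ + ‖s0‖ + 1)) = ε := by rw [hκ]; field_simp
    nlinarith
  -- `B` is in the closure of the polynomials
  have hBcl : B ∈ closure (Set.range (fun p : Polynomial ℂ => Polynomial.aeval A p)) := by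
    have hsub : Set.range (fun p : Polynomial ℂ => Polynomial.aeval A p) =
        ((Algebra.adjoin ℂ {A} : Subalgebra ℂ (H →L[ℂ] H)) : Set (H →L[ℂ] H)) := by
      rw [Algebra.adjoin_singleton_eq_range_aeval]
      rfl
    rw [hsub, ← Subalgebra.topologicalClosure_coe, SetLike.mem_coe]
    have hEm : ∀ i, E i ∈ (Algebra.adjoin ℂ {A} : Subalgebra ℂ (H →L[ℂ] H)).topologicalClosure := by
      intro i
      have := range_of_mem_closure (hE2 i)
      rw [hsub, ← Subalgebra.topologicalClosure_coe, SetLike.mem_coe] at this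
      exact this
    rw [hB]
    refine Subalgebra.add_mem _ (Subalgebra.sum_mem _ (fun i _ => Subalgebra.smul_mem _ (hEm i) _))
      (Subalgebra.smul_mem _ (Subalgebra.sub_mem _ (Subalgebra.one_mem _) ?_) _)
    rw [hGE]
    exact Subalgebra.sum_mem _ (fun i _ => hEm i)
  -- approximate
  obtain ⟨R, hRpos, hR⟩ : ∃ R : ℝ, 0 < R ∧ ∀ v ∈ s, ‖v‖ ≤ R := by
    refine ⟨∑ v ∈ s, ‖v‖ + 1, by positivity, fun v hv => ?_⟩
    have : ‖v‖ ≤ ∑ v ∈ s, ‖v‖ :=
      Finset.single_le_sum (f := fun v : Fin k → H => ‖v‖) (fun _ _ => norm_nonneg _) hv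
    linarith
  obtain ⟨_, ⟨p, rfl⟩, hp⟩ := Metric.mem_closure_iff.1 hBcl (ε / (4 * R)) (by positivity)
  refine ⟨Polynomial.aeval (ampl k A) p, mem_adjoin_iff.2 ⟨p, rfl⟩, fun v hv => ?_⟩
  rw [dist_eq_norm] at hp
  have h1 : S v - Polynomial.aeval (ampl k A) p v = (S v - ampl k B v) +
      ampl k (B - Polynomial.aeval A p) v := by
    rw [aeval_ampl]
    have h2 : ampl k (B - Polynomial.aeval A p) v = ampl k B v - ampl k (Polynomial.aeval A p) v := by
      ext j; rfl
    rw [h2]; abel
  rw [h1]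
  have h2 : ‖ampl k (B - Polynomial.aeval A p) v‖ ≤ ε / (4 * R) * R :=
    (ContinuousLinearMap.le_opNorm _ _).trans (mul_le_mul ((ampl_norm_le k _).trans hp.le) (hR v hv)
      (norm_nonneg _) (by positivity))
  have h3 : ε / (4 * R) * R = ε / 4 := by field_simp
  rw [h3] at h2
  have h4 := hmain v hv
  exact lt_of_le_of_lt (norm_add_le _ _) (by linarith)

/-- **The generic compact operator has reflexive ampliations.** -/
theorem residual_reflexive :
    {A : compactOperator (RingHom.id ℂ) H H | ∀ k : ℕ, ReflexiveOp (ampl k (A : H →L[ℂ] H))} ∈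
      residual (compactOperator (RingHom.id ℂ) H H) := by
  -- the open dense sets
  set O : ℕ → Set (compactOperator (RingHom.id ℂ) H H) := fun n =>
    interior {A | ∃ G, IsG (A : H →L[ℂ] H) n G} with hO
  have hdense : ∀ n, Dense (O n) := by
    intro n
    rw [Metric.dense_iff]
    intro A ε hε
    -- finite rank approximation
    obtain ⟨F, hF, hFA⟩ := exists_finite_approx (A : H →L[ℂ] H) A.2 (show 0 < ε / 4 by positivity)
    set M : Submodule ℂ H := F ⊔ F.map (adjoint (A : H →L[ℂ] H)).toLinearMap with hM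
    set A1 := F.starProjection * (A : H →L[ℂ] H) with hA1
    have hFM : F ≤ M := le_sup_left
    have h1 : M.starProjection * A1 = A1 := by
      ext1 v
      exact M.starProjection_eq_self_iff.2 (hFM (F.starProjection_apply_mem _))
    have h2 : A1 * M.starProjection = A1 := by
      ext1 v
      have h3 : v - M.starProjection v ∈ Mᗮ := M.sub_starProjection_mem_orthogonal v
      have h4 : A1 (v - M.starProjection v) = 0 := by
        have h5 : (A : H →L[ℂ] H) (v - M.starProjection v) ∈ Fᗮ := by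
          rw [Submodule.mem_orthogonal]
          intro f hf
          rw [← adjoint_inner_left]
          refine (Submodule.mem_orthogonal _ _).1 h3 _ ?_
          have h6 : F.map (adjoint (A : H →L[ℂ] H)).toLinearMap ≤ M := le_sup_right
          exact h6 (Submodule.mem_map_of_mem hf)
        exact F.starProjection_apply_eq_zero_iff.2 h5
      rw [map_sub, sub_eq_zero] at h4
      exact h4.symm
    obtain ⟨T, x, l, hT1, hT2⟩ := exists_nice _ M rfl A1 h1 h2 (ε / 4) (by positivity)
    have hTc : IsCompactOperator T := by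
      rw [← hT2.1]
      exact IsCompactOperator.comp_clm (isCompact_starProjection M) T
    refine ⟨⟨T, hTc⟩, ?_, ?_⟩
    · rw [Metric.mem_ball, dist_eq_norm]
      show ‖T - (A : H →L[ℂ] H)‖ < ε
      have h3 : T - (A : H →L[ℂ] H) = (T - A1) + -((A : H →L[ℂ] H) - A1) := by abel
      rw [h3]
      refine lt_of_le_of_lt (norm_add_le _ _) ?_
      rw [norm_neg]
      linarith
    · rw [hO, mem_interior_iff_mem_nhds]
      have h3 := nice_stable hT2 n
      have h4 : Tendsto (fun B : compactOperator (RingHom.id ℂ) H H => (B : H →L[ℂ] H))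
          (𝓝 ⟨T, hTc⟩) (𝓝 T) := continuous_subtype_val.tendsto _
      exact h4.eventually h3
  have h1 : ∀ n, O n ∈ residual (compactOperator (RingHom.id ℂ) H H) := fun n =>
    residual_of_dense_open isOpen_interior (hdense n)
  refine mem_of_superset (countable_iInter_mem.2 h1) (fun A hA => ?_)
  refine fun k => reflexive_of_isG (fun n => ?_) k
  have := interior_subset (Set.mem_iInter.1 hA n)
  exact this

end refl

end Pool.Agent.RFX
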